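import Pool.Agent.Lib.MP_021685_agSP.SPCX
import Pool.Agent.Lib.MP_021685_agTWF.WD

/-! The converse, the final form. -/

set_option autoImplicit false

namespace TSP

open Polynomial

/-- **The converse, the strongest form**: if for all independent families of Weil numbers in the CM fields `E i` (for prime powers
`Q`) there is ONE monic integral polynomial with their conjugates as roots (with any multiplicities) such that all Tate classes of
even weight come from pairings, the family `E` is separated. -/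
theorem sep_of_some {r : ℕ} {E : Fin r → Type} [∀ i, Field (E i)] [∀ i, NumberField (E i)]
    [∀ i, NumberField.IsCMField (E i)]
    (h : ∀ (Q : ℕ) (J : Fin r → Type) [∀ i, Fintype (J i)] (a : ∀ i, J i → E i), IsPrimePow Q →
      (∀ i k, IsIntegral ℤ (a i k)) →
      (∀ (i : Fin r) (k : J i) (φ : E i →+* ℂ), φ (a i k) * starRingEnd ℂ (φ (a i k)) = (Q : ℂ)) →
      (∀ i, TWF.IsIndep Q (a i)) →
      ∃ R : ℤ[X], R.Monic ∧ (∀ z : ℂ, aeval z R = 0 ↔ ∃ (i : Fin r) (k : J i) (φ : E i →+* ℂ), φ (a i k) = z) ∧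
        EvenFull Q R) : Sep E :=
  sep_of_some' fun Q J _ a hQ hint hW hi => h Q J a hQ hint hW hi

/-- **The converse**: if, for the abelian varieties with independent Weil numbers in the CM fields `E i`, all Tate classes of
even weight come from pairings, the family `E` is separated. -/
theorem sep_of_evenFull {r : ℕ} {E : Fin r → Type} [∀ i, Field (E i)] [∀ i, NumberField (E i)]
    [∀ i, NumberField.IsCMField (E i)]
    (h : ∀ (Q : ℕ) (J : Fin r → Type) [∀ i, Fintype (J i)] (a : ∀ i, J i → E i) (R : ℤ[X]), IsPrimePow Q → R.Monic →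
      (∀ (i : Fin r) (k : J i) (φ : E i →+* ℂ), φ (a i k) * starRingEnd ℂ (φ (a i k)) = (Q : ℂ)) →
      (∀ z : ℂ, aeval z R = 0 ↔ ∃ (i : Fin r) (k : J i) (φ : E i →+* ℂ), φ (a i k) = z) →
      (∀ i, TWF.IsIndep Q (a i)) → EvenFull Q R) : Sep E :=
  sep_of_evenFull' fun Q J _ a R hQ hR hW hr hi => h Q J a R hQ hR hW hr hi

theorem sep_of_full {r : ℕ} {E : Fin r → Type} [∀ i, Field (E i)] [∀ i, NumberField (E i)]
    [∀ i, NumberField.IsCMField (E i)]
    (h : ∀ (Q : ℕ) (J : Fin r → Type) [∀ i, Fintype (J i)] (a : ∀ i, J i → E i) (R : ℤ[X]), IsPrimePow Q → R.Monic →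
      (∀ (i : Fin r) (k : J i) (φ : E i →+* ℂ), φ (a i k) * starRingEnd ℂ (φ (a i k)) = (Q : ℂ)) →
      (∀ z : ℂ, aeval z R = 0 ↔ ∃ (i : Fin r) (k : J i) (φ : E i →+* ℂ), φ (a i k) = z) →
      (∀ i, TWF.IsIndep Q (a i)) → TI.Full Q R) : Sep E :=
  sep_of_evenFull fun Q J _ a R hQ hR hW hr hi => evenFull_of_full (h Q J a R hQ hR hW hr hi)

end TSP
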