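import Pool.Agent.Lib.MP_021685_agSP.SP9
import Pool.Agent.Lib.MP_021685_agSP.SPCZ

/-! Separated families of CM fields: the equivalence, and the fields with all the sign changes. -/

set_option autoImplicit false

namespace TSP

open Polynomial TAF

/-- The Tate classes for a family of CM fields, in the form with `EvenFull`. -/
theorem evenFull_of_tateFields {r : ℕ} {g : Fin r → ℕ} {E : Fin r → Type} [∀ i, Field (E i)] [∀ i, NumberField (E i)]
    (h : TAL.TateFields g E) (Q : ℕ) (J : Fin r → Type) [∀ i, Fintype (J i)] (a : ∀ i, J i → E i) (R : ℤ[X])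
    (hQ : 0 < Q) (hR : R.Monic)
    (hW : ∀ (i : Fin r) (k : J i) (φ : E i →+* ℂ), φ (a i k) * starRingEnd ℂ (φ (a i k)) = (Q : ℂ))
    (hr : ∀ z : ℂ, aeval z R = 0 ↔ ∃ (i : Fin r) (k : J i) (φ : E i →+* ℂ), φ (a i k) = z)
    (hi : ∀ i, TWF.IsIndep Q (a i)) : TI.Full Q R :=
  TAF.full_of_fullFor ((h Q J a R hQ hR hW hr).1 hi).2 fun _ _ => small_one _ _ _

/-- **Separated families of CM fields, the equivalence**: a family of CM fields is separated if and only if there are no exotic
Tate classes for the independent families of Weil numbers in the fields, for all prime powers `Q`; and then there are none for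
all positive integers `Q`, and foreign `Z` (`TAL.TateFields`). -/
theorem sep_iff {r : ℕ} {g : Fin r → ℕ} {E : Fin r → Type} [∀ i, Field (E i)] [∀ i, NumberField (E i)]
    (hE : ∀ i, NumberField.IsCMField (E i) ∧ Module.finrank ℚ (E i) = 2 * g i) : Sep E ↔ TAL.TateFields g E := by
  have hcm : ∀ i, NumberField.IsCMField (E i) := fun i => (hE i).1
  refine ⟨fun h => tateFields hE h, fun h => sep_of_evenFull fun Q J _ a R hQ hR hW hr hi => ?_⟩
  exact evenFull_of_full (evenFull_of_tateFields h Q J a R hQ.pos hR hW hr hi)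

/-- Fields with all the sign changes, apart. -/
theorem sep_of_signs {r : ℕ} {E : Fin r → Type} [∀ i, Field (E i)] [∀ i, NumberField (E i)]
    (hE : ∀ i, NumberField.IsCMField (E i) ∧ TAL.AllSigns (E i)) (hA : TAL.Apart E) : Sep E := by
  have hex : ∀ i, ∃ g : ℕ, Module.finrank ℚ (E i) = 2 * g := by
    intro i
    have := (hE i).1
    exact ⟨_, NumberField.IsTotallyComplex.finrank (E i)⟩
  choose g hg using hex
  exact (sep_iff fun i => ⟨(hE i).1, hg i⟩).2 (TAL.tateFields (fun i => ⟨(hE i).1, (hE i).2, hg i⟩) hA)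

end TSP
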