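import Pool.Agent.Lib.MP_021685_agSP.D0
import Pool.Agent.Lib.MP_021685_agTAL.AD

/-! Definitions used in the statements of `MP_021685_ag.AlmostAll` and `MP_021685_ag.AlmostAllLifts`: the separated families of CM
fields, explicitly.  `AllSigns`, `galClosure` and `Apart` are defined in `MP_021685_agTAL/AD.lean`. -/

set_option autoImplicit false

namespace TSP

open NumberField

/-- **The explicit criterion**: let the `F i` be totally real fields, `a i` a totally negative member of `F i`, and
`E i = F i (√(a i))` (every CM field is one of these fields; `ι i` is the embedding of `F i` in `E i`, and `x i = √(a i)`).  The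
family `E` is separated (`Sep`) if and only if for any two different embeddings `s`, `t` in `ℝ` of the fields `F i` (of the same
field or of two of them) the product of the values of the `a i` is not a square in the compositum of the images. -/
def Explicit : Prop :=
  ∀ (r : ℕ) (F E : Fin r → Type) [∀ i, Field (F i)] [∀ i, NumberField (F i)] [∀ i, IsTotallyReal (F i)]
    [∀ i, Field (E i)] [∀ i, NumberField (E i)] (a : ∀ i, F i) (ι : ∀ i, F i →+* E i) (x : ∀ i, E i),
    (∀ i, x i ^ 2 = ι i (a i)) → (∀ i (y : E i), ∃ u v : F i, y = ι i u + ι i v * x i) →
      (∀ i (s : F i →+* ℝ), s (a i) < 0) →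
        (Sep E ↔ ∀ s t : (Σ i, F i →+* ℝ), s ≠ t → ∀ z ∈ Subfield.closure (Set.range s.2 ∪ Set.range t.2),
          z ^ 2 ≠ s.2 (a s.1) * t.2 (a t.1))

/-- **Examples of separated families of CM fields**:

* separated CM fields (`Sep1`) with different Galois closures; a CM field of degree `2 p`, `p` an odd prime number, is separated
  if and only if it contains no square root of a negative integer;
* CM fields with all the sign changes (`TAL.AllSigns`: for every embedding in `ℂ` there is an automorphism of `ℂ` which changes
  it to its complex conjugate and fixes the other ones), pairwise not isomorphic, such that any two of them have different Galois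
  closures, or the maximal real subfield of one of them has no automorphism of order two (`TAL.Apart`). -/
def Examples : Prop :=
  (∀ (r : ℕ) (E : Fin r → Type) [∀ i, Field (E i)] [∀ i, NumberField (E i)], (∀ i, IsCMField (E i)) →
    (∀ i, Sep1 (E i)) → (∀ i j, i ≠ j → TAL.galClosure (E i) ≠ TAL.galClosure (E j)) → Sep E) ∧
  (∀ (E : Type) [Field E] [NumberField E] (p : ℕ), IsCMField E → p.Prime → p ≠ 2 → Module.finrank ℚ E = 2 * p →
    (Sep1 E ↔ ∀ (a : E) (d : ℤ), a ^ 2 = (d : E) → 0 ≤ d)) ∧
  (∀ (r : ℕ) (E : Fin r → Type) [∀ i, Field (E i)] [∀ i, NumberField (E i)], (∀ i, IsCMField (E i)) →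
    (∀ i, TAL.AllSigns (E i)) → TAL.Apart E → Sep E)

/-- **One more example**: a CM field `E` is separated if its maximal real subfield `F` has no subfields but `ℚ` and `F`, and if
the Galois closure of `E` has degree more than `2` over the Galois closure of `F`. -/
def Primitive : Prop :=
  ∀ (E : Type) [Field E] [NumberField E], IsCMField E →
    (∀ K : IntermediateField ℚ (maximalRealSubfield E), K = ⊥ ∨ K = ⊤) →
      2 * Module.finrank ℚ (TAL.galClosure (maximalRealSubfield E)) < Module.finrank ℚ (TAL.galClosure E) → Sep1 E

end TSP
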