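import Pool.Agent.Lib.MP_021685_agSP.SPCD

/-! The converse, file W: the matching of the factors of a relation between roots (as in `MP_021685_agTWF.W8`). -/

set_option autoImplicit false

namespace TSP

open Polynomial

private theorem W_apply {ι : Type} [Fintype ι] [DecidableEq ι] (lam : ι → ℂ) (v : ι → ℂ) (i : ι) :
    Matrix.toLin' (Matrix.diagonal lam) v i = lam i * v i := by
  rw [Matrix.toLin'_apply, Matrix.mulVec_diagonal]

private theorem W_single {ι : Type} [Fintype ι] [DecidableEq ι] (lam : ι → ℂ) (i : ι) :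
    Matrix.toLin' (Matrix.diagonal lam) (Pi.single i 1) = lam i • (Pi.single i 1 : ι → ℂ) := by
  funext j
  rw [W_apply, Pi.smul_apply, smul_eq_mul]
  rcases eq_or_ne j i with h | h
  · rw [h]
  · rw [Pi.single_eq_of_ne h, mul_zero, mul_zero]

private theorem W_semisimple {ι : Type} [Fintype ι] [DecidableEq ι] (lam : ι → ℂ) :
    Module.End.IsSemisimple (Matrix.toLin' (Matrix.diagonal lam)) := by
  classical
  have hsq : Squarefree (∏ z ∈ Finset.univ.image lam, (X - C z)) := by
    apply Polynomial.Separable.squarefree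
    have := (Polynomial.separable_prod_X_sub_C_iff' (f := fun z : ℂ => z)
      (s := Finset.univ.image lam)).2 fun x _ y _ h => h
    exact this
  refine Module.End.isSemisimple_of_squarefree_aeval_eq_zero hsq ?_
  apply (Pi.basisFun ℂ ι).ext
  intro i
  rw [Pi.basisFun_apply, LinearMap.zero_apply]
  have hne : (Pi.single i 1 : ι → ℂ) ≠ 0 := by
    intro h
    have h1 := congrFun h i
    rw [Pi.single_eq_same, Pi.zero_apply] at h1
    exact one_ne_zero h1
  have hev : Module.End.HasEigenvector (Matrix.toLin' (Matrix.diagonal lam)) (lam i)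
      (Pi.single i 1 : ι → ℂ) :=
    ⟨Module.End.mem_eigenspace_iff.2 (W_single lam i), hne⟩
  rw [Module.End.aeval_apply_of_hasEigenvector hev, Polynomial.eval_prod]
  have h0 : ∏ z ∈ Finset.univ.image lam, Polynomial.eval (lam i) (X - C z) = 0 := by
    refine Finset.prod_eq_zero (Finset.mem_image_of_mem lam (Finset.mem_univ i)) ?_
    rw [Polynomial.eval_sub, Polynomial.eval_X, Polynomial.eval_C, sub_self]
  rw [h0, zero_smul]

private theorem W_match {q : ℕ} {P : ℤ[X]} (hF : EvenFull q P) {ι : Type} [Fintype ι] [DecidableEq ι] {lam : ι → ℂ}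
    (hP : P.map (Int.castRingHom ℂ) = ∏ i, (X - C (lam i))) {n : ℕ} (s : Fin (2 * n) → ι)
    (hs : ∏ a, lam (s a) = ((Real.sqrt q : ℝ) : ℂ) ^ (2 * n)) :
    ∃ (m : ℕ) (e : Fin m ⊕ Fin m ≃ Fin (2 * n)), ∀ i,
      lam (s (e (Sum.inl i))) * lam (s (e (Sum.inr i))) = (q : ℂ) := by
  have hchar : (Matrix.toLin' (Matrix.diagonal lam)).charpoly = P.map (Int.castRingHom ℂ) := by
    rw [Matrix.charpoly_toLin', Matrix.charpoly_diagonal, hP]
  obtain ⟨T, hTv⟩ : ∃ T : MultilinearMap ℂ (fun _ : Fin (2 * n) => ι → ℂ) ℂ,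
      ∀ v, T v = ∏ a, v a (s a) := by
    refine ⟨(MultilinearMap.mkPiAlgebra ℂ (Fin (2 * n)) ℂ).compLinearMap
      fun a => (LinearMap.proj (s a) : (ι → ℂ) →ₗ[ℂ] ℂ), fun v => ?_⟩
    rw [MultilinearMap.compLinearMap_apply, MultilinearMap.mkPiAlgebra_apply]
    rfl
  have hT : TI.IsTate q 1 (2 * n) (Matrix.toLin' (Matrix.diagonal lam)) T := by
    intro v
    rw [hTv, hTv, pow_one, one_mul, ← hs, ← Finset.prod_mul_distrib]
    exact Finset.prod_congr rfl fun a _ => W_apply lam (v a) (s a)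
  have hspan := hF (ι → ℂ) (Matrix.toLin' (Matrix.diagonal lam)) (W_semisimple lam) hchar 1 n
    one_pos T hT
  by_contra hcon
  have hz : ∀ T' ∈ Submodule.span ℂ {T' : MultilinearMap ℂ (fun _ : Fin (2 * n) => ι → ℂ) ℂ |
      TI.IsProduct q 1 (2 * n) (Matrix.toLin' (Matrix.diagonal lam)) T'},
      T' (fun a => Pi.single (s a) 1) = 0 := by
    intro T' hT'
    induction hT' using Submodule.span_induction with
    | mem T₀ h =>
      obtain ⟨m, e, b, hb, hprod⟩ := h
      rw [hprod]
      by_contra hne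
      apply hcon
      refine ⟨m, e, fun i => ?_⟩
      have hi := Finset.prod_ne_zero_iff.1 hne i (Finset.mem_univ i)
      have h1 := hb i (Pi.single (s (e (Sum.inl i))) 1) (Pi.single (s (e (Sum.inr i))) 1)
      rw [pow_one, pow_one, W_single, W_single, map_smul, map_smul, LinearMap.smul_apply,
        smul_eq_mul, smul_eq_mul, ← mul_assoc] at h1
      have h2 := mul_right_cancel₀ hi h1
      rw [mul_comm]
      exact h2
    | zero => rfl
    | add x y _ _ hx hy => rw [add_apply, hx, hy, add_zero]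
    | smul c x _ hx => rw [smul_apply, hx, smul_zero]
  have h1 := hz T hspan
  rw [hTv] at h1
  have h2 : ∏ a, (Pi.single (s a) (1 : ℂ) : ι → ℂ) (s a) = 1 :=
    Finset.prod_eq_one fun a _ => Pi.single_eq_same _ _
  rw [h2] at h1
  exact one_ne_zero h1

theorem match_of_evenFull {q : ℕ} {P : ℤ[X]} (hF : EvenFull q P) (hm : P.Monic) {T : Type} [Fintype T] (z : T → ℂ)
    (hz : ∀ t, aeval (z t) P = 0) {n : ℕ} (hn : Fintype.card T = 2 * n) (hs : ∏ t, z t = (q : ℂ) ^ n) :
    ∃ (m : ℕ) (e : Fin m ⊕ Fin m ≃ T), ∀ x, z (e (Sum.inl x)) * z (e (Sum.inr x)) = (q : ℂ) := by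
  classical
  set R : Multiset ℂ := (P.map (Int.castRingHom ℂ)).roots with hR
  have hmon : (P.map (Int.castRingHom ℂ)).Monic := hm.map _
  have hsplit : (R.map fun a => X - C a).prod = P.map (Int.castRingHom ℂ) :=
    ((IsAlgClosed.splits (P.map (Int.castRingHom ℂ))).eq_prod_roots_of_monic hmon).symm
  let L : List ℂ := R.toList
  let lam : Fin L.length → ℂ := fun i => L.get i
  have hP : P.map (Int.castRingHom ℂ) = ∏ i, (X - C (lam i)) := by
    rw [← hsplit, ← Multiset.coe_toList R, Multiset.map_coe, Multiset.prod_coe]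
    show _ = ∏ i : Fin L.length, (X - C (L.get i))
    rw [← List.prod_ofFn, ← List.ofFn_get (L.map fun a => X - C a)]
    congr 1
    apply List.ext_get
    · simp
    · intro n h1 h2
      simp [L]
  have hmem : ∀ t, ∃ i, lam i = z t := fun t => by
    have h1 : z t ∈ R := by
      rw [hR, mem_roots hmon.ne_zero, IsRoot.def, eval_map, ← algebraMap_int_eq]
      exact hz t
    have h2 : z t ∈ L := Multiset.mem_toList.2 h1
    obtain ⟨n, hn⟩ := List.get_of_mem h2
    exact ⟨n, hn⟩
  choose i hi using hmem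
  let e : T ≃ Fin (2 * n) := Fintype.equivFinOfCardEq hn
  have hq : ((Real.sqrt q : ℝ) : ℂ) ^ (2 * n) = (q : ℂ) ^ n := by
    rw [pow_mul, ← Complex.ofReal_pow, Real.sq_sqrt (Nat.cast_nonneg q), Complex.ofReal_natCast]
  obtain ⟨m, e', he'⟩ := W_match hF hP (fun a : Fin (2 * n) => i (e.symm a)) (by
    rw [hq, ← hs]
    refine (Finset.prod_congr rfl fun a _ => hi (e.symm a)).trans ?_
    exact Equiv.prod_comp e.symm z)
  refine ⟨m, e'.trans e.symm, fun x => ?_⟩
  have h1 := he' x
  rw [hi, hi] at h1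
  exact h1

end TSP
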