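import Mathlib

/-! Separated fields, file SPP2: convolution equations on `ZMod p`. -/

set_option autoImplicit false

namespace TSP

open Polynomial

/-- The shift of functions on `ZMod p`. -/
noncomputable def shift (p : ℕ) : Module.End ℚ (ZMod p → ℚ) := LinearMap.funLeft ℚ ℚ (fun i => i + 1)

theorem shift_apply {p : ℕ} (v : ZMod p → ℚ) (i : ZMod p) : shift p v i = v (i + 1) := rfl

theorem shift_pow {p : ℕ} (n : ℕ) (v : ZMod p → ℚ) (i : ZMod p) : (shift p ^ n) v i = v (i + n) := by
  induction n generalizing v with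
  | zero => simp
  | succ n ih =>
    rw [pow_succ, Module.End.mul_apply, ih, shift_apply]
    push_cast
    rw [add_assoc]

/-- If `∑ a k v (i + k) = (∑ a k) v i` for all `i`, and `a` is zero at `0` but not everywhere, `v` is constant. -/
theorem const_of_conv {p : ℕ} [hp : Fact p.Prime] (a : ZMod p → ℚ) (ha0 : a 0 = 0) (ha : ∃ j, a j ≠ 0) (v : ZMod p → ℚ)
    (hv : ∀ i, ∑ k, a k * v (i + k) = (∑ k, a k) * v i) (i : ZMod p) : v i = v 0 := by
  have hpp := hp.out
  let P : ℚ[X] := ∑ k : ZMod p, C (a k) * X ^ k.val - C (∑ k, a k)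
  have hPv : aeval (shift p) P v = 0 := by
    ext i
    have h1 : aeval (shift p) P v i = ∑ k, a k * v (i + k) - (∑ k, a k) * v i := by
      simp only [P, map_sub, map_sum, map_mul, aeval_C, aeval_X, map_pow, LinearMap.sub_apply, LinearMap.sum_apply,
        Pi.sub_apply, Finset.sum_apply, Module.End.mul_apply, Module.algebraMap_end_apply, Pi.smul_apply, smul_eq_mul,
        shift_pow, ZMod.natCast_val, ZMod.cast_id', id_eq]
      rw [Finset.sum_mul]
    rw [h1, hv, sub_self, Pi.zero_apply]
  have hcoeff : ∀ k : ZMod p, P.coeff k.val = a k - if k = 0 then ∑ k, a k else 0 := by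
    intro k
    simp only [P, coeff_sub, finsetSum_coeff, coeff_C_mul, coeff_X_pow, coeff_C]
    rw [Finset.sum_eq_single k]
    · simp [ZMod.val_eq_zero]
    · intro b _ hb
      rw [if_neg, mul_zero]
      intro h
      exact hb (ZMod.val_injective p h).symm
    · intro h
      exact absurd (Finset.mem_univ _) h
  have hdeg : P.natDegree ≤ p - 1 := by
    refine (natDegree_sub_le _ _).trans (max_le (natDegree_sum_le_of_forall_le _ _ fun k _ => ?_)
      (by rw [natDegree_C]; exact Nat.zero_le _))
    refine (natDegree_C_mul_X_pow_le _ _).trans ?_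
    have := ZMod.val_lt k
    omega
  have hirr : Irreducible (cyclotomic p ℚ) := cyclotomic.irreducible_rat hpp.pos
  have hnd : ¬ cyclotomic p ℚ ∣ P := by
    rintro ⟨R, hR⟩
    have hcd : (cyclotomic p ℚ).natDegree = p - 1 := by rw [natDegree_cyclotomic, Nat.totient_prime hpp]
    have hcm : (cyclotomic p ℚ).Monic := cyclotomic.monic p ℚ
    have hRd : R.natDegree = 0 := by
      by_cases hR0 : R = 0
      · rw [hR0, natDegree_zero]
      · have h1 : P.natDegree = (cyclotomic p ℚ).natDegree + R.natDegree := by
          rw [hR, hcm.natDegree_mul' hR0]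
        omega
    obtain ⟨q, rfl⟩ : ∃ q, R = C q := ⟨_, eq_C_of_natDegree_eq_zero hRd⟩
    have h1 : ∀ k : ZMod p, P.coeff k.val = q := by
      intro k
      rw [hR, coeff_mul_C, cyclotomic_prime]
      simp only [finsetSum_coeff, coeff_X_pow]
      rw [Finset.sum_eq_single k.val]
      · simp
      · intro b _ hb
        rw [if_neg (Ne.symm hb)]
      · intro h
        exact absurd (Finset.mem_range.2 (ZMod.val_lt k)) h
    have h2 : ∀ k : ZMod p, a k = q + if k = 0 then ∑ k, a k else 0 := by
      intro k
      have := hcoeff k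
      rw [h1] at this
      linarith
    have h3 := h2 0
    rw [ha0, if_pos rfl] at h3
    have h4 : ∑ k, a k = p * q + ∑ k, a k := by
      conv_lhs => rw [Finset.sum_congr rfl fun k _ => h2 k]
      rw [Finset.sum_add_distrib, Finset.sum_ite_eq' Finset.univ (0 : ZMod p)]
      simp [ZMod.card]
    have h5 : (p : ℚ) * q = 0 := by linarith
    have h6 : q = 0 := by
      rcases mul_eq_zero.1 h5 with h | h
      · exact absurd (Nat.cast_eq_zero.1 h) hpp.ne_zero
      · exact h
    obtain ⟨j, hj⟩ := ha
    apply hj
    rw [h2 j, h6]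
    have h7 : ∑ k, a k = 0 := by linarith
    rw [h7]
    simp
  obtain ⟨A, B, hAB⟩ := (hirr.coprime_iff_not_dvd).2 hnd
  -- `Φ (shift) v` is constant
  have hΦ : shift p (aeval (shift p) (cyclotomic p ℚ) v) = aeval (shift p) (cyclotomic p ℚ) v := by
    ext i
    have h1 : ∀ i : ZMod p, aeval (shift p) (cyclotomic p ℚ) v i = ∑ k : ZMod p, v (i + k) := by
      intro i
      rw [cyclotomic_prime]
      simp only [map_sum, map_pow, aeval_X, LinearMap.sum_apply, Finset.sum_apply, shift_pow]
      symm
      refine Finset.sum_bij (fun k _ => k.val) (fun k _ => Finset.mem_range.2 (ZMod.val_lt k)) (fun a _ b _ h => ZMod.val_injective p h)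
        (fun b hb => ⟨(b : ZMod p), Finset.mem_univ _, ZMod.val_cast_of_lt (Finset.mem_range.1 hb)⟩) (fun k _ => by simp)
    rw [shift_apply, h1, h1]
    have h2 : ∀ j : ZMod p, ∑ k : ZMod p, v (j + k) = ∑ k : ZMod p, v k := fun j =>
      Fintype.sum_equiv (Equiv.addLeft j) _ _ (fun k => rfl)
    rw [h2, h2]
  have hv1 : v = aeval (shift p) A (aeval (shift p) (cyclotomic p ℚ) v) := by
    have h1 : aeval (shift p) (A * cyclotomic p ℚ + B * P) v = v := by rw [hAB, map_one, Module.End.one_apply]
    rw [map_add, map_mul, map_mul, LinearMap.add_apply, Module.End.mul_apply, Module.End.mul_apply, hPv, map_zero,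
      add_zero] at h1
    exact h1.symm
  have hv2 : shift p v = v := by
    conv_lhs => rw [hv1]
    have h1 : ∀ w : ZMod p → ℚ, shift p (aeval (shift p) A w) = aeval (shift p) A (shift p w) := by
      intro w
      have h2 : shift p * aeval (shift p) A = aeval (shift p) A * shift p := by
        have h3 : aeval (shift p) (X * A) = aeval (shift p) (A * X) := by rw [mul_comm]
        rwa [map_mul, map_mul, aeval_X] at h3
      exact LinearMap.congr_fun h2 w
    rw [h1, hΦ, ← hv1]
  have h1 := shift_pow i.val v 0
  have h2 : ∀ n : ℕ, (shift p ^ n) v = v := by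
    intro n
    induction n with
    | zero => rfl
    | succ n ih => rw [pow_succ, Module.End.mul_apply, hv2, ih]
  rw [h2, zero_add, ZMod.natCast_val, ZMod.cast_id', id_eq] at h1
  exact h1.symm

end TSP
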