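import Pool.Agent.Lib.MP_021685_agSP.SPP1
import Pool.Agent.Lib.MP_021685_agSP.SPP2

/-! Separated fields, file SPP3: a transitive group on `2 p` points with an inseparable pair has the blocks of an imaginary
quadratic field. -/

set_option autoImplicit false

namespace TSP

variable {G X : Type*} [Group G] [MulAction G X]

/-- Cauchy: an element which acts with order `p`. -/
theorem exists_order [Fintype X] (ht : ∀ x y : X, ∃ g : G, g • x = y) {p : ℕ} (hp : p.Prime)
    (hX : Fintype.card X = 2 * p) : ∃ (s : G) (x1 : X), (∀ x : X, s ^ p • x = x) ∧ s • x1 ≠ x1 := by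
  have hne : Nonempty X := by
    rw [← Fintype.card_pos_iff, hX]
    have := hp.pos
    omega
  obtain ⟨x⟩ := hne
  let R : Subgroup (Equiv.Perm X) := (MulAction.toPermHom G X).range
  have hfin : Finite R := inferInstance
  have htr : MulAction.IsPretransitive R X := ⟨fun x y => by
    obtain ⟨g, hg⟩ := ht x y
    exact ⟨⟨MulAction.toPermHom G X g, ⟨g, rfl⟩⟩, hg⟩⟩
  have hdvd : p ∣ Nat.card R := by
    have h1 : (MulAction.stabilizer R x).index = Nat.card X := MulAction.index_stabilizer_of_transitive R x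
    have h2 : (MulAction.stabilizer R x).index ∣ Nat.card R := Subgroup.index_dvd_card _
    rw [h1, Nat.card_eq_fintype_card, hX] at h2
    exact (Dvd.intro_left 2 rfl).trans h2
  have : Fact p.Prime := ⟨hp⟩
  obtain ⟨⟨σ, s, rfl⟩, hs⟩ := exists_prime_orderOf_dvd_card' p hdvd
  refine ⟨s, ?_⟩
  have h1 : ∀ y : X, s ^ p • y = y := by
    intro y
    have h2 : (⟨MulAction.toPermHom G X s, ⟨s, rfl⟩⟩ : R) ^ p = 1 := by rw [← hs, pow_orderOf_eq_one]
    have h3 := congrArg Subtype.val h2
    have h4 : (MulAction.toPermHom G X (s ^ p)) y = y := by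
      rw [map_pow]
      exact Equiv.Perm.ext_iff.1 h3 y
    exact h4
  by_contra hcon
  push Not at hcon
  have h2 : ∀ y : X, s • y = y := fun y => hcon y h1
  have h3 : (⟨MulAction.toPermHom G X s, ⟨s, rfl⟩⟩ : R) = 1 := by
    apply Subtype.ext
    ext y
    exact h2 y
  rw [h3, orderOf_one] at hs
  exact hp.one_lt.ne hs

theorem pow_smul_eq_iff {s : G} {x1 : X} {p : ℕ} (hp : p.Prime) (h1 : s ^ p • x1 = x1) (h2 : s • x1 ≠ x1) (n m : ℕ) :
    s ^ n • x1 = s ^ m • x1 ↔ (n : ZMod p) = m := by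
  have hper : MulAction.period s x1 = p := by
    have h3 : MulAction.period s x1 ∣ p := MulAction.pow_smul_eq_iff_period_dvd.1 h1
    rcases (Nat.dvd_prime hp).1 h3 with h4 | h4
    · have h5 : s ^ 1 • x1 = x1 := MulAction.pow_smul_eq_iff_period_dvd.2 (by rw [h4])
      rw [pow_one] at h5
      exact absurd h5 h2
    · exact h4
  rw [ZMod.natCast_eq_natCast_iff]
  have key : ∀ n m : ℕ, n ≤ m → (s ^ n • x1 = s ^ m • x1 ↔ n ≡ m [MOD p]) := by
    intro n m hnm
    obtain ⟨k, rfl⟩ := Nat.exists_eq_add_of_le hnm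
    rw [pow_add, mul_smul]
    rw [Nat.modEq_iff_dvd' (Nat.le_add_right n k), Nat.add_sub_cancel_left]
    rw [← hper, ← MulAction.pow_smul_eq_iff_period_dvd]
    constructor
    · intro h
      exact (smul_left_cancel _ h).symm
    · intro h
      rw [h]
  rcases le_total n m with h | h
  · exact key n m h
  · rw [eq_comm, key m n h, Nat.ModEq.comm]

/-- **The block of an imaginary quadratic field.** -/
theorem exists_block [Fintype X] (c : G) (hc : ∀ (g : G) (x : X), g • c • x = c • g • x)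
    (hc2 : ∀ x : X, c • c • x = x) (hcx : ∀ x : X, c • x ≠ x) (ht : ∀ x y : X, ∃ g : G, g • x = y) {p : ℕ} (hp : p.Prime)
    (hp2 : p ≠ 2) (hX : Fintype.card X = 2 * p) (x0 y0 : X) (h1 : y0 ≠ x0) (h2 : y0 ≠ c • x0)
    (h0 : ¬ ∃ g : G, g • x0 = c • x0 ∧ g • y0 = y0) :
    ∃ u : X → ℚ, (∀ x, u x = 1 ∨ u x = -1) ∧ (∀ x, u (c • x) = - u x) ∧
      ∀ g : G, (∀ x, u (g • x) = u x) ∨ (∀ x, u (g • x) = - u x) := by
  classical
  have : Fact p.Prime := ⟨hp⟩
  obtain ⟨s, x1, hs1, hs2⟩ := exists_order ht hp hX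
  -- the cycle
  let cy : ZMod p → X := fun i => s ^ i.val • x1
  have hcyn : ∀ n : ℕ, s ^ n • x1 = cy n := fun n => by
    rw [pow_smul_eq_iff hp (hs1 x1) hs2]
    simp
  have hcy1 : ∀ (n : ℕ) (i : ZMod p), s ^ n • cy i = cy (i + n) := by
    intro n i
    change s ^ n • s ^ i.val • x1 = _
    rw [← mul_smul, ← pow_add, hcyn]
    congr 1
    push_cast
    rw [ZMod.natCast_val, ZMod.cast_id', id_eq, add_comm]
  have hinj : Function.Injective cy := by
    intro i j hij
    have h3 := (pow_smul_eq_iff hp (hs1 x1) hs2 i.val j.val).1 hij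
    simpa using h3
  have hdisj : ∀ i j, cy i ≠ c • cy j := by
    intro i j hij
    -- `c (cy j) = s ^ k (cy j)`
    have h3 : s ^ (i - j).val • cy j = c • cy j := by
      rw [hcy1, ← hij]
      congr 1
      simp
    have h4 : s ^ ((i - j).val + (i - j).val) • cy j = cy j := by
      rw [pow_add, mul_smul, h3, hc, h3, hc2]
    rw [hcy1] at h4
    have h5 := hinj h4
    have h6 : (2 : ZMod p) * (i - j) = 0 := by
      have h7 : (((i - j).val + (i - j).val : ℕ) : ZMod p) = 0 := by simpa using h5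
      push_cast at h7
      rw [ZMod.natCast_val, ZMod.cast_id', id_eq] at h7
      rw [two_mul]
      exact h7
    have h8 : (2 : ZMod p) ≠ 0 := by
      intro h9
      have h10 : ((2 : ℕ) : ZMod p) = 0 := by exact_mod_cast h9
      rw [ZMod.natCast_eq_zero_iff] at h10
      exact hp2 ((Nat.prime_dvd_prime_iff_eq hp Nat.prime_two).1 h10)
    have h9 : i - j = 0 := (mul_eq_zero.1 h6).resolve_left h8
    rw [sub_eq_zero.1 h9] at hij
    exact hcx _ hij.symm
  have hbij : Function.Bijective (Sum.elim cy (fun i => c • cy i) : ZMod p ⊕ ZMod p → X) := by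
    rw [Fintype.bijective_iff_injective_and_card]
    constructor
    · rintro (i | i) (j | j) hij
      · exact congrArg Sum.inl (hinj hij)
      · exact absurd hij (hdisj i j)
      · exact absurd hij.symm (hdisj j i)
      · exact congrArg Sum.inr (hinj (smul_left_cancel c hij))
    · rw [Fintype.card_sum, ZMod.card, hX, two_mul]
  have hcov : ∀ x : X, (∃ i, x = cy i) ∨ (∃ i, x = c • cy i) := by
    intro x
    obtain ⟨i | i, hi⟩ := hbij.2 x
    · exact Or.inl ⟨i, hi.symm⟩
    · exact Or.inr ⟨i, hi.symm⟩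
  have hsum : ∀ f : X → ℚ, ∑ x, f x = ∑ i, f (cy i) + ∑ i, f (c • cy i) := by
    intro f
    rw [← Fintype.sum_equiv (Equiv.ofBijective _ hbij) (fun t => f (Sum.elim cy (fun i => c • cy i) t)) f (fun t => rfl),
      Fintype.sum_sum_type]
    rfl
  -- the relation
  let h := rel c x0 y0
  have hinv : ∀ (g : G) (x y : X), h (g • x) (g • y) = h x y := fun g x y => rel_smul c x0 y0 hc g x y
  have hl : ∀ x y : X, h (c • x) y = - h x y := fun x y => rel_left c x0 y0 hc2 x y
  have hr : ∀ x y : X, h x (c • y) = - h x y := fun x y => rel_right c x0 y0 hc2 hc2 x y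
  have hd : ∀ x : X, h x x = 0 := fun x => rel_diag c hc hc2 x0 y0 h1 h2 x
  let a : ZMod p → ℚ := fun j => h (cy 0) (cy j)
  have ha : ∀ i j, h (cy i) (cy j) = a (j - i) := by
    intro i j
    have h3 : cy i = s ^ i.val • cy 0 := by rw [hcy1]; congr 1; simp
    have h4 : cy j = s ^ i.val • cy (j - i) := by rw [hcy1]; congr 1; simp
    rw [h3, h4, hinv]
  have ha0 : a 0 = 0 := hd _
  have hane : ∃ j, a j ≠ 0 := by
    by_contra hcon
    push Not at hcon
    have h3 : ∀ i j, h (cy i) (cy j) = 0 := fun i j => by rw [ha, hcon]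
    have h4 : ∀ x y, h x y = 0 := by
      intro x y
      rcases hcov x with ⟨i, rfl⟩ | ⟨i, rfl⟩ <;> rcases hcov y with ⟨j, rfl⟩ | ⟨j, rfl⟩
      · exact h3 i j
      · rw [hr, h3, neg_zero]
      · rw [hl, h3, neg_zero]
      · rw [hl, hr, h3, neg_zero, neg_zero]
    have h5 : h x0 y0 = 1 := rel_self c x0 y0 h0
    rw [h4] at h5
    exact zero_ne_one h5
  -- the functions of the two blocks
  let u : X → ℚ := fun x => if ∃ i, x = cy i then 1 else -1
  have hu1 : ∀ i, u (cy i) = 1 := fun i => if_pos ⟨i, rfl⟩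
  have hu2 : ∀ i, u (c • cy i) = -1 := fun i => if_neg (by
    rintro ⟨j, hj⟩
    exact hdisj j i hj.symm)
  have huc : ∀ x, u (c • x) = - u x := by
    intro x
    rcases hcov x with ⟨i, rfl⟩ | ⟨i, rfl⟩
    · rw [hu1, hu2]
    · rw [hc2, hu1, hu2]; norm_num
  have hupm : ∀ x, u x = 1 ∨ u x = -1 := by
    intro x
    rcases hcov x with ⟨i, rfl⟩ | ⟨i, rfl⟩
    · exact Or.inl (hu1 i)
    · exact Or.inr (hu2 i)
  have hodd : ∀ (w : X → ℚ), (∀ x, w (c • x) = - w x) → ∀ x, ∑ y, h x y * w y = 2 * ∑ j, h x (cy j) * w (cy j) := by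
    intro w hw x
    rw [hsum, two_mul]
    congr 1
    refine Finset.sum_congr rfl fun j _ => ?_
    rw [hr, hw]
    ring
  have hH : ∀ x, ∑ y, h x y * u y = 2 * (∑ k, a k) * u x := by
    have h3 : ∀ i, ∑ y, h (cy i) y * u y = 2 * (∑ k, a k) := by
      intro i
      rw [hodd u huc]
      congr 1
      refine Fintype.sum_equiv (Equiv.subRight i) _ _ fun j => ?_
      rw [hu1, mul_one, ha]
      rfl
    intro x
    rcases hcov x with ⟨i, rfl⟩ | ⟨i, rfl⟩
    · rw [h3, hu1, mul_one]
    · have h4 : ∑ y, h (c • cy i) y * u y = - ∑ y, h (cy i) y * u y := by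
        rw [← Finset.sum_neg_distrib]
        refine Finset.sum_congr rfl fun y _ => ?_
        rw [hl]
        ring
      rw [h4, h3, hu2]
      ring
  refine ⟨u, hupm, huc, fun g => ?_⟩
  -- `u ∘ g` is an eigenvector as well
  let w : X → ℚ := fun x => u (g • x)
  have hwc : ∀ x, w (c • x) = - w x := fun x => by
    change u (g • c • x) = - u (g • x)
    rw [hc, huc]
  have hw : ∀ x, ∑ y, h x y * w y = 2 * (∑ k, a k) * w x := by
    intro x
    have h3 : ∑ y, h x y * w y = ∑ y, h (g • x) y * u y := by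
      refine Fintype.sum_equiv (MulAction.toPerm g) _ _ fun y => ?_
      change h x y * u (g • y) = h (g • x) (g • y) * u (g • y)
      rw [hinv]
    rw [h3, hH]
  have hconv : ∀ i, ∑ k, a k * w (cy (i + k)) = (∑ k, a k) * w (cy i) := by
    intro i
    have h3 := hw (cy i)
    rw [hodd w hwc] at h3
    have h4 : ∑ j, h (cy i) (cy j) * w (cy j) = ∑ k, a k * w (cy (i + k)) := by
      refine Fintype.sum_equiv (Equiv.subRight i) _ _ fun j => ?_
      rw [ha]
      simp
    rw [h4] at h3
    linarith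
  have hconst : ∀ i, w (cy i) = w (cy 0) := fun i => const_of_conv a ha0 hane (fun i => w (cy i)) hconv i
  have hfin : ∀ ε : ℚ, w (cy 0) = ε → ∀ x, w x = ε * u x := by
    intro ε hε x
    rcases hcov x with ⟨i, rfl⟩ | ⟨i, rfl⟩
    · rw [hconst, hε, hu1, mul_one]
    · rw [hwc, hconst, hε, hu2, mul_neg, mul_one]
  rcases hupm (g • cy 0) with h3 | h3
  · left
    intro x
    have := hfin 1 h3 x
    rwa [one_mul] at this
  · right
    intro x
    have := hfin (-1) h3 x
    rwa [neg_one_mul] at this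

end TSP
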