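import Pool.Agent.Lib.MP_021685_agSP.D0
import Pool.Agent.Lib.MP_021685_agSP.SPP3
import Pool.Agent.Lib.MP_802513_agHI.H2

/-! Separated fields, file SPP4: a CM field of degree `2 p`, with `p` an odd prime number, which contains no imaginary quadratic
field, is separated. -/

set_option autoImplicit false

namespace TSP

open Polynomial

/-- A number which is algebraic over a subfield `M` of `ℂ`, algebraic over `ℚ`, and which is fixed by all the automorphisms of
`ℂ` which fix `M`, is in `M`. -/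
theorem mem_of_fixed (M : IntermediateField ℚ ℂ) [Algebra.IsAlgebraic ℚ M] (z : ℂ) (hz : IsIntegral ℚ z)
    (h : ∀ σ : ℂ ≃+* ℂ, (∀ x ∈ M, σ x = x) → σ z = z) : z ∈ M := by
  by_contra hzM
  have hint : IsIntegral M z := hz.tower_top
  have hsep : (minpoly M z).Separable := (minpoly.irreducible hint).separable
  have hex : ∃ z' : ℂ, z' ≠ z ∧ aeval z' (minpoly M z) = 0 := by
    by_contra hcon
    push Not at hcon
    have h1 : ∀ z' : ℂ, aeval z' (minpoly M z) = 0 → z' = z := by
      intro z' hz'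
      by_contra hne
      exact hcon z' hne hz'
    have h2 : Fintype.card ((minpoly M z).rootSet ℂ) = (minpoly M z).natDegree :=
      card_rootSet_eq_natDegree hsep (IsAlgClosed.splits _)
    have h3 : Fintype.card ((minpoly M z).rootSet ℂ) ≤ 1 := by
      refine Fintype.card_le_one_iff.2 fun x y => Subtype.ext ?_
      rw [h1 x.1 ((mem_rootSet.1 x.2).2), h1 y.1 ((mem_rootSet.1 y.2).2)]
    have h4 : (minpoly M z).natDegree = 1 := le_antisymm (h2 ▸ h3) (minpoly.natDegree_pos hint)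
    obtain ⟨x, hx⟩ := (minpoly.natDegree_eq_one_iff).1 h4
    exact hzM (by rw [← hx]; exact x.2)
  obtain ⟨z', hz', hz0⟩ := hex
  obtain ⟨σ, hσ, hfix⟩ := HI.exists_aut_of_root M z z' hint hz0
  exact hz' (by rw [← hσ]; exact h σ hfix)

/-- The action of the automorphisms of `ℂ` on the embeddings. -/
@[reducible] def actE (E : Type) [Field E] : MulAction (ℂ ≃+* ℂ) (E →+* ℂ) where
  smul g φ := (g : ℂ →+* ℂ).comp φ
  one_smul φ := by
    change ((1 : ℂ ≃+* ℂ) : ℂ →+* ℂ).comp φ = φ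
    ext x
    rfl
  mul_smul g k φ := by
    change ((g * k : ℂ ≃+* ℂ) : ℂ →+* ℂ).comp φ = (g : ℂ →+* ℂ).comp ((k : ℂ →+* ℂ).comp φ)
    ext x
    rfl

/-- The complex conjugation. -/
noncomputable def cc : ℂ ≃+* ℂ := starRingAut

section

variable (E : Type) [Field E] [NumberField E]

attribute [local instance] actE

omit [NumberField E] in
theorem smul_def (g : ℂ ≃+* ℂ) (φ : E →+* ℂ) : g • φ = (g : ℂ →+* ℂ).comp φ := rfl

omit [NumberField E] in
theorem cc_smul (φ : E →+* ℂ) : cc • φ = (starRingEnd ℂ).comp φ := rfl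

omit [NumberField E] in
theorem cc_cc (φ : E →+* ℂ) : cc • cc • φ = φ := by
  rw [cc_smul, cc_smul]
  ext x
  simp

theorem cc_comm [NumberField.IsCMField E] (g : ℂ ≃+* ℂ) (φ : E →+* ℂ) : g • cc • φ = cc • g • φ := by
  rw [cc_smul, cc_smul, smul_def, smul_def]
  ext x
  simp only [RingHom.comp_apply]
  have h1 := NumberField.IsCMField.complexEmbedding_complexConj E φ x
  have h2 := NumberField.IsCMField.complexEmbedding_complexConj E ((g : ℂ →+* ℂ).comp φ) x
  simp only [RingHom.comp_apply] at h2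
  rw [← h1, h2]

theorem cc_ne [NumberField.IsCMField E] (φ : E →+* ℂ) : cc • φ ≠ φ := by
  intro h
  exact NumberField.IsTotallyComplex.complexEmbedding_not_isReal φ h

theorem trans_emb (φ ψ : E →+* ℂ) : ∃ g : ℂ ≃+* ℂ, g • φ = ψ := by
  obtain ⟨σ, hσ⟩ := Pool.Agent.Lib.MP_802513_ag.exists_aut φ ψ
  refine ⟨σ, ?_⟩
  ext x
  exact hσ x

variable {E}

theorem isInt_emb (φ : E →+* ℂ) (a : E) : IsIntegral ℚ (φ a) :=
  (Algebra.IsIntegral.isIntegral (R := ℚ) a).map φ.toRatAlgHom

/-- The image of an embedding. -/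
theorem mem_range_of_fixed (φ : E →+* ℂ) (z : ℂ) (hz : IsIntegral ℚ z)
    (h : ∀ g : ℂ ≃+* ℂ, g • φ = φ → g z = z) : ∃ a : E, φ a = z := by
  let M : IntermediateField ℚ ℂ := φ.toRatAlgHom.fieldRange
  have halg : Algebra.IsAlgebraic ℚ M := ⟨fun x => by
    refine IntermediateField.isAlgebraic_iff.2 ?_
    obtain ⟨a, ha⟩ := x.2
    rw [← ha]
    exact (isInt_emb φ a).isAlgebraic⟩
  have h1 : z ∈ M := mem_of_fixed M z hz fun σ hσ => h σ (RingHom.ext fun a => hσ (φ a) ⟨a, rfl⟩)
  obtain ⟨a, ha⟩ := h1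
  exact ⟨a, ha⟩

/-- The blocks of an imaginary quadratic field. -/
theorem quadratic_of_block (u : (E →+* ℂ) → ℚ) (φ : E →+* ℂ) (hu : ∀ x, u x = 1 ∨ u x = -1)
    (huc : ∀ x, u (cc • x) = - u x)
    (hug : ∀ g : ℂ ≃+* ℂ, (∀ x, u (g • x) = u x) ∨ (∀ x, u (g • x) = - u x)) :
    ∃ (a : E) (d : ℤ), a ^ 2 = (d : E) ∧ d < 0 := by
  -- a value of the difference of the two sums
  have hex : ∃ α : E, ∑ x : E →+* ℂ, (u x : ℂ) * x α ≠ 0 := by
    by_contra hcon
    push Not at hcon
    have hli : LinearIndependent ℂ (fun f : E →+* ℂ => (f : E → ℂ)) := by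
      have h1 := linearIndependent_monoidHom E ℂ
      exact h1.comp (fun f : E →+* ℂ => (f : E →* ℂ)) (fun f g hfg => RingHom.ext fun x => DFunLike.congr_fun hfg x)
    have h2 := (Fintype.linearIndependent_iff.1 hli) (fun x => (u x : ℂ)) (by
      ext α
      rw [Finset.sum_apply]
      simpa [smul_eq_mul] using hcon α)
    have h3 := h2 φ
    rcases hu φ with h4 | h4 <;> rw [h4] at h3 <;> norm_num at h3
  obtain ⟨α, hα⟩ := hex
  let δ : ℂ := ∑ x : E →+* ℂ, (u x : ℂ) * x α
  have hδ : IsIntegral ℚ δ := by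
    refine IsIntegral.sum _ fun x _ => IsIntegral.mul ?_ (isInt_emb x α)
    exact isIntegral_algebraMap (R := ℚ) (A := ℂ) (x := u x)
  have hg : ∀ g : ℂ ≃+* ℂ, g δ = ∑ x : E →+* ℂ, (u x : ℂ) * (g • x) α := by
    intro g
    change g (∑ x : E →+* ℂ, (u x : ℂ) * x α) = _
    rw [map_sum]
    refine Finset.sum_congr rfl fun x _ => ?_
    rw [map_mul, map_ratCast]
    rfl
  have hre : ∀ g : ℂ ≃+* ℂ, ∑ x : E →+* ℂ, (u (g • x) : ℂ) * (g • x) α = δ := by
    intro g
    exact Fintype.sum_equiv (MulAction.toPerm g) _ _ fun x => rfl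
  have hp : ∀ g : ℂ ≃+* ℂ, (∀ x : E →+* ℂ, u (g • x) = u x) → g δ = δ := by
    intro g h
    rw [hg]
    conv_rhs => rw [← hre g]
    refine Finset.sum_congr rfl fun x _ => ?_
    rw [h]
  have hn : ∀ g : ℂ ≃+* ℂ, (∀ x : E →+* ℂ, u (g • x) = - u x) → g δ = - δ := by
    intro g h
    rw [hg]
    conv_rhs => rw [← hre g]
    rw [← Finset.sum_neg_distrib]
    refine Finset.sum_congr rfl fun x _ => ?_
    rw [h]
    push_cast
    ring
  -- `δ` is in the field
  obtain ⟨a, ha⟩ := mem_range_of_fixed φ δ hδ fun g hgφ => by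
    rcases hug g with h | h
    · exact hp g h
    · exfalso
      have h1 := h φ
      rw [hgφ] at h1
      rcases hu φ with h4 | h4 <;> rw [h4] at h1 <;> norm_num at h1
  -- its square is rational
  obtain ⟨r, hr⟩ : ∃ r : ℚ, (r : ℂ) = δ ^ 2 := by
    have h1 : δ ^ 2 ∈ (⊥ : IntermediateField ℚ ℂ) := by
      refine mem_of_fixed ⊥ (δ ^ 2) (hδ.pow 2) fun σ _ => ?_
      rw [map_pow]
      rcases hug σ with h | h
      · rw [hp σ h]
      · rw [hn σ h, neg_sq]
    rw [IntermediateField.mem_bot] at h1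
    obtain ⟨r, hr⟩ := h1
    exact ⟨r, by rw [← hr]; rfl⟩
  have hrneg : r < 0 := by
    have h1 : starRingEnd ℂ δ = - δ := hn cc huc
    have h2 : δ.re = 0 := by
      have := congrArg Complex.re h1
      simp only [Complex.conj_re, Complex.neg_re] at this
      linarith
    have h3 : δ.im ≠ 0 := by
      intro h3
      exact hα (Complex.ext h2 h3)
    have h4 : ((r : ℝ) : ℂ) = (-(δ.im ^ 2) : ℝ) := by
      have h5 : ((r : ℝ) : ℂ) = δ ^ 2 := by rw [← hr]; push_cast; rfl
      rw [h5]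
      apply Complex.ext
      · simp [sq, h2]
      · simp [sq, h2]
    have h5 : (r : ℝ) = -(δ.im ^ 2) := Complex.ofReal_injective h4
    have h6 : (r : ℝ) < 0 := by
      rw [h5]
      have := pow_pos (abs_pos.2 h3) 2
      rw [sq_abs] at this
      linarith
    exact_mod_cast h6
  have har : a ^ 2 = (r : E) := by
    apply φ.injective
    rw [map_pow, ha, map_ratCast, hr]
  refine ⟨(r.den : E) * a, r.num * r.den, ?_, ?_⟩
  · rw [mul_pow, har]
    have h1 : (r : E) * (r.den : E) = (r.num : E) := by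
      have h2 : (r * r.den : ℚ) = r.num := Rat.mul_den_eq_num r
      exact_mod_cast congrArg (fun q : ℚ => (q : E)) h2
    push_cast
    rw [← h1]
    ring
  · exact mul_neg_of_neg_of_pos (Rat.num_neg.2 hrneg) (by exact_mod_cast r.den_pos)

end

end TSP
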