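import Pool.Agent.Lib.MP_021685_agSP.SP6
import Pool.Agent.Lib.MP_021685_agTAF.F3

/-! Small numbers of absolute value one in a separated field are roots of unity; counting. -/

set_option autoImplicit false

attribute [-instance] Pool.Agent.Lib.MP_802513_ag.W.fintypeEmb

namespace TSP

open Polynomial Module NumberField TAF

theorem torsion_of_small {E : Type} [Field E] [NumberField E] [NumberField.IsCMField E] (hsep : Sep1 E) {g Q : ℕ}
    (hQ : 0 < Q) (hg : finrank ℚ E = 2 * g) {β : E} (hβ : ∀ φ : E →+* ℂ, φ β * starRingEnd ℂ (φ β) = 1) (ψ : E →+* ℂ)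
    (h : Small Q (TAL.Gens E) g (ψ β)) : ∃ N : ℕ, 0 < N ∧ β ^ N = 1 := by
  classical
  obtain ⟨N, hN, hmem⟩ := h
  obtain ⟨L, hL, hLp⟩ := Submonoid.exists_list_of_mem_closure hmem
  have hβ0 : β ≠ 0 := by
    rintro rfl
    have h1 := hβ ψ
    rw [map_zero, zero_mul] at h1
    exact zero_ne_one h1
  have hprod0 : L.prod ≠ 0 := by
    rw [hLp]
    exact pow_ne_zero _ ((_root_.map_ne_zero ψ).2 hβ0)
  have hL0 : ∀ ρ ∈ L, ρ ≠ 0 := fun ρ hρ h0 => hprod0 (List.prod_eq_zero (h0 ▸ hρ))
  obtain ⟨K, hfd, hnor, hLK, hEK⟩ := exists_K (r := 1) (E := fun _ => E) L.toFinset (by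
    intro ρ hρ
    obtain ⟨f, hf0, hf, -⟩ := hL ρ (List.mem_toFinset.1 hρ)
    exact ⟨f, hf0, hf⟩)
  have hNF : NumberField K := numberField_of K hfd
  let ψK : E →+* K := ψ.codRestrict K fun c => hEK 0 ψ c
  obtain ⟨m, ν, hm, hν1, hν0, hν2, -⟩ := exists_norm ψK
  have hone : ∀ u : K, u ≠ 0 → Foreign Q (TAL.Gens E) g (u : ℂ) → ∃ M : ℕ, 0 < M ∧ unit (ν u) ^ M = 1 := by
    intro u hu hfor
    obtain ⟨f, hf0, hf, hcase⟩ := hfor
    have hfu : aeval u f = 0 := by
      apply (algebraMap K ℂ).injective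
      rw [map_zero, ← aeval_algebraMap_apply]
      exact hf
    have hmem' : ∀ x : E →+* ℂ, x (ν u) ∈ Submonoid.closure {z : ℂ | z ≠ 0 ∧ aeval z f = 0} := by
      intro x
      obtain ⟨n, σ, hσ⟩ := hν2 x u
      rw [hσ]
      refine prod_mem fun j _ => Submonoid.subset_closure ⟨(_root_.map_ne_zero (σ j)).2 hu, ?_⟩
      have h1 : aeval ((σ j).toRatAlgHom u) f = (σ j).toRatAlgHom (aeval u f) := aeval_algHom_apply _ _ _
      have h2 : (σ j).toRatAlgHom (aeval u f) = 0 := by
        have h3 : aeval u f = (0 : K) := hfu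
        exact (congrArg _ h3).trans (map_zero _)
      exact h1.trans h2
    rcases hcase with h1 | h1 | h1
    · exact torsion_degree hsep hg (hν0 u hu) f hf0 hmem' h1
    · exact torsion_rank hsep hQ hg (hν0 u hu) f hmem' h1
    · exact torsion_splitting hsep (hν0 u hu) f hf0 hmem' h1
  have hlist : ∀ L' : List ℂ, (∀ ρ ∈ L', ρ ∈ K ∧ ρ ≠ 0 ∧ Foreign Q (TAL.Gens E) g ρ) →
      ∃ c : K, (c : ℂ) = L'.prod ∧ ∃ M : ℕ, 0 < M ∧ unit (ν c) ^ M = 1 := by
    intro L'
    induction L' with
    | nil => exact fun _ => ⟨1, by simp, 1, one_pos, by rw [map_one, unit_one, one_pow]⟩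
    | cons ρ L' ih =>
      intro hρ
      obtain ⟨c, hc, M, hM, hM1⟩ := ih fun σ hσ => hρ σ (List.mem_cons_of_mem _ hσ)
      obtain ⟨h1, h2, h3⟩ := hρ ρ List.mem_cons_self
      obtain ⟨M', hM', hM1'⟩ := hone ⟨ρ, h1⟩ (fun h => h2 (congrArg (fun w : K => (w : ℂ)) h)) h3
      refine ⟨⟨ρ, h1⟩ * c, ?_, M' * M, Nat.mul_pos hM' hM, ?_⟩
      · rw [List.prod_cons, ← hc]
        rfl
      · rw [map_mul, unit_mul, mul_pow, pow_mul, hM1', one_pow, mul_comm M' M, pow_mul, hM1, one_pow, one_mul]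
  obtain ⟨c, hc, M, hM, hM1⟩ := hlist L fun ρ hρ => ⟨hLK ρ (List.mem_toFinset.2 hρ), hL0 ρ hρ, hL ρ hρ⟩
  have h1 : c = ψK (β ^ N) := by
    refine Subtype.ext ?_
    rw [hc, hLp]
    exact (map_pow ψ β N).symm
  rw [h1, hν1, ← pow_mul, unit_pow, unit_of_abs hβ, ← pow_mul, ← pow_mul] at hM1
  exact ⟨2 * (N * m * M), Nat.mul_pos two_pos (Nat.mul_pos (Nat.mul_pos hN hm) hM), hM1⟩

/-- Collecting the factors of a product. -/
theorem prod_sign {T J F : Type} [Fintype T] [Fintype J] [DecidableEq J] [Field F] (b : J → F) (hb : ∀ k, b k ≠ 0)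
    (ε : T → Bool) (κ : T → J) :
    ∏ t, b (κ t) ^ (if ε t then (1 : ℤ) else -1) =
      ∏ k, b k ^ (((Finset.univ.filter fun t => κ t = k ∧ ε t = true).card : ℤ) -
        ((Finset.univ.filter fun t => κ t = k ∧ ε t = false).card : ℤ)) := by
  rw [← Finset.prod_fiberwise Finset.univ κ]
  refine Finset.prod_congr rfl fun k _ => ?_
  have h1 : ∀ s : Finset T, (∀ t ∈ s, κ t = k) → ∏ t ∈ s, b (κ t) ^ (if ε t then (1 : ℤ) else -1) =
      b k ^ (∑ t ∈ s, (if ε t then (1 : ℤ) else -1)) := by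
    intro s hs
    classical
    induction s using Finset.induction_on with
    | empty => simp
    | insert t s ht ih =>
      rw [Finset.prod_insert ht, Finset.sum_insert ht, zpow_add₀ (hb k), ih fun t' ht' => hs t' (Finset.mem_insert_of_mem ht'),
        hs t (Finset.mem_insert_self _ _)]
  rw [h1 _ fun t ht => (Finset.mem_filter.1 ht).2]
  congr 1
  have h2 : ∀ t, (if ε t then (1 : ℤ) else -1) = (if ε t = true then 1 else 0) - (if ε t = false then 1 else 0) := by
    intro t
    cases ε t <;> simp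
  rw [Finset.sum_congr rfl fun t _ => h2 t, Finset.sum_sub_distrib, Finset.sum_boole, Finset.sum_boole,
    Finset.filter_filter, Finset.filter_filter]

/-- Balanced families of values. -/
theorem bal_line {T J : Type} [Fintype T] [Fintype J] [DecidableEq J] {Q : ℕ} (hQ : 0 < Q) (ε : T → Bool) (κ : T → J)
    (v : J → ℂ) (hv : ∀ k, v k ≠ 0) (z : T → ℂ) (hz : ∀ t, z t = if ε t then v (κ t) else (Q : ℂ) / v (κ t))
    (hc : ∀ k, (Finset.univ.filter fun t => κ t = k ∧ ε t = true).card =
      (Finset.univ.filter fun t => κ t = k ∧ ε t = false).card) : Bal Q z := by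
  classical
  have hQC : (Q : ℂ) ≠ 0 := Nat.cast_ne_zero.2 hQ.ne'
  have hcard : ∀ c : ℂ, Nat.card {t // z t = c} =
      ∑ k : J, ((if v k = c then (Finset.univ.filter fun t => κ t = k ∧ ε t = true).card else 0) +
        (if (Q : ℂ) / v k = c then (Finset.univ.filter fun t => κ t = k ∧ ε t = false).card else 0)) := by
    intro c
    rw [Nat.card_eq_fintype_card, Fintype.card_subtype,
      Finset.card_eq_sum_card_fiberwise (f := κ) (t := Finset.univ) (fun t _ => Finset.mem_coe.2 (Finset.mem_univ _))]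
    refine Finset.sum_congr rfl fun k _ => ?_
    rw [← Finset.card_filter_add_card_filter_not (s := (Finset.univ.filter fun t => z t = c).filter fun t => κ t = k)
      (fun t => ε t = true), Finset.filter_filter, Finset.filter_filter, Finset.filter_filter, Finset.filter_filter]
    congr 1
    · split_ifs with h
      · congr 1
        ext t
        simp only [Finset.mem_filter, Finset.mem_univ, true_and]
        constructor
        · exact fun h1 => ⟨h1.2.1, h1.2.2⟩
        · rintro ⟨h1, h2⟩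
          refine ⟨?_, h1, h2⟩
          rw [hz, if_pos h2, h1, h]
      · rw [Finset.card_eq_zero, Finset.filter_eq_empty_iff]
        rintro t - ⟨h1, h2, h3⟩
        rw [hz, if_pos h3, h2] at h1
        exact h h1
    · split_ifs with h
      · congr 1
        ext t
        simp only [Finset.mem_filter, Finset.mem_univ, true_and, Bool.not_eq_true]
        constructor
        · exact fun h1 => ⟨h1.2.1, h1.2.2⟩
        · rintro ⟨h1, h2⟩
          refine ⟨?_, h1, h2⟩
          rw [hz, h2, if_neg (by decide), h1, h]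
      · rw [Finset.card_eq_zero, Finset.filter_eq_empty_iff]
        rintro t - ⟨h1, h2, h3⟩
        rw [Bool.not_eq_true] at h3
        rw [hz, h3, if_neg (by decide), h2] at h1
        exact h h1
  intro c
  rw [hcard, hcard]
  rcases eq_or_ne c 0 with rfl | hc0
  · refine Finset.sum_congr rfl fun k _ => ?_
    rw [div_zero]
  · refine Finset.sum_congr rfl fun k _ => ?_
    have e1 : v k = (Q : ℂ) / c ↔ (Q : ℂ) / v k = c := by
      rw [eq_div_iff hc0, div_eq_iff (hv k), mul_comm]
      exact ⟨fun h => h.symm, fun h => h.symm⟩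
    have e2 : (Q : ℂ) / v k = (Q : ℂ) / c ↔ v k = c := by
      rw [div_eq_div_iff (hv k) hc0]
      exact ⟨fun h => (mul_left_cancel₀ hQC h).symm, fun h => by rw [h]⟩
    simp only [e1, e2, hc k]
    exact add_comm _ _

end TSP
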