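import Pool.Agent.Lib.MP_021685_agSP.SP4
import Pool.Agent.Lib.MP_021685_agTAL.AD

/-! Numbers all whose conjugates are products of roots of a polynomial of small degree, of small rank, or with a splitting field
which does not contain the field. -/

set_option autoImplicit false

attribute [-instance] Pool.Agent.Lib.MP_802513_ag.W.fintypeEmb

namespace TSP

open Polynomial Module NumberField

section

variable {E : Type} [Field E] [NumberField E] [NumberField.IsCMField E]

theorem conj_ne' (φ : E →+* ℂ) : (starRingEnd ℂ).comp φ ≠ φ := by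
  intro h
  have h2 := NumberField.IsTotallyComplex.isComplex (K := E) (NumberField.InfinitePlace.mk φ)
  rw [NumberField.InfinitePlace.isComplex_mk_iff] at h2
  exact h2 h

theorem card_places {g : ℕ} (hg : finrank ℚ E = 2 * g) : Fintype.card (InfinitePlace E) = g := by
  have h1 := NumberField.InfinitePlace.card_add_two_mul_card_eq_rank (K := E)
  have h2 := NumberField.InfinitePlace.card_eq_nrRealPlaces_add_nrComplexPlaces (K := E)
  have h3 : NumberField.InfinitePlace.nrRealPlaces E = 0 := NumberField.IsTotallyComplex.nrRealPlaces_eq_zero (K := E)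
  omega

/-- A relation between the values at the infinite places. -/
theorem torsion_of_places (hsep : Sep1 E) {δ : E} (hδ : ∀ φ : E →+* ℂ, φ δ * starRingEnd ℂ (φ δ) = 1)
    (m : InfinitePlace E → ℤ) (w₀ : InfinitePlace E) (hm : m w₀ ≠ 0)
    (hrel : ∏ w : InfinitePlace E, (w.embedding δ) ^ m w = 1) : ∃ N : ℕ, 0 < N ∧ δ ^ N = 1 := by
  classical
  let n : (E →+* ℂ) → ℤ := fun x => if (InfinitePlace.mk x).embedding = x then m (InfinitePlace.mk x) else 0
  refine torsion_of_dep hsep hδ n w₀.embedding (conj_ne' _) ?_ ?_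
  · have h1 : n w₀.embedding = m w₀ := by
      simp only [n, InfinitePlace.mk_embedding, if_true]
    have h2 : n ((starRingEnd ℂ).comp w₀.embedding) = 0 := by
      have h3 : InfinitePlace.mk ((starRingEnd ℂ).comp w₀.embedding) = w₀ := by
        have h4 := InfinitePlace.mk_conjugate_eq w₀.embedding
        rw [InfinitePlace.mk_embedding] at h4
        exact h4
      simp only [n]
      rw [h3, if_neg]
      exact fun h => conj_ne' w₀.embedding h.symm
    rw [h1, h2]
    exact hm
  · have hinj : Function.Injective (fun w : InfinitePlace E => w.embedding) := InfinitePlace.embedding_injective E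
    rw [← hrel]
    have h1 : ∏ w : InfinitePlace E, (w.embedding δ) ^ m w =
        ∏ x ∈ Finset.univ.image (fun w : InfinitePlace E => w.embedding), (x δ) ^ n x := by
      rw [Finset.prod_image fun w _ w' _ h => hinj h]
      refine Finset.prod_congr rfl fun w _ => ?_
      simp only [n, InfinitePlace.mk_embedding, if_true]
    rw [h1]
    symm
    refine Finset.prod_subset (Finset.subset_univ _) fun x _ hx => ?_
    have h2 : n x = 0 := by
      simp only [n]
      rw [if_neg]
      intro h
      exact hx (Finset.mem_image.2 ⟨InfinitePlace.mk x, Finset.mem_univ _, h⟩)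
    rw [h2, zpow_zero]

/-- A relation up to powers of `Q`. -/
theorem torsion_of_rank (hsep : Sep1 E) {δ : E} (hδ : ∀ φ : E →+* ℂ, φ δ * starRingEnd ℂ (φ δ) = 1) {Q : ℕ}
    (m : InfinitePlace E → ℤ) (w₀ : InfinitePlace E) (hm : m w₀ ≠ 0) (b : ℤ) (hQ : 0 < Q)
    (hrel : ∏ w : InfinitePlace E, (w.embedding δ) ^ m w = (Q : ℂ) ^ b) : ∃ N : ℕ, 0 < N ∧ δ ^ N = 1 := by
  have hQC : (Q : ℂ) ≠ 0 := Nat.cast_ne_zero.2 hQ.ne'
  have h0 : ∀ φ : E →+* ℂ, φ δ ≠ 0 := fun φ h => by
    have h1 := hδ φ
    rw [h, zero_mul] at h1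
    exact zero_ne_one h1
  have h1 : ∏ w : InfinitePlace E, (starRingEnd ℂ (w.embedding δ)) ^ m w = (Q : ℂ) ^ b := by
    have h2 := congrArg (starRingEnd ℂ) hrel
    rw [map_prod, map_zpow₀, map_natCast] at h2
    rw [← h2]
    exact Finset.prod_congr rfl fun w _ => (map_zpow₀ _ _ _).symm
  have h2 : (Q : ℂ) ^ b * (Q : ℂ) ^ b = 1 := by
    nth_rewrite 1 [← hrel]
    rw [← h1, ← Finset.prod_mul_distrib]
    refine Finset.prod_eq_one fun w _ => ?_
    rw [← mul_zpow, hδ, one_zpow]
  refine torsion_of_places hsep hδ (fun w => 2 * m w) w₀ (mul_ne_zero two_ne_zero hm) ?_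
  have h3 : ∀ w : InfinitePlace E, (w.embedding δ) ^ (2 * m w) = (w.embedding δ) ^ m w * (w.embedding δ) ^ m w := by
    intro w
    rw [two_mul, zpow_add₀ (h0 _)]
  rw [Finset.prod_congr rfl fun w _ => h3 w, Finset.prod_mul_distrib, hrel, h2]

end

/-- The quotient of a product of roots of a rational polynomial and of its complex conjugate is a product of the quotients for the
roots in the upper half plane. -/
theorem div_conj_mem (f : ℚ[X]) (hf : f ≠ 0) (z : ℂ) (hz : z ∈ Submonoid.closure {z : ℂ | z ≠ 0 ∧ aeval z f = 0}) :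
    ∃ c : ℂ → ℤ, z / starRingEnd ℂ z =
      ∏ ρ ∈ (f.aroots ℂ).toFinset.filter (fun ρ => 0 < ρ.im), (ρ / starRingEnd ℂ ρ) ^ c ρ := by
  classical
  have hroot : ∀ ρ : ℂ, ρ ∈ (f.aroots ℂ).toFinset ↔ aeval ρ f = 0 := by
    intro ρ
    rw [Multiset.mem_toFinset, mem_aroots]
    exact ⟨fun h => h.2, fun h => ⟨hf, h⟩⟩
  have hconj : ∀ ρ : ℂ, aeval ρ f = 0 → aeval (starRingEnd ℂ ρ) f = 0 := by
    intro ρ h
    have h1 : aeval ((starRingEnd ℂ).toRatAlgHom ρ) f = (starRingEnd ℂ).toRatAlgHom (aeval ρ f) := aeval_algHom_apply _ _ _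
    rw [h, map_zero] at h1
    exact h1
  set U := (f.aroots ℂ).toFinset.filter (fun ρ => 0 < ρ.im) with hU
  have hne : ∀ ρ ∈ U, ρ / starRingEnd ℂ ρ ≠ 0 := by
    intro ρ hρ
    have h1 : ρ ≠ 0 := by
      rintro rfl
      exact lt_irrefl _ (Finset.mem_filter.1 hρ).2
    exact div_ne_zero h1 ((_root_.map_ne_zero _).2 h1)
  have hsingle : ∀ ρ ∈ U, ∀ k : ℤ, (ρ / starRingEnd ℂ ρ) ^ k = ∏ σ ∈ U, (σ / starRingEnd ℂ σ) ^ (if σ = ρ then k else 0) := by
    intro ρ hρ k
    rw [Finset.prod_eq_single ρ]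
    · rw [if_pos rfl]
    · intro σ _ hσ
      rw [if_neg hσ, zpow_zero]
    · exact fun h => absurd hρ h
  induction hz using Submonoid.closure_induction with
  | mem x hx =>
    obtain ⟨hx0, hx⟩ := hx
    rcases lt_trichotomy x.im 0 with h | h | h
    · have h1 : starRingEnd ℂ x ∈ U := by
        refine Finset.mem_filter.2 ⟨(hroot _).2 (hconj x hx), ?_⟩
        rw [Complex.conj_im]
        linarith
      refine ⟨fun σ => if σ = starRingEnd ℂ x then -1 else 0, ?_⟩
      rw [← hsingle _ h1, zpow_neg_one, Complex.conj_conj, inv_div]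
    · refine ⟨fun _ => 0, ?_⟩
      have h1 : starRingEnd ℂ x = x := Complex.conj_eq_iff_im.2 h
      rw [h1, div_self hx0]
      simp
    · have h1 : x ∈ U := Finset.mem_filter.2 ⟨(hroot _).2 hx, h⟩
      refine ⟨fun σ => if σ = x then 1 else 0, ?_⟩
      rw [← hsingle _ h1, zpow_one]
  | one => exact ⟨fun _ => 0, by simp⟩
  | mul x y _ _ hx hy =>
    obtain ⟨c, hc⟩ := hx
    obtain ⟨d, hd⟩ := hy
    refine ⟨fun σ => c σ + d σ, ?_⟩
    rw [map_mul, mul_div_mul_comm, hc, hd, ← Finset.prod_mul_distrib]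
    exact Finset.prod_congr rfl fun σ hσ => (zpow_add₀ (hne σ hσ) _ _).symm

/-- A rational polynomial of degree less than `2 g` has less than `g` roots in the upper half plane. -/
theorem card_upper (f : ℚ[X]) (hf : f ≠ 0) {g : ℕ} (hg : f.natDegree < 2 * g) :
    ((f.aroots ℂ).toFinset.filter (fun ρ => 0 < ρ.im)).card < g := by
  classical
  have hconj : ∀ ρ : ℂ, aeval ρ f = 0 → aeval (starRingEnd ℂ ρ) f = 0 := by
    intro ρ h
    have h1 : aeval ((starRingEnd ℂ).toRatAlgHom ρ) f = (starRingEnd ℂ).toRatAlgHom (aeval ρ f) := aeval_algHom_apply _ _ _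
    rw [h, map_zero] at h1
    exact h1
  set U := (f.aroots ℂ).toFinset.filter (fun ρ => 0 < ρ.im) with hU
  set L := (f.aroots ℂ).toFinset.filter (fun ρ => ρ.im < 0) with hL
  have h1 : L = U.image (starRingEnd ℂ) := by
    ext ρ
    simp only [hU, hL, Finset.mem_filter, Finset.mem_image, Multiset.mem_toFinset, mem_aroots]
    constructor
    · rintro ⟨⟨h2, h3⟩, h4⟩
      refine ⟨starRingEnd ℂ ρ, ⟨⟨h2, hconj ρ h3⟩, ?_⟩, Complex.conj_conj ρ⟩
      rw [Complex.conj_im]
      linarith
    · rintro ⟨σ, ⟨⟨h2, h3⟩, h4⟩, rfl⟩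
      refine ⟨⟨h2, hconj σ h3⟩, ?_⟩
      rw [Complex.conj_im]
      linarith
  have h2 : L.card = U.card := by
    rw [h1]
    exact Finset.card_image_of_injective _ (starRingEnd ℂ).injective
  have h3 : U.card + L.card ≤ f.natDegree := by
    rw [← Finset.card_union_of_disjoint]
    · calc (U ∪ L).card ≤ (f.aroots ℂ).toFinset.card := by
            refine Finset.card_le_card ?_
            exact Finset.union_subset (Finset.filter_subset _ _) (Finset.filter_subset _ _)
        _ ≤ Multiset.card (f.aroots ℂ) := Multiset.toFinset_card_le _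
        _ ≤ (f.map (algebraMap ℚ ℂ)).natDegree := card_roots' _
        _ ≤ f.natDegree := natDegree_map_le
    · rw [Finset.disjoint_left]
      intro ρ h4 h5
      exact lt_asymm (Finset.mem_filter.1 h4).2 (Finset.mem_filter.1 h5).2
  omega

/-- Integral relations. -/
theorem exists_int_rel {I U : Type} [Fintype I] [Fintype U] (h : Fintype.card U < Fintype.card I) (A : I → U → ℤ) :
    ∃ m : I → ℤ, m ≠ 0 ∧ ∀ u, ∑ i, m i * A i u = 0 := by
  classical
  let F : (I → ℤ) →ₗ[ℤ] (U → ℤ) :=
    { toFun := fun m u => ∑ i, m i * A i u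
      map_add' := fun m m' => by
        funext u
        simp only [Pi.add_apply, add_mul, Finset.sum_add_distrib]
      map_smul' := fun c m => by
        funext u
        simp only [Pi.smul_apply, smul_eq_mul, RingHom.id_apply, Finset.mul_sum, mul_assoc] }
  by_contra hcon
  push Not at hcon
  have hinj : Function.Injective F := by
    rw [injective_iff_map_eq_zero]
    intro m hm
    by_contra hne
    obtain ⟨u, hu⟩ := hcon m hne
    exact hu (congrFun hm u)
  have h1 := LinearMap.finrank_le_finrank_of_injective hinj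
  rw [Module.finrank_fintype_fun_eq_card, Module.finrank_fintype_fun_eq_card] at h1
  omega

/-- An automorphism which fixes a field and moves a number outside of it. -/
theorem exists_move (M : IntermediateField ℚ ℂ) [Algebra.IsAlgebraic ℚ M] (z : ℂ) (hz : IsIntegral ℚ z) (hzM : z ∉ M) :
    ∃ σ : ℂ ≃+* ℂ, σ z ≠ z ∧ ∀ x ∈ M, σ x = x := by
  have hint : IsIntegral M z := hz.tower_top
  have hsep : (minpoly M z).Separable := (minpoly.irreducible hint).separable
  have hex : ∃ z' : ℂ, z' ≠ z ∧ aeval z' (minpoly M z) = 0 := by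
    by_contra hcon
    push Not at hcon
    have h1 : ∀ z' : ℂ, aeval z' (minpoly M z) = 0 → z' = z := by
      intro z' hz'
      by_contra hne
      exact hcon z' hne hz'
    have h2 : Fintype.card ((minpoly M z).rootSet ℂ) = (minpoly M z).natDegree :=
      card_rootSet_eq_natDegree hsep (IsAlgClosed.splits _)
    have h3 : Fintype.card ((minpoly M z).rootSet ℂ) ≤ 1 := by
      refine Fintype.card_le_one_iff.2 fun x y => Subtype.ext ?_
      rw [h1 x.1 ((mem_rootSet.1 x.2).2), h1 y.1 ((mem_rootSet.1 y.2).2)]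
    have h4 : (minpoly M z).natDegree = 1 := le_antisymm (h2 ▸ h3) (minpoly.natDegree_pos hint)
    obtain ⟨x, hx⟩ := (minpoly.natDegree_eq_one_iff).1 h4
    exact hzM (by rw [← hx]; exact x.2)
  obtain ⟨z', hz', hz0⟩ := hex
  obtain ⟨σ, hσ, hfix⟩ := HI.exists_aut_of_root M z z' hint hz0
  exact ⟨σ, by rw [hσ]; exact hz', hfix⟩

end TSP
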