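import Mathlib

/-! Definitions used in the statements of `MP_021685_ag.AlmostAll` and `MP_021685_ag.AlmostAllLifts`: separated fields. -/

set_option autoImplicit false

namespace TSP

/-- **Separated families of fields**: for any two embeddings `x`, `y` in `ℂ` of the fields `E i` (of the same field or of two of
them), such that `y` is different from `x` and from its complex conjugate, there is an automorphism of `ℂ` which changes `x` to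
its complex conjugate and fixes `y`. -/
def Sep {r : ℕ} (E : Fin r → Type) [∀ i, Field (E i)] : Prop :=
  ∀ x y : (Σ i, E i →+* ℂ), y ≠ x → y ≠ ⟨x.1, (starRingEnd ℂ).comp x.2⟩ →
    ∃ τ : ℂ ≃+* ℂ, (τ : ℂ →+* ℂ).comp x.2 = (starRingEnd ℂ).comp x.2 ∧ (τ : ℂ →+* ℂ).comp y.2 = y.2

/-- The same for one field. -/
def Sep1 (E : Type) [Field E] : Prop :=
  ∀ φ ψ : E →+* ℂ, ψ ≠ φ → ψ ≠ (starRingEnd ℂ).comp φ →
    ∃ τ : ℂ ≃+* ℂ, (τ : ℂ →+* ℂ).comp φ = (starRingEnd ℂ).comp φ ∧ (τ : ℂ →+* ℂ).comp ψ = ψ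

theorem Sep.sep1 {r : ℕ} {E : Fin r → Type} [∀ i, Field (E i)] (h : Sep E) (i : Fin r) : Sep1 (E i) := by
  intro φ ψ h1 h2
  exact h ⟨i, φ⟩ ⟨i, ψ⟩ (fun h3 => h1 (eq_of_heq (Sigma.mk.inj h3).2)) (fun h3 => h2 (eq_of_heq (Sigma.mk.inj h3).2))

theorem Sep.cross {r : ℕ} {E : Fin r → Type} [∀ i, Field (E i)] (h : Sep E) {i j : Fin r} (hij : i ≠ j) (φ : E i →+* ℂ)
    (ψ : E j →+* ℂ) :
    ∃ τ : ℂ ≃+* ℂ, (τ : ℂ →+* ℂ).comp φ = (starRingEnd ℂ).comp φ ∧ (τ : ℂ →+* ℂ).comp ψ = ψ :=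
  h ⟨i, φ⟩ ⟨j, ψ⟩ (fun h3 => hij (Sigma.mk.inj h3).1.symm) (fun h3 => hij (Sigma.mk.inj h3).1.symm)

/-- A family is separated if every field is, and any two different members are. -/
theorem sep_of {r : ℕ} {E : Fin r → Type} [∀ i, Field (E i)] (h1 : ∀ i, Sep1 (E i))
    (h2 : ∀ i j, i ≠ j → ∀ (φ : E i →+* ℂ) (ψ : E j →+* ℂ),
      ∃ τ : ℂ ≃+* ℂ, (τ : ℂ →+* ℂ).comp φ = (starRingEnd ℂ).comp φ ∧ (τ : ℂ →+* ℂ).comp ψ = ψ) : Sep E := by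
  rintro ⟨i, φ⟩ ⟨j, ψ⟩ h3 h4
  by_cases hij : i = j
  · subst hij
    exact h1 i φ ψ (fun h => h3 (by rw [h])) (fun h => h4 (by rw [h]))
  · exact h2 i j hij φ ψ

end TSP
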