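import Pool.Agent.Lib.MP_021685_agSP.D0
import Pool.Agent.Lib.MP_021685_agTK.KN
import Pool.Agent.Lib.MP_802513_agHI.H2
import Pool.Agent.Lib.MP_021685_agTAF.F4

/-! Tools: norms, normal number fields in `ℂ`, restriction and extension of automorphisms. -/

set_option autoImplicit false

attribute [-instance] Pool.Agent.Lib.MP_802513_ag.W.fintypeEmb

namespace TSP

open Module Polynomial

/-- The norm from `K` to the subfield `ψ (E)`, with values in `E`. -/
theorem exists_norm {E K : Type} [Field E] [NumberField E] [Field K] [NumberField K] (ψ : E →+* K) :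
    ∃ (m : ℕ) (ν : K →* E), 0 < m ∧ (∀ e, ν (ψ e) = e ^ m) ∧ (∀ u, u ≠ 0 → ν u ≠ 0) ∧
      (∀ (x : E →+* ℂ) (u : K), ∃ (n : ℕ) (σ : Fin n → (K →+* ℂ)), x (ν u) = ∏ j, σ j u) ∧
      ∀ s : K ≃+* K, (s : K →+* K).comp ψ = ψ → ∀ u, ν (s u) = ν u := by
  let _ : Algebra E K := ψ.toAlgebra
  have htow : IsScalarTower ℚ E K := IsScalarTower.of_algebraMap_eq' (Subsingleton.elim _ _)
  have hfd : FiniteDimensional E K := FiniteDimensional.right ℚ E K
  refine ⟨finrank E K, Algebra.norm E, finrank_pos, fun e => Algebra.norm_algebraMap e, fun u hu => ?_, fun x u => ?_,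
    fun s hs u => ?_⟩
  · exact Algebra.norm_ne_zero_iff.2 hu
  · let _ : Algebra E ℂ := x.toAlgebra
    have h1 : algebraMap E ℂ (Algebra.norm E u) = ∏ σ : K →ₐ[E] ℂ, σ u := Algebra.norm_eq_prod_embeddings E ℂ u
    let e := Fintype.equivFin (K →ₐ[E] ℂ)
    refine ⟨Fintype.card (K →ₐ[E] ℂ), fun j => ((e.symm j : K →ₐ[E] ℂ) : K →+* ℂ), ?_⟩
    show algebraMap E ℂ (Algebra.norm E u) = _
    rw [h1, ← Equiv.prod_comp e.symm]
    rfl
  · have h1 : ∀ r : E, s (algebraMap E K r) = algebraMap E K r := fun r => RingHom.congr_fun hs r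
    exact Algebra.norm_eq_of_algEquiv (AlgEquiv.ofRingEquiv (f := s) h1) u

variable {r : ℕ} {E : Fin r → Type} [∀ i, Field (E i)] [∀ i, NumberField (E i)]

/-- A normal number field in `ℂ` which contains all the images of the fields `E i` and given algebraic numbers. -/
theorem exists_K (Y : Finset ℂ) (hY : ∀ y ∈ Y, IsAlgebraic ℚ y) :
    ∃ K : IntermediateField ℚ ℂ, FiniteDimensional ℚ K ∧ Normal ℚ K ∧ (∀ y ∈ Y, y ∈ K) ∧
      ∀ (i : Fin r) (φ : E i →+* ℂ) (e : E i), φ e ∈ K := by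
  classical
  have hprim : ∀ i, ∃ a : E i, IntermediateField.adjoin ℚ {a} = ⊤ := fun i => Field.exists_primitive_element ℚ (E i)
  choose a ha using hprim
  let Z : Finset ℂ := Finset.univ.biUnion fun i : Fin r => Finset.univ.image fun φ : E i →+* ℂ => φ (a i)
  obtain ⟨K, h1, h2, h3⟩ := TK.exists_field (Y ∪ Z) (by
    intro ρ hρ
    rcases Finset.mem_union.1 hρ with h | h
    · exact hY ρ h
    · obtain ⟨i, -, hi⟩ := Finset.mem_biUnion.1 h
      obtain ⟨φ, -, rfl⟩ := Finset.mem_image.1 hi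
      have h1 : IsAlgebraic ℚ (a i) := Algebra.IsAlgebraic.isAlgebraic _
      exact h1.algHom φ.toRatAlgHom)
  refine ⟨K, h1, h2, fun y hy => h3 y (Finset.mem_union_left _ hy), fun i φ e => ?_⟩
  refine TAF.mem_of_adjoin K φ (ha i) (h3 _ (Finset.mem_union_right _ ?_)) e
  exact Finset.mem_biUnion.2 ⟨i, Finset.mem_univ _, Finset.mem_image.2 ⟨φ, Finset.mem_univ _, rfl⟩⟩

/-- The restriction of an automorphism of `ℂ` to a normal field. -/
theorem exists_restrict (K : IntermediateField ℚ ℂ) [Normal ℚ K] (τ : ℂ ≃+* ℂ) :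
    ∃ s : K ≃+* K, ∀ u : K, ((s u : K) : ℂ) = τ (u : ℂ) := by
  let τ' : ℂ ≃ₐ[ℚ] ℂ := AlgEquiv.ofRingEquiv (f := τ) fun r => by
    rw [eq_ratCast, map_ratCast]
  refine ⟨(AlgEquiv.restrictNormal τ' K : K ≃ₐ[ℚ] K).toRingEquiv, fun u => ?_⟩
  exact AlgEquiv.restrictNormal_commutes τ' K u

/-- A number conjugate to `y` is the image of `y` under an automorphism of `ℂ`. -/
theorem exists_aut_of_hom {K : Type} [Field K] [NumberField K] (φ σ : K →+* ℂ) (u : K) : ∃ τ : ℂ ≃+* ℂ, τ (φ u) = σ u := by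
  have h1 : Algebra.IsAlgebraic ℚ (⊥ : IntermediateField ℚ ℂ) := inferInstance
  have h2 : IsIntegral (⊥ : IntermediateField ℚ ℂ) (φ u) := by
    have h3 : IsIntegral ℚ (φ u) := (Algebra.IsIntegral.isIntegral (R := ℚ) u).map φ.toRatAlgHom
    exact h3.tower_top
  have h4 : IsIntegral ℚ (φ u) := (Algebra.IsIntegral.isIntegral (R := ℚ) u).map φ.toRatAlgHom
  have h5 : Irreducible ((minpoly ℚ (φ u)).map (algebraMap ℚ (⊥ : IntermediateField ℚ ℂ))) := by
    have h6 := (MulEquiv.irreducible_iff (Polynomial.mapEquiv (IntermediateField.botEquiv ℚ ℂ).symm.toRingEquiv)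
      (x := minpoly ℚ (φ u))).2 (minpoly.irreducible h4)
    have h7 : (algebraMap ℚ (⊥ : IntermediateField ℚ ℂ)) =
        ((IntermediateField.botEquiv ℚ ℂ).symm.toRingEquiv : ℚ →+* (⊥ : IntermediateField ℚ ℂ)) :=
      Subsingleton.elim _ _
    rw [h7]
    exact h6
  have h6 : (minpoly ℚ (φ u)).map (algebraMap ℚ (⊥ : IntermediateField ℚ ℂ)) = minpoly (⊥ : IntermediateField ℚ ℂ) (φ u) := by
    refine minpoly.eq_of_irreducible_of_monic h5 ?_ ((minpoly.monic h4).map _)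
    rw [aeval_map_algebraMap]
    exact minpoly.aeval ℚ (φ u)
  obtain ⟨τ, h3, -⟩ := HI.exists_aut_of_root (⊥ : IntermediateField ℚ ℂ) (φ u) (σ u) h2 (by
    rw [← h6, aeval_map_algebraMap]
    have h8 : minpoly ℚ (φ u) = minpoly ℚ u := minpoly.algHom_eq φ.toRatAlgHom φ.injective u
    rw [h8]
    have h9 : aeval (σ.toRatAlgHom u) (minpoly ℚ u) = σ.toRatAlgHom (aeval u (minpoly ℚ u)) := aeval_algHom_apply _ _ _
    rw [minpoly.aeval, map_zero] at h9
    exact h9)
  exact ⟨τ, h3⟩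

end TSP
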