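import Pool.Agent.Lib.MP_021685_agSP.SP2

/-! Multiplicative relations between the conjugates of one number of absolute value one, in a separated field. -/

set_option autoImplicit false

attribute [-instance] Pool.Agent.Lib.MP_802513_ag.W.fintypeEmb

namespace TSP

open Polynomial

/-- If the conjugates of `δ`, of absolute value one, satisfy a multiplicative relation which does not follow from the pairs, then
`δ` is a root of unity. -/
theorem torsion_of_dep {E : Type} [Field E] [NumberField E] (hsep : Sep1 E) {δ : E}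
    (hδ : ∀ φ : E →+* ℂ, φ δ * starRingEnd ℂ (φ δ) = 1) (n : (E →+* ℂ) → ℤ) (x₀ : E →+* ℂ)
    (hc : (starRingEnd ℂ).comp x₀ ≠ x₀)
    (hn : n x₀ ≠ n ((starRingEnd ℂ).comp x₀)) (hrel : ∏ x : E →+* ℂ, (x δ) ^ n x = 1) : ∃ N : ℕ, 0 < N ∧ δ ^ N = 1 := by
  classical
  obtain ⟨K, hfd, hnor, -, hEK⟩ := exists_K (r := 1) (E := fun _ => E) ∅ (by simp)
  have hNF : NumberField K := numberField_of K hfd
  have hEK' : ∀ (φ : E →+* ℂ) (e : E), φ e ∈ K := fun φ e => hEK 0 φ e
  let im : (E →+* ℂ) → (E →+* K) := fun φ => φ.codRestrict K fun c => hEK' φ c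
  have him : ∀ φ c, ((im φ c : K) : ℂ) = φ c := fun φ c => rfl
  obtain ⟨m, ν, hm, hν1, hν0, -, hν3⟩ := exists_norm (im x₀)
  obtain ⟨φ₀⟩ : Nonempty (E →+* ℂ) := ⟨x₀⟩
  have hδ0 : δ ≠ 0 := by
    rintro rfl
    have h1 := hδ x₀
    rw [map_zero, zero_mul] at h1
    exact zero_ne_one h1
  have himc : ∀ φ : E →+* ℂ, im φ δ * im ((starRingEnd ℂ).comp φ) δ = 1 := by
    intro φ
    apply (algebraMap K ℂ).injective
    rw [map_mul, map_one]
    exact hδ φ
  -- the norms
  have h1 : ∀ x : E →+* ℂ, x ≠ x₀ → x ≠ (starRingEnd ℂ).comp x₀ → ν (im x δ) ^ 2 = 1 := by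
    intro x hx hx'
    have hne : x₀ ≠ (starRingEnd ℂ).comp x := by
      rintro h
      apply hx'
      refine RingHom.ext fun c => ?_
      have h2 := RingHom.congr_fun h c
      show x c = starRingEnd ℂ (x₀ c)
      rw [h2]
      exact (Complex.conj_conj (x c)).symm
    obtain ⟨τ, h2, h3⟩ := hsep x x₀ hx.symm hne
    obtain ⟨s, hs⟩ := exists_restrict K τ
    have h4 : (s : K →+* K).comp (im x₀) = im x₀ := by
      refine RingHom.ext fun c => Subtype.ext ?_
      show ((s (im x₀ c) : K) : ℂ) = _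
      rw [hs]
      exact RingHom.congr_fun h3 c
    have h5 : im x δ * s (im x δ) = 1 := by
      have h6 : s (im x δ) = im ((starRingEnd ℂ).comp x) δ := by
        refine Subtype.ext ?_
        rw [hs]
        exact RingHom.congr_fun h2 δ
      rw [h6]
      exact himc x
    have h7 := congrArg ν h5
    rw [map_mul, hν3 s h4, map_one, ← pow_two] at h7
    exact h7
  have h2 : ν (im x₀ δ) = δ ^ m := hν1 δ
  have h3 : ν (im ((starRingEnd ℂ).comp x₀) δ) = (δ ^ m)⁻¹ := by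
    have h4 := congrArg ν (himc x₀)
    rw [map_mul, map_one, h2] at h4
    exact (eq_inv_of_mul_eq_one_right h4)
  -- the relation
  have hrelK : ∏ x : E →+* ℂ, (im x δ) ^ n x = 1 := by
    apply (algebraMap K ℂ).injective
    rw [map_prod, map_one, ← hrel]
    refine Finset.prod_congr rfl fun x _ => ?_
    rw [map_zpow₀]
    rfl
  have hν : ∀ (u : K) (k : ℤ), u ≠ 0 → ν (u ^ k) = ν u ^ k := by
    intro u k hu
    have hinv : ∀ v : K, v ≠ 0 → ν v⁻¹ = (ν v)⁻¹ := by
      intro v hv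
      refine eq_inv_of_mul_eq_one_left ?_
      rw [← map_mul, inv_mul_cancel₀ hv, map_one]
    obtain ⟨l, rfl | rfl⟩ := k.eq_nat_or_neg
    · rw [zpow_natCast, zpow_natCast, map_pow]
    · rw [zpow_neg, zpow_natCast, hinv _ (pow_ne_zero _ hu), map_pow, zpow_neg, zpow_natCast]
  have himn : ∀ x : E →+* ℂ, im x δ ≠ 0 := fun x h => by
    have h4 := himc x
    rw [h, zero_mul] at h4
    exact zero_ne_one h4
  have hN := congrArg ν hrelK
  rw [map_prod, map_one] at hN
  have hN2 : ∏ x : E →+* ℂ, (ν (im x δ) ^ 2) ^ n x = 1 := by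
    have h4 : ∀ x : E →+* ℂ, (ν (im x δ) ^ 2) ^ n x = (ν ((im x δ) ^ n x)) ^ 2 := by
      intro x
      rw [hν _ _ (himn x), ← zpow_natCast, ← zpow_natCast, ← zpow_mul, ← zpow_mul, mul_comm]
    rw [Finset.prod_congr rfl fun x _ => h4 x, Finset.prod_pow, hN, one_pow]
  have hsum : ∏ x : E →+* ℂ, (ν (im x δ) ^ 2) ^ n x =
      (ν (im x₀ δ) ^ 2) ^ n x₀ * (ν (im ((starRingEnd ℂ).comp x₀) δ) ^ 2) ^ n ((starRingEnd ℂ).comp x₀) := by
    rw [← Finset.prod_pair hc.symm (f := fun x : E →+* ℂ => (ν (im x δ) ^ 2) ^ n x)]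
    symm
    refine Finset.prod_subset (Finset.subset_univ _) fun x _ hx => ?_
    rw [Finset.mem_insert, Finset.mem_singleton, not_or] at hx
    rw [h1 x hx.1 hx.2, one_zpow]
  rw [hsum, h2, h3] at hN2
  have hδm : (δ ^ m) ^ 2 ≠ 0 := pow_ne_zero _ (pow_ne_zero _ hδ0)
  have hfin : ((δ ^ m) ^ 2) ^ (n x₀ - n ((starRingEnd ℂ).comp x₀)) = 1 := by
    rw [zpow_sub₀ hδm, div_eq_mul_inv]
    rw [inv_pow, inv_zpow] at hN2
    exact hN2
  set k : ℤ := n x₀ - n ((starRingEnd ℂ).comp x₀) with hk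
  have hk0 : k ≠ 0 := sub_ne_zero.2 hn
  have hfin' : ((δ ^ m) ^ 2) ^ k.natAbs = 1 := by
    rcases Int.natAbs_eq k with h | h
    · rw [h, zpow_natCast] at hfin
      exact hfin
    · rw [h, zpow_neg, zpow_natCast, inv_eq_one] at hfin
      exact hfin
  refine ⟨m * 2 * k.natAbs, Nat.mul_pos (Nat.mul_pos hm two_pos) (Int.natAbs_pos.2 hk0), ?_⟩
  rw [pow_mul, pow_mul]
  exact hfin'

end TSP
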