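import Pool.Agent.Lib.MP_021685_agSP.SP5
import Pool.Agent.Lib.MP_021685_agTAW.W1

/-! Numbers of absolute value one of a separated field which are small are roots of unity. -/

set_option autoImplicit false

attribute [-instance] Pool.Agent.Lib.MP_802513_ag.W.fintypeEmb

namespace TSP

open Polynomial Module NumberField

section

variable {E : Type} [Field E] [NumberField E] [NumberField.IsCMField E]

/-- The quotient of `γ` and its complex conjugate. -/
noncomputable def unit (γ : E) : E := γ / NumberField.IsCMField.complexConj E γ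

theorem unit_emb (γ : E) (φ : E →+* ℂ) : φ (unit γ) = φ γ / starRingEnd ℂ (φ γ) := by
  unfold unit
  rw [map_div₀, NumberField.IsCMField.complexEmbedding_complexConj]

theorem unit_abs {γ : E} (hγ : γ ≠ 0) (φ : E →+* ℂ) : φ (unit γ) * starRingEnd ℂ (φ (unit γ)) = 1 := by
  have h1 : φ γ ≠ 0 := (_root_.map_ne_zero φ).2 hγ
  have h2 : starRingEnd ℂ (φ γ) ≠ 0 := (_root_.map_ne_zero _).2 h1
  rw [unit_emb, map_div₀, Complex.conj_conj]
  field_simp

theorem unit_mul (γ γ' : E) : unit (γ * γ') = unit γ * unit γ' := by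
  unfold unit
  rw [map_mul, mul_div_mul_comm]

theorem unit_one : unit (1 : E) = 1 := by
  unfold unit
  rw [map_one, div_one]

theorem unit_pow (γ : E) (n : ℕ) : unit (γ ^ n) = unit γ ^ n := by
  induction n with
  | zero => rw [pow_zero, pow_zero, unit_one]
  | succ n ih => rw [pow_succ, unit_mul, ih, pow_succ]

theorem unit_of_abs {β : E} (hβ : ∀ φ : E →+* ℂ, φ β * starRingEnd ℂ (φ β) = 1) : unit β = β ^ 2 := by
  obtain ⟨φ⟩ : Nonempty (E →+* ℂ) := inferInstance
  apply φ.injective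
  have h1 := hβ φ
  have h2 : starRingEnd ℂ (φ β) ≠ 0 := right_ne_zero_of_mul (by rw [h1]; exact one_ne_zero)
  rw [unit_emb, map_pow, div_eq_iff h2, pow_two, mul_assoc, h1, mul_one]

/-- Case of small degree. -/
theorem torsion_degree (hsep : Sep1 E) {g : ℕ} (hg : finrank ℚ E = 2 * g) {γ : E} (hγ : γ ≠ 0) (f : ℚ[X]) (hf : f ≠ 0)
    (hmem : ∀ x : E →+* ℂ, x γ ∈ Submonoid.closure {z : ℂ | z ≠ 0 ∧ aeval z f = 0}) (hdeg : f.natDegree < 2 * g) :
    ∃ N : ℕ, 0 < N ∧ unit γ ^ N = 1 := by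
  classical
  choose c hc using fun w : InfinitePlace E => div_conj_mem f hf (w.embedding γ) (hmem _)
  set U := (f.aroots ℂ).toFinset.filter (fun ρ => 0 < ρ.im) with hU
  have hne : ∀ ρ ∈ U, ρ / starRingEnd ℂ ρ ≠ 0 := by
    intro ρ hρ
    have h1 : ρ ≠ 0 := by
      rintro rfl
      exact lt_irrefl _ (Finset.mem_filter.1 hρ).2
    exact div_ne_zero h1 ((_root_.map_ne_zero _).2 h1)
  obtain ⟨m, hm, hrel⟩ := exists_int_rel (I := InfinitePlace E) (U := U) (by
    rw [Fintype.card_coe, card_places hg]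
    exact card_upper f hf hdeg) fun w ρ => c w ρ.1
  obtain ⟨w₀, hw₀⟩ := Function.ne_iff.1 hm
  refine torsion_of_places hsep (fun φ => unit_abs hγ φ) m w₀ hw₀ ?_
  have h1 : ∀ w : InfinitePlace E, (w.embedding (unit γ)) ^ m w = ∏ ρ ∈ U, (ρ / starRingEnd ℂ ρ) ^ (m w * c w ρ) := by
    intro w
    rw [unit_emb, hc w, ← Finset.prod_zpow]
    refine Finset.prod_congr rfl fun ρ _ => ?_
    rw [← zpow_mul, mul_comm]
  rw [Finset.prod_congr rfl fun w _ => h1 w, Finset.prod_comm]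
  refine Finset.prod_eq_one fun ρ hρ => ?_
  have h2 : ∏ w : InfinitePlace E, (ρ / starRingEnd ℂ ρ) ^ (m w * c w ρ) =
      (ρ / starRingEnd ℂ ρ) ^ (∑ w : InfinitePlace E, m w * c w ρ) := by
    have h3 : ∀ s : Finset (InfinitePlace E), ∏ w ∈ s, (ρ / starRingEnd ℂ ρ) ^ (m w * c w ρ) =
        (ρ / starRingEnd ℂ ρ) ^ (∑ w ∈ s, m w * c w ρ) := by
      intro s
      induction s using Finset.induction_on with
      | empty => simp
      | insert w s hw ih => rw [Finset.prod_insert hw, Finset.sum_insert hw, zpow_add₀ (hne ρ hρ), ih]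
    exact h3 _
  rw [h2, hrel ⟨ρ, hρ⟩, zpow_zero]

/-- Case of small rank. -/
theorem torsion_rank (hsep : Sep1 E) {g Q : ℕ} (hQ : 0 < Q) (hg : finrank ℚ E = 2 * g) {γ : E} (hγ : γ ≠ 0) (f : ℚ[X])
    (hmem : ∀ x : E →+* ℂ, x γ ∈ Submonoid.closure {z : ℂ | z ≠ 0 ∧ aeval z f = 0}) (hrank : TAR.RankLT Q g f) :
    ∃ N : ℕ, 0 < N ∧ unit γ ^ N = 1 := by
  classical
  let e : Fin g ≃ InfinitePlace E := (Fintype.equivFinOfCardEq (card_places hg)).symm
  have hinv : ∀ z ∈ Submonoid.closure {z : ℂ | z ≠ 0 ∧ aeval z f = 0},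
      z⁻¹ ∈ Submonoid.closure {z : ℂ | z ≠ 0 ∧ (aeval z f = 0 ∨ aeval z⁻¹ f = 0)} := by
    intro z hz
    induction hz using Submonoid.closure_induction with
    | mem x hx => exact Submonoid.subset_closure ⟨inv_ne_zero hx.1, Or.inr (by rw [inv_inv]; exact hx.2)⟩
    | one => rw [inv_one]; exact one_mem _
    | mul x y _ _ hx hy => rw [mul_inv]; exact mul_mem hx hy
  have hle : Submonoid.closure {z : ℂ | z ≠ 0 ∧ aeval z f = 0} ≤
      Submonoid.closure {z : ℂ | z ≠ 0 ∧ (aeval z f = 0 ∨ aeval z⁻¹ f = 0)} :=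
    Submonoid.closure_mono fun z hz => ⟨hz.1, Or.inl hz.2⟩
  obtain ⟨m, b, hm, hrel⟩ := hrank (fun j => (e j).embedding (unit γ)) fun j => by
    rw [unit_emb, div_eq_mul_inv]
    exact mul_mem (hle (hmem _)) (hinv _ (hmem ((starRingEnd ℂ).comp (e j).embedding)))
  obtain ⟨j₀, hj₀⟩ := Function.ne_iff.1 hm
  refine torsion_of_rank hsep (fun φ => unit_abs hγ φ) (fun w => m (e.symm w)) (e j₀) ?_ b hQ ?_
  · show m (e.symm (e j₀)) ≠ 0
    rw [e.symm_apply_apply]
    exact hj₀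
  · rw [← hrel, ← Equiv.prod_comp e]
    exact Finset.prod_congr rfl fun j _ => by rw [e.symm_apply_apply]

/-- Case of a splitting field which does not contain the field. -/
theorem torsion_splitting (hsep : Sep1 E) {γ : E} (hγ : γ ≠ 0) (f : ℚ[X]) (hf : f ≠ 0)
    (hmem : ∀ x : E →+* ℂ, x γ ∈ Submonoid.closure {z : ℂ | z ≠ 0 ∧ aeval z f = 0})
    (hspl : ∀ z ∈ TAL.Gens E, z ∉ IntermediateField.adjoin ℚ (f.rootSet ℂ)) : ∃ N : ℕ, 0 < N ∧ unit γ ^ N = 1 := by
  classical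
  set M : IntermediateField ℚ ℂ := IntermediateField.adjoin ℚ (f.rootSet ℂ) with hM
  have halg : Algebra.IsAlgebraic ℚ M := by
    refine IntermediateField.isAlgebraic_adjoin fun x hx => ?_
    exact (isAlgebraic_iff_isIntegral.1 ⟨f, hf, (mem_rootSet.1 hx).2⟩)
  have hMmem : ∀ z ∈ Submonoid.closure {z : ℂ | z ≠ 0 ∧ aeval z f = 0}, z ∈ M := by
    intro z hz
    induction hz using Submonoid.closure_induction with
    | mem x hx => exact IntermediateField.subset_adjoin ℚ _ (mem_rootSet.2 ⟨hf, hx.2⟩)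
    | one => exact one_mem _
    | mul x y _ _ hx hy => exact mul_mem hx hy
  obtain ⟨a, ha⟩ := Field.exists_primitive_element ℚ E
  obtain ⟨x₀⟩ : Nonempty (E →+* ℂ) := inferInstance
  have h1 : x₀ a ∉ M := hspl _ ⟨x₀, a, rfl, ha⟩
  obtain ⟨σ, hσ, hfix⟩ := exists_move M (x₀ a) ((Algebra.IsIntegral.isIntegral (R := ℚ) a).map x₀.toRatAlgHom) h1
  set y : E →+* ℂ := (σ : ℂ →+* ℂ).comp x₀ with hy
  have hyx : y ≠ x₀ := fun h => hσ (RingHom.congr_fun h a)
  have hyδ : y (unit γ) = x₀ (unit γ) := by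
    show σ (x₀ (unit γ)) = x₀ (unit γ)
    refine hfix _ ?_
    rw [unit_emb]
    exact div_mem (hMmem _ (hmem x₀)) (hMmem _ (hmem ((starRingEnd ℂ).comp x₀)))
  have h0 : x₀ (unit γ) ≠ 0 := by
    have h2 := unit_abs hγ x₀
    exact left_ne_zero_of_mul (by rw [h2]; exact one_ne_zero)
  let n : (E →+* ℂ) → ℤ := fun x => if x = y then 1 else if x = x₀ then -1 else 0
  refine torsion_of_dep hsep (fun φ => unit_abs hγ φ) n x₀ (conj_ne' x₀) ?_ ?_
  · have h2 : n x₀ = -1 := by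
      simp only [n]
      rw [if_neg hyx.symm, if_pos trivial]
    rw [h2]
    simp only [n]
    rw [if_neg (conj_ne' x₀)]
    split_ifs <;> decide
  · have h2 : ∏ x : E →+* ℂ, (x (unit γ)) ^ n x = ∏ x ∈ ({y, x₀} : Finset (E →+* ℂ)), (x (unit γ)) ^ n x := by
      symm
      refine Finset.prod_subset (Finset.subset_univ _) fun x _ hx => ?_
      rw [Finset.mem_insert, Finset.mem_singleton, not_or] at hx
      simp only [n]
      rw [if_neg hx.1, if_neg hx.2, zpow_zero]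
    rw [h2, Finset.prod_pair hyx]
    have h3 : n y = 1 := by
      simp only [n]
      rw [if_pos trivial]
    have h4 : n x₀ = -1 := by
      simp only [n]
      rw [if_neg hyx.symm, if_pos trivial]
    rw [h3, h4, zpow_one, zpow_neg_one, hyδ, mul_inv_cancel₀ h0]

end

end TSP
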