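import Pool.Agent.Lib.MP_021685_agSP.SP8
import Pool.Agent.Lib.MP_021685_agTAL.AL4

/-! Separated families of CM fields: the Tate classes. -/

set_option autoImplicit false

attribute [-instance] Pool.Agent.Lib.MP_802513_ag.W.fintypeEmb

namespace TSP

open Polynomial TAF

/-- The Tate classes for Weil numbers in a separated family of CM fields. -/
theorem tateFields {r : ℕ} {g : Fin r → ℕ} {E : Fin r → Type} [∀ i, Field (E i)] [∀ i, NumberField (E i)]
    (hE : ∀ i, NumberField.IsCMField (E i) ∧ Module.finrank ℚ (E i) = 2 * g i) (hsep : Sep E) :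
    TAL.TateFields g E := by
  intro Q J _ a R hQ hm hW hR
  refine ⟨fun hI => ?_, fun hD hF i => TWF.indep_of_full hQ (hW i) (hD i) hm (fun k φ => (hR _).2 ⟨i, k, φ, rfl⟩) hF⟩
  have hcm : ∀ i, NumberField.IsCMField (E i) := fun i => (hE i).1
  have hg : ∀ i, 0 < g i := fun i => by
    have h1 : 0 < Module.finrank ℚ (E i) := Module.finrank_pos
    have h2 := (hE i).2
    omega
  have hfull : FullFor Q R fun y => ∀ i, Nonempty (J i) → Small Q (TAL.Gens (E i)) (g i) y :=
    glue_fields hsep hg hQ a hm hW hR (fun i => TAL.Gens (E i)) fun i P' _ hm' hP' =>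
        single (hsep.sep1 i) hQ (hE i).2 (hW i) (hI i) hP'
  have hroot : ∀ z : ℂ, aeval z R = 0 → z * starRingEnd ℂ z = Q ∧ z ^ 2 ≠ Q := by
    intro z hz
    obtain ⟨i, k, φ, rfl⟩ := (hR z).1 hz
    refine ⟨hW i k φ, fun h => ?_⟩
    have hQ0 : (Q : E i) ≠ 0 := Nat.cast_ne_zero.2 hQ.ne'
    have h2 : a i k ^ 2 = (Q : E i) := by
      apply φ.injective
      rw [map_pow, map_natCast]
      exact h
    classical
    have h3 := hI i (Pi.single k 1) (by
      rw [Finset.prod_eq_single k]
      · rw [Pi.single_eq_same, zpow_one, h2, div_self hQ0]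
      · intro l _ hl
        rw [Pi.single_eq_of_ne hl, zpow_zero]
      · intro h
        exact absurd (Finset.mem_univ _) h) k
    rw [Pi.single_eq_same] at h3
    exact one_ne_zero h3
  have hS1 : ∀ i, Nonempty (J i) → Small Q (TAL.Gens (E i)) (g i) 1 := fun i _ => small_one _ _ _
  have hSp : ∀ (z : ℂ) (d : ℕ), 0 < d → (∀ i, Nonempty (J i) → Small Q (TAL.Gens (E i)) (g i) z) →
      ∀ i, Nonempty (J i) → Small Q (TAL.Gens (E i)) (g i) (z ^ d) :=
    fun z d hd hz i hi => (closed_small _ _ _).pow (hz i hi) d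
  exact ⟨TAL.tateLit_of_full hQ hroot hS1 hSp hfull, hfull⟩

end TSP
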