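import Pool.Agent.Lib.MP_802513_ag.UAut

/-! In every number field there is an integer whose conjugates are multiplicatively independent and which divides a power of a
prime number. -/

set_option autoImplicit false

namespace TSP

open NumberField

private theorem SPC1_dvd {δ : ℂ} (h : IsIntegral ℤ δ) (h0 : δ ≠ 0) :
    ∃ (n : ℤ) (w : ℂ), n ≠ 0 ∧ IsIntegral ℤ w ∧ (n : ℂ) = δ * w := by
  obtain ⟨q, hq0, hq⟩ := (h.isAlgebraic).exists_nonzero_coeff_and_aeval_eq_zero (mem_nonZeroDivisors_of_ne_zero h0)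
  have h3 : IsIntegral ℤ (Polynomial.aeval δ q.divX) :=
    adjoin_le_integralClosure h (Polynomial.aeval_mem_adjoin_singleton ℤ δ)
  refine ⟨q.coeff 0, -(Polynomial.aeval δ q.divX), hq0, h3.neg, ?_⟩
  have h1 := congrArg (Polynomial.aeval δ) (Polynomial.divX_mul_X_add q)
  rw [map_add, map_mul, Polynomial.aeval_X, Polynomial.aeval_C, hq] at h1
  have h2 : (q.coeff 0 : ℂ) = algebraMap ℤ ℂ (q.coeff 0) := rfl
  rw [h2]
  linear_combination h1

/-- an integral primitive element -/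
private theorem SPC1_prim (E : Type) [Field E] [NumberField E] :
    ∃ t : 𝓞 E, t ≠ 0 ∧ ∀ φ ψ : E →+* ℂ, φ (t : E) = ψ (t : E) → φ = ψ := by
  obtain ⟨α, hα⟩ := Field.exists_primitive_element ℚ E
  obtain ⟨c, hc, hint⟩ : ∃ c : ℤ, c ≠ 0 ∧ IsIntegral ℤ (c • α) := by
    obtain ⟨y, hy, h⟩ := exists_integral_multiples ℤ ℚ ({α} : Finset E)
    exact ⟨y, hy, h α (Finset.mem_singleton_self α)⟩
  have key : ∀ φ ψ : E →+* ℂ, φ α = ψ α → φ = ψ := by
    intro φ ψ h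
    have h1 : φ.toRatAlgHom = ψ.toRatAlgHom := by
      have h2 : ∀ x ∈ (IntermediateField.adjoin ℚ {α} : IntermediateField ℚ E), φ x = ψ x := by
        intro x hx
        induction hx using IntermediateField.adjoin_induction with
        | mem x hx =>
          rw [Set.mem_singleton_iff.1 hx, h]
        | algebraMap x => rw [eq_ratCast, map_ratCast, map_ratCast]
        | add x y _ _ hx hy => rw [map_add, map_add, hx, hy]
        | inv x _ hx => rw [map_inv₀, map_inv₀, hx]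
        | mul x y _ _ hx hy => rw [map_mul, map_mul, hx, hy]
      refine AlgHom.ext fun x => ?_
      exact h2 x (by rw [hα]; trivial)
    exact RingHom.ext fun x => DFunLike.congr_fun h1 x
  by_cases h0 : (c • α : E) = 0
  · have hα0 : α = 0 := by
      rw [zsmul_eq_mul] at h0
      rcases mul_eq_zero.1 h0 with h1 | h1
      · exact absurd (by exact_mod_cast h1) hc
      · exact h1
    refine ⟨1, one_ne_zero, fun φ ψ _ => key φ ψ (by rw [hα0, map_zero, map_zero])⟩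
  · refine ⟨⟨c • α, hint⟩, fun h => h0 (congrArg Subtype.val h), fun φ ψ h => key φ ψ ?_⟩
    have h1 : φ (c • α) = ψ (c • α) := h
    rw [zsmul_eq_mul, map_mul, map_mul, map_intCast, map_intCast] at h1
    exact mul_left_cancel₀ (by exact_mod_cast hc) h1

/-- an integer divisible by all the differences of the conjugates of `t` -/
private theorem SPC1_disc (E : Type) [Field E] [NumberField E] (t : 𝓞 E)
    (ht : ∀ φ ψ : E →+* ℂ, φ (t : E) = ψ (t : E) → φ = ψ) :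
    ∃ D : ℤ, D ≠ 0 ∧ ∀ φ ψ : E →+* ℂ, φ ≠ ψ → ∃ w : ℂ, IsIntegral ℤ w ∧ (D : ℂ) = (φ t - ψ t) * w := by
  classical
  have h1 : ∀ x : (E →+* ℂ) × (E →+* ℂ), ∃ (n : ℤ) (w : ℂ), n ≠ 0 ∧ IsIntegral ℤ w ∧
      (x.1 ≠ x.2 → (n : ℂ) = (x.1 t - x.2 t) * w) := by
    intro x
    by_cases hx : x.1 = x.2
    · exact ⟨1, 1, one_ne_zero, isIntegral_one, fun h => absurd hx h⟩
    · obtain ⟨n, w, h2, h3, h4⟩ := SPC1_dvd ((map_isIntegral_int x.1 (RingOfIntegers.isIntegral_coe t)).sub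
        (map_isIntegral_int x.2 (RingOfIntegers.isIntegral_coe t))) (sub_ne_zero.2 fun h => hx (ht _ _ h))
      exact ⟨n, w, h2, h3, fun _ => h4⟩
  choose n w hn hw h using h1
  refine ⟨∏ x, n x, Finset.prod_ne_zero_iff.2 fun x _ => hn x, fun φ ψ hne => ?_⟩
  refine ⟨w (φ, ψ) * ∏ x ∈ Finset.univ.erase (φ, ψ), (n x : ℂ), (hw _).mul (IsIntegral.prod _ fun x _ => ?_), ?_⟩
  · exact isIntegral_algebraMap (R := ℤ) (x := n x)
  · rw [Int.cast_prod, ← Finset.mul_prod_erase Finset.univ (fun x => (n x : ℂ)) (Finset.mem_univ (φ, ψ)), h (φ, ψ) hne]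
    ring

private theorem SPC1_norm (E : Type) [Field E] [NumberField E] (x : 𝓞 E) :
    ((Algebra.norm ℤ x : ℤ) : ℂ) = ∏ φ : E →+* ℂ, φ x := by
  have h1 := Algebra.norm_eq_prod_embeddings ℚ ℂ (x : E)
  have h2 : ((Algebra.norm ℤ x : ℤ) : ℚ) = Algebra.norm ℚ (x : E) := Algebra.coe_norm_int x
  rw [← h2, eq_ratCast, Rat.cast_intCast] at h1
  rw [h1]
  exact (Fintype.prod_equiv (RingHom.equivRatAlgHom E ℂ) _ _ fun φ => rfl).symm

private theorem SPC1_unit {p : ℕ} (hp : p.Prime) : Ideal.span {((p : ℕ) : integralClosure ℤ ℂ)} ≠ ⊤ := by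
  intro h
  rw [Ideal.eq_top_iff_one, Ideal.mem_span_singleton] at h
  obtain ⟨y, hy⟩ := h
  have h1 : (1 : ℂ) = (p : ℂ) * (y : ℂ) := by
    have h2 := congrArg (fun z : integralClosure ℤ ℂ => (z : ℂ)) hy
    simpa using h2
  have hp0 : (p : ℂ) ≠ 0 := by exact_mod_cast hp.ne_zero
  have h3 : (y : ℂ) = algebraMap ℚ ℂ (1 / p) := by
    rw [eq_ratCast]
    push_cast
    field_simp
    rw [h1]
    ring
  have h4 : IsIntegral ℤ (1 / p : ℚ) := by
    have h5 : IsIntegral ℤ (y : ℂ) := y.2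
    rw [h3] at h5
    exact (isIntegral_algebraMap_iff (algebraMap ℚ ℂ).injective).1 h5
  obtain ⟨z, hz⟩ := IsIntegrallyClosed.isIntegral_iff.1 h4
  have h6 : (z : ℚ) * p = 1 := by
    have h7 : (z : ℚ) = 1 / p := hz
    rw [h7]
    have : (p : ℚ) ≠ 0 := by exact_mod_cast hp.ne_zero
    field_simp
  have h8 : z * (p : ℤ) = 1 := by exact_mod_cast h6
  have h9 : IsUnit (p : ℤ) := IsUnit.of_mul_eq_one z (by rw [mul_comm]; exact h8)
  rw [Int.isUnit_iff_natAbs_eq, Int.natAbs_natCast] at h9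
  exact hp.one_lt.ne' h9

/-- a prime ideal of the ring of all algebraic integers, and an integer `x` exactly one conjugate of which is in it -/
private theorem SPC1_key (E : Type) [Field E] [NumberField E] :
    ∃ (p : ℕ) (P : Ideal (integralClosure ℤ ℂ)) (j : (E →+* ℂ) → (𝓞 E →+* integralClosure ℤ ℂ)) (x : 𝓞 E)
      (φ₁ : E →+* ℂ), p.Prime ∧ P.IsPrime ∧ ((p : ℕ) : integralClosure ℤ ℂ) ∈ P ∧
        (∀ φ y, ((j φ y : integralClosure ℤ ℂ) : ℂ) = φ y) ∧ ∀ φ, j φ x ∈ P ↔ φ = φ₁ := by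
  classical
  obtain ⟨t, ht0, ht⟩ := SPC1_prim E
  obtain ⟨D, hD0, hD⟩ := SPC1_disc E t ht
  obtain ⟨s, hs⟩ := exists_nat_ge (∑ φ : E →+* ℂ, 3 / (|(D : ℝ)| * ‖φ t‖))
  have hDr : 0 < |(D : ℝ)| := abs_pos.2 (by exact_mod_cast hD0)
  have htn : ∀ φ : E →+* ℂ, 0 < ‖φ t‖ := fun φ => norm_pos_iff.2 fun h => ht0 (by
    have h1 := (map_eq_zero φ).1 h
    exact RingOfIntegers.ext h1)
  have hs3 : ∀ φ : E →+* ℂ, 3 ≤ s * (|(D : ℝ)| * ‖φ t‖) := by
    intro φ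
    have h1 : 3 / (|(D : ℝ)| * ‖φ t‖) ≤ s := (Finset.single_le_sum (f := fun φ : E →+* ℂ => 3 / (|(D : ℝ)| * ‖φ t‖))
      (fun ψ _ => by positivity) (Finset.mem_univ φ)).trans hs
    rwa [div_le_iff₀ (mul_pos hDr (htn φ))] at h1
  let x : 𝓞 E := 1 + ((D * s : ℤ) : 𝓞 E) * t
  have hx : ∀ φ : E →+* ℂ, φ x = 1 + D * s * φ t := by
    intro φ
    show (φ.comp (algebraMap (𝓞 E) E)) (1 + ((D * s : ℤ) : 𝓞 E) * t) = _
    rw [map_add, map_one, map_mul, map_intCast]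
    push_cast
    rfl
  have hx2 : ∀ φ : E →+* ℂ, 2 ≤ ‖φ x‖ := by
    intro φ
    have h1 : ‖(D : ℂ) * s * φ t‖ = s * (|(D : ℝ)| * ‖φ t‖) := by
      rw [norm_mul, norm_mul, Complex.norm_intCast, Complex.norm_natCast]
      ring
    have h2 := norm_sub_norm_le ((D : ℂ) * s * φ t) (-1)
    rw [h1, norm_neg, norm_one, sub_neg_eq_add, add_comm ((D : ℂ) * s * φ t), ← hx] at h2
    linarith [hs3 φ]
  have hN2 : 2 ≤ ‖((Algebra.norm ℤ x : ℤ) : ℂ)‖ := by
    rw [SPC1_norm, norm_prod]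
    calc (2 : ℝ) ≤ 2 ^ Fintype.card (E →+* ℂ) := by
          have h1 : 0 < Fintype.card (E →+* ℂ) := Fintype.card_pos
          calc (2 : ℝ) = 2 ^ 1 := (pow_one _).symm
            _ ≤ _ := pow_le_pow_right₀ (by norm_num) h1
      _ = ∏ _φ : E →+* ℂ, (2 : ℝ) := by rw [Finset.prod_const, Finset.card_univ]
      _ ≤ _ := Finset.prod_le_prod (fun _ _ => by norm_num) fun φ _ => hx2 φ
  obtain ⟨p, hp, hpd⟩ : ∃ p : ℕ, p.Prime ∧ (p : ℤ) ∣ Algebra.norm ℤ x := by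
    have h1 : (Algebra.norm ℤ x).natAbs ≠ 1 := by
      intro h
      rw [Complex.norm_intCast] at hN2
      have h2 : |((Algebra.norm ℤ x : ℤ) : ℝ)| = 1 := by
        rw [← Int.cast_abs, Int.abs_eq_natAbs, h]
        norm_num
      linarith
    obtain ⟨p, hp, h2⟩ := Nat.exists_prime_and_dvd h1
    exact ⟨p, hp, Int.natCast_dvd.2 h2⟩
  obtain ⟨P, hP, hle⟩ := Ideal.exists_le_maximal _ (SPC1_unit hp)
  have hPp : P.IsPrime := hP.isPrime
  have hpP : ((p : ℕ) : integralClosure ℤ ℂ) ∈ P := hle (Ideal.mem_span_singleton_self _)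
  let j : (E →+* ℂ) → (𝓞 E →+* integralClosure ℤ ℂ) := fun φ =>
    RingHom.codRestrict (φ.comp (algebraMap (𝓞 E) E)) (integralClosure ℤ ℂ)
      fun y => map_isIntegral_int φ (RingOfIntegers.isIntegral_coe y)
  have hj : ∀ φ y, ((j φ y : integralClosure ℤ ℂ) : ℂ) = φ y := fun φ y => rfl
  have hNP : (((Algebra.norm ℤ x : ℤ)) : integralClosure ℤ ℂ) ∈ P := by
    obtain ⟨k, hk⟩ := hpd
    rw [hk, Int.cast_mul, Int.cast_natCast]
    exact P.mul_mem_right _ hpP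
  have hprod : (((Algebra.norm ℤ x : ℤ)) : integralClosure ℤ ℂ) = ∏ φ : E →+* ℂ, j φ x := by
    apply Subtype.ext
    rw [SubringClass.coe_intCast, SPC1_norm]
    exact (map_prod (integralClosure ℤ ℂ).val (fun φ => j φ x) Finset.univ).symm
  rw [hprod] at hNP
  obtain ⟨φ₁, -, h1⟩ := (Ideal.IsPrime.prod_mem_iff).1 hNP
  have hjx : ∀ φ, j φ x = 1 + ((D * s : ℤ) : integralClosure ℤ ℂ) * j φ t := by
    intro φ
    show j φ (1 + ((D * s : ℤ) : 𝓞 E) * t) = _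
    rw [map_add, map_one, map_mul, map_intCast]
  have hDs : ((D * s : ℤ) : integralClosure ℤ ℂ) ∉ P := by
    intro h
    refine hPp.ne_top ((Ideal.eq_top_iff_one P).2 ?_)
    have h2 : (1 : integralClosure ℤ ℂ) = j φ₁ x - ((D * s : ℤ) : integralClosure ℤ ℂ) * j φ₁ t := by
      rw [hjx]
      ring
    rw [h2]
    exact P.sub_mem h1 (P.mul_mem_right _ h)
  refine ⟨p, P, j, x, φ₁, hp, hPp, hpP, hj, fun φ => ⟨fun h => ?_, fun h => h ▸ h1⟩⟩
  by_contra hne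
  obtain ⟨w, hw, hDw⟩ := hD φ φ₁ hne
  have h2 : ((D * s : ℤ) : integralClosure ℤ ℂ) * (j φ t - j φ₁ t) ∈ P := by
    have h3 : ((D * s : ℤ) : integralClosure ℤ ℂ) * (j φ t - j φ₁ t) = j φ x - j φ₁ x := by
      rw [hjx, hjx]
      ring
    rw [h3]
    exact P.sub_mem h h1
  have h3 : j φ t - j φ₁ t ∈ P := (hPp.mem_or_mem h2).resolve_left hDs
  have h4 : ((D : ℤ) : integralClosure ℤ ℂ) = (j φ t - j φ₁ t) * ⟨w, hw⟩ := by
    apply Subtype.ext
    show _ = (φ t - φ₁ t) * w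
    rw [← hDw]
    exact SubringClass.coe_intCast _ _
  apply hDs
  rw [Int.cast_mul, h4]
  exact P.mul_mem_right _ (P.mul_mem_right _ h3)

/-- There are a prime number `p` and an integer `θ` of the number field `E` which divides a power of `p` and whose conjugates are
multiplicatively independent. -/
theorem exists_theta (E : Type) [Field E] [NumberField E] :
    ∃ (p m : ℕ) (θ : 𝓞 E), p.Prime ∧ 0 < m ∧ θ ≠ 0 ∧ θ ∣ (p : 𝓞 E) ^ m ∧
      ∀ n : (E →+* ℂ) → ℤ, ∏ φ, (φ θ) ^ n φ = 1 → n = 0 := by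
  classical
  obtain ⟨p, P, j, x, φ₁, hp, hP, hpP, hj, hx⟩ := SPC1_key E
  have h𝔭 : (Ideal.comap (j φ₁) P).IsPrime := Ideal.comap_isPrime _ _
  have hp0 : (p : 𝓞 E) ≠ 0 := by exact_mod_cast hp.ne_zero
  have hpm : (p : 𝓞 E) ∈ Ideal.comap (j φ₁) P := by
    rw [Ideal.mem_comap, map_natCast]
    exact hpP
  have hne : Ideal.comap (j φ₁) P ≠ ⊥ := fun h => hp0 (by
    rw [h] at hpm
    exact hpm)
  obtain ⟨m, hm, θ, hθ⟩ : ∃ m : ℕ, 0 < m ∧ ∃ θ : 𝓞 E, (Ideal.comap (j φ₁) P) ^ m = Ideal.span {θ} := by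
    have h1 : (⟨Ideal.comap (j φ₁) P, mem_nonZeroDivisors_of_ne_zero hne⟩ : nonZeroDivisors (Ideal (𝓞 E))) ^
        Fintype.card (ClassGroup (𝓞 E)) = ⟨Ideal.comap (j φ₁) P ^ Fintype.card (ClassGroup (𝓞 E)),
          mem_nonZeroDivisors_of_ne_zero (pow_ne_zero _ hne)⟩ := Subtype.ext rfl
    have h2 : ClassGroup.mk0 (⟨Ideal.comap (j φ₁) P ^ Fintype.card (ClassGroup (𝓞 E)),
          mem_nonZeroDivisors_of_ne_zero (pow_ne_zero _ hne)⟩ : nonZeroDivisors (Ideal (𝓞 E))) = 1 := by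
      rw [← h1, map_pow, pow_card_eq_one]
    obtain ⟨θ, hθ⟩ := ((ClassGroup.mk0_eq_one_iff _).1 h2).1
    exact ⟨_, Fintype.card_pos, θ, hθ⟩
  have hθ0 : θ ≠ 0 := by
    rintro rfl
    rw [Ideal.span_singleton_eq_bot.2 rfl] at hθ
    exact pow_ne_zero m hne hθ
  have hjθ : ∀ φ, j φ θ ∈ P → φ = φ₁ := by
    intro φ h
    have h1 : (Ideal.comap (j φ₁) P) ^ m ≤ Ideal.comap (j φ) P := by
      rw [hθ, Ideal.span_singleton_le_iff_mem]
      exact h
    have h2 : (Ideal.comap (j φ) P).IsPrime := Ideal.comap_isPrime _ _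
    have h3 : Ideal.comap (j φ₁) P ≤ Ideal.comap (j φ) P := Ideal.IsPrime.le_of_pow_le h1
    exact (hx φ).1 (h3 ((hx φ₁).2 rfl))
  have hjθ1 : j φ₁ θ ∈ P := by
    have h1 : θ ∈ (Ideal.comap (j φ₁) P) ^ m := by
      rw [hθ]
      exact Ideal.mem_span_singleton_self θ
    have h2 : θ ∈ Ideal.comap (j φ₁) P := Ideal.pow_le_self hm.ne' h1
    exact h2
  have hθφ : ∀ φ : E →+* ℂ, φ θ ≠ 0 := fun φ h => hθ0 (RingOfIntegers.ext ((map_eq_zero φ).1 h))
  -- the exponent at `φ₁`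
  have key : ∀ n : (E →+* ℂ) → ℤ, ∏ φ, (φ θ) ^ n φ = 1 → ¬ 0 < n φ₁ := by
    intro n hn hpos
    have h1 : ∏ φ : E →+* ℂ, (φ θ) ^ (n φ).toNat = ∏ φ : E →+* ℂ, (φ θ) ^ (-n φ).toNat := by
      have h2 : ∀ φ : E →+* ℂ, (φ θ) ^ (n φ).toNat = (φ θ) ^ n φ * (φ θ) ^ (-n φ).toNat := by
        intro φ
        rw [← zpow_natCast, ← zpow_natCast, ← zpow_add₀ (hθφ φ)]
        congr 1
        omega
      rw [Finset.prod_congr rfl fun φ _ => h2 φ, Finset.prod_mul_distrib, hn, one_mul]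
    have h2 : ∏ φ : E →+* ℂ, (j φ θ) ^ (n φ).toNat = ∏ φ : E →+* ℂ, (j φ θ) ^ (-n φ).toNat := by
      apply Subtype.ext
      have h3 : ∀ k : (E →+* ℂ) → ℕ, ((∏ φ : E →+* ℂ, (j φ θ) ^ k φ : integralClosure ℤ ℂ) : ℂ) =
          ∏ φ : E →+* ℂ, (φ θ) ^ k φ := by
        intro k
        refine (map_prod (integralClosure ℤ ℂ).val (fun φ => (j φ θ) ^ k φ) Finset.univ).trans ?_
        refine Finset.prod_congr rfl fun φ _ => ?_
        rw [map_pow, Subalgebra.coe_val, hj]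
      rw [h3, h3, h1]
    have h3 : ∏ φ : E →+* ℂ, (j φ θ) ^ (n φ).toNat ∈ P := by
      refine (Ideal.IsPrime.prod_mem_iff).2 ⟨φ₁, Finset.mem_univ _, ?_⟩
      exact Ideal.pow_mem_of_mem P hjθ1 _ (by omega)
    rw [h2] at h3
    obtain ⟨φ, -, h4⟩ := (Ideal.IsPrime.prod_mem_iff).1 h3
    have h5 := hjθ φ (hP.mem_of_pow_mem _ h4)
    have h6 : (-n φ₁).toNat = 0 := by omega
    rw [h5, h6, pow_zero] at h4
    exact hP.ne_top ((Ideal.eq_top_iff_one P).2 h4)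
  have key0 : ∀ n : (E →+* ℂ) → ℤ, ∏ φ, (φ θ) ^ n φ = 1 → n φ₁ = 0 := by
    intro n hn
    have h1 := key n hn
    have h2 := key (-n) (by
      have h3 : ∏ φ, (φ θ) ^ (-n) φ = (∏ φ : E →+* ℂ, (φ θ) ^ n φ)⁻¹ := by
        rw [← Finset.prod_inv_distrib]
        exact Finset.prod_congr rfl fun φ _ => zpow_neg _ _
      rw [h3, hn, inv_one])
    rw [Pi.neg_apply] at h2
    omega
  have hdvd : θ ∣ (p : 𝓞 E) ^ m := by
    rw [← Ideal.mem_span_singleton, ← hθ]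
    exact Ideal.pow_mem_pow hpm m
  refine ⟨p, m, θ, hp, hm, hθ0, hdvd, fun n hn => funext fun φ₀ => ?_⟩
  obtain ⟨τ, hτ⟩ := Pool.Agent.Lib.MP_802513_ag.exists_aut φ₀ φ₁
  let e : (E →+* ℂ) ≃ (E →+* ℂ) :=
    { toFun := fun φ => (τ : ℂ →+* ℂ).comp φ
      invFun := fun φ => (τ.symm : ℂ →+* ℂ).comp φ
      left_inv := fun φ => RingHom.ext fun y => τ.symm_apply_apply _
      right_inv := fun φ => RingHom.ext fun y => τ.apply_symm_apply _ }
  have he : e φ₀ = φ₁ := RingHom.ext fun y => hτ y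
  have h1 := key0 (fun φ => n (e.symm φ)) (by
    have h2 : ∏ φ : E →+* ℂ, (φ θ) ^ n (e.symm φ) = ∏ φ : E →+* ℂ, (e φ θ) ^ n φ :=
      (Fintype.prod_equiv e (fun φ => (e φ θ) ^ n φ) (fun φ => (φ θ) ^ n (e.symm φ))
        fun φ => by rw [Equiv.symm_apply_apply]).symm
    rw [h2]
    have h3 := congrArg τ hn
    rw [map_one, map_prod] at h3
    rw [← h3]
    refine Finset.prod_congr rfl fun φ _ => ?_
    rw [map_zpow₀]
    rfl)
  have h2 : n (e.symm φ₁) = 0 := h1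
  rw [← he, Equiv.symm_apply_apply] at h2
  exact h2

end TSP
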