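import Mathlib

/-! The converse, file B4: complex conjugation and the automorphisms of `ℂ` on the embeddings of a CM field. -/

set_option autoImplicit false

namespace TSP

/-- The automorphisms of `ℂ` commute with the complex conjugation on the embeddings of a CM field. -/
theorem conj_comm {E : Type} [Field E] [NumberField E] [NumberField.IsCMField E] (g : ℂ ≃+* ℂ) (φ : E →+* ℂ) :
    (g : ℂ →+* ℂ).comp ((starRingEnd ℂ).comp φ) = (starRingEnd ℂ).comp ((g : ℂ →+* ℂ).comp φ) := by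
  refine RingHom.ext fun x => ?_
  simp only [RingHom.comp_apply]
  rw [← NumberField.IsCMField.complexEmbedding_complexConj, ← RingHom.comp_apply (g : ℂ →+* ℂ) φ,
    NumberField.IsCMField.complexEmbedding_complexConj, RingHom.comp_apply]

/-- The stabilizer of `ψ` moves `φ` to `φ'`. -/
def Orb {E F : Type} [Field E] [Field F] (φ : E →+* ℂ) (ψ : F →+* ℂ) (φ' : E →+* ℂ) : Prop :=
  ∃ g : ℂ ≃+* ℂ, (g : ℂ →+* ℂ).comp φ = φ' ∧ (g : ℂ →+* ℂ).comp ψ = ψ

theorem orb_self {E F : Type} [Field E] [Field F] (φ : E →+* ℂ) (ψ : F →+* ℂ) : Orb φ ψ φ := by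
  exact ⟨RingEquiv.refl ℂ, RingHom.ext fun _ => rfl, RingHom.ext fun _ => rfl⟩

/-- The orbit is stable under the stabilizer of `ψ`. -/
theorem orb_comp {E F : Type} [Field E] [Field F] {φ : E →+* ℂ} {ψ : F →+* ℂ} (g : ℂ ≃+* ℂ)
    (hg : (g : ℂ →+* ℂ).comp ψ = ψ) (φ' : E →+* ℂ) : Orb φ ψ ((g : ℂ →+* ℂ).comp φ') ↔ Orb φ ψ φ' := by
  have hg' : ∀ x, g (ψ x) = ψ x := fun x => RingHom.congr_fun hg x
  constructor
  · rintro ⟨k, hk, hkψ⟩
    have hk' : ∀ x, k (φ x) = g (φ' x) := fun x => RingHom.congr_fun hk x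
    have hkψ' : ∀ x, k (ψ x) = ψ x := fun x => RingHom.congr_fun hkψ x
    refine ⟨k.trans g.symm, RingHom.ext fun x => ?_, RingHom.ext fun x => ?_⟩
    · change g.symm (k (φ x)) = φ' x
      rw [hk', RingEquiv.symm_apply_apply]
    · change g.symm (k (ψ x)) = ψ x
      rw [hkψ', RingEquiv.symm_apply_eq, hg']
  · rintro ⟨k, hk, hkψ⟩
    have hk' : ∀ x, k (φ x) = φ' x := fun x => RingHom.congr_fun hk x
    have hkψ' : ∀ x, k (ψ x) = ψ x := fun x => RingHom.congr_fun hkψ x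
    refine ⟨k.trans g, RingHom.ext fun x => ?_, RingHom.ext fun x => ?_⟩
    · change g (k (φ x)) = g (φ' x)
      rw [hk']
    · change g (k (ψ x)) = ψ x
      rw [hkψ', hg']

/-- If the orbit of `φ` does not contain the complex conjugate of `φ`, it contains no two complex conjugates. -/
theorem orb_conj {E F : Type} [Field E] [NumberField E] [NumberField.IsCMField E] [Field F] {φ : E →+* ℂ} {ψ : F →+* ℂ}
    (h : ¬ Orb φ ψ ((starRingEnd ℂ).comp φ)) {φ' : E →+* ℂ} (h1 : Orb φ ψ φ') : ¬ Orb φ ψ ((starRingEnd ℂ).comp φ') := by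
  intro h2
  obtain ⟨g, hg, hgψ⟩ := h1
  refine h ((orb_comp g hgψ _).1 ?_)
  rw [conj_comm, hg]
  exact h2

end TSP
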