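import Pool.Agent.Lib.MP_021685_agSP.SPC1
import Pool.Agent.Lib.MP_021685_agSP.SPCB4

/-! The converse, file B1: a number of absolute value one with independent conjugates, up to complex conjugation. -/

set_option autoImplicit false

namespace TSP

theorem exists_alpha (E : Type) [Field E] [NumberField E] [NumberField.IsCMField E] :
    ∃ (p m : ℕ) (α : E), p.Prime ∧ 0 < m ∧ IsIntegral ℤ ((p : E) ^ m * α) ∧
      (∀ φ : E →+* ℂ, φ α * starRingEnd ℂ (φ α) = 1) ∧
      ∀ c : (E →+* ℂ) → ℤ, ∏ φ, (φ α) ^ c φ = 1 → ∀ φ, c φ = c ((starRingEnd ℂ).comp φ) := by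
  classical
  obtain ⟨p, m, θ', hp, hm, hθ'0, ⟨w, hw⟩, hθ'⟩ := exists_theta E
  obtain ⟨θ, hθdef⟩ : ∃ θ : E, θ = (θ' : E) := ⟨_, rfl⟩
  have hθ0 : θ ≠ 0 := by
    rw [hθdef]
    exact NumberField.RingOfIntegers.coe_ne_zero_iff.2 hθ'0
  have hθ : ∀ n : (E →+* ℂ) → ℤ, ∏ φ, (φ θ) ^ n φ = 1 → ∀ φ, n φ = 0 := fun n hn φ =>
    congrFun (hθ' n (by rw [← hθdef]; exact hn)) φ
  obtain ⟨τ, hτ⟩ : ∃ τ : E, τ = NumberField.IsCMField.complexConj E θ := ⟨_, rfl⟩
  have hφτ : ∀ φ : E →+* ℂ, φ τ = starRingEnd ℂ (φ θ) := fun φ => by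
    rw [hτ]
    exact NumberField.IsCMField.complexEmbedding_complexConj E φ θ
  have hφθ : ∀ φ : E →+* ℂ, φ θ ≠ 0 := fun φ => (map_ne_zero φ).mpr hθ0
  have hcθ : ∀ φ : E →+* ℂ, starRingEnd ℂ (φ θ) ≠ 0 := fun φ => (map_ne_zero _).mpr (hφθ φ)
  have hτ0 : τ ≠ 0 := by
    intro h
    obtain ⟨φ⟩ : Nonempty (E →+* ℂ) := inferInstance
    have h1 := hφτ φ
    rw [h, map_zero] at h1
    exact hcθ φ h1.symm
  have hwE : (p : E) ^ m = θ * (w : E) := by
    have h1 := congrArg (fun x : NumberField.RingOfIntegers E => (x : E)) hw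
    simp only [map_pow, map_natCast, map_mul] at h1
    rw [h1, hθdef]
  have hint : IsIntegral ℤ ((p : E) ^ m * (θ / τ)) := by
    have h1 : (p : E) ^ m = τ * NumberField.IsCMField.complexConj E (w : E) := by
      have h2 := congrArg (NumberField.IsCMField.complexConj E) hwE
      rw [map_pow, map_natCast, map_mul, ← hτ] at h2
      exact h2
    have h3 : (p : E) ^ m * (θ / τ) = θ * NumberField.IsCMField.complexConj E (w : E) := by
      rw [h1]
      field_simp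
    rw [h3, hθdef]
    exact (NumberField.RingOfIntegers.isIntegral_coe θ').mul
      ((NumberField.RingOfIntegers.isIntegral_coe w).map (NumberField.IsCMField.complexConj E))
  refine ⟨p, m, θ / τ, hp, hm, hint, fun φ => ?_, fun c hc => ?_⟩
  · rw [map_div₀, hφτ, map_div₀, Complex.conj_conj, div_mul_div_comm, mul_comm (φ θ),
      div_self (mul_ne_zero (hcθ φ) (hφθ φ))]
  · have hinv : Function.Involutive fun φ : E →+* ℂ => (starRingEnd ℂ).comp φ := by
      intro φ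
      ext x
      show starRingEnd ℂ (starRingEnd ℂ (φ x)) = φ x
      rw [Complex.conj_conj]
    have h1 : ∀ φ : E →+* ℂ, (φ (θ / τ)) ^ c φ =
        (φ θ) ^ c φ * (((starRingEnd ℂ).comp φ) θ) ^ (-c φ) := by
      intro φ
      rw [map_div₀, hφτ, div_zpow, zpow_neg, div_eq_mul_inv]
      rfl
    have h2 : ∏ φ : E →+* ℂ, (((starRingEnd ℂ).comp φ) θ) ^ (-c φ) =
        ∏ φ : E →+* ℂ, (φ θ) ^ (-c ((starRingEnd ℂ).comp φ)) := by
      rw [← Equiv.prod_comp (Function.Involutive.toPerm _ hinv)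
        (fun φ : E →+* ℂ => (φ θ) ^ (-c ((starRingEnd ℂ).comp φ)))]
      refine Finset.prod_congr rfl fun φ _ => ?_
      have h3 : (starRingEnd ℂ).comp ((starRingEnd ℂ).comp φ) = φ := hinv φ
      show (((starRingEnd ℂ).comp φ) θ) ^ (-c φ) =
        (((starRingEnd ℂ).comp φ) θ) ^ (-c ((starRingEnd ℂ).comp ((starRingEnd ℂ).comp φ)))
      rw [h3]
    have h4 : ∏ φ : E →+* ℂ, (φ θ) ^ (c φ - c ((starRingEnd ℂ).comp φ)) = 1 := by
      rw [← hc, Finset.prod_congr rfl fun φ _ => h1 φ, Finset.prod_mul_distrib, h2,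
        ← Finset.prod_mul_distrib]
      refine Finset.prod_congr rfl fun φ _ => ?_
      rw [← zpow_add₀ (hφθ φ), sub_eq_add_neg]
    intro φ
    have h5 := hθ (fun φ => c φ - c ((starRingEnd ℂ).comp φ)) h4 φ
    exact sub_eq_zero.mp h5

end TSP
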