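import Pool.Agent.Lib.MP_802513_ag.UAut

/-! The converse, file B2: the numbers fixed by the automorphisms of `ℂ` over a number field. -/

set_option autoImplicit false

namespace TSP

open Polynomial in
private theorem B2_root (M : IntermediateField ℚ ℂ) [Algebra.IsAlgebraic ℚ M] (z z' : ℂ)
    (hz : IsIntegral M z) (hz' : aeval z' (minpoly M z) = 0) :
    ∃ σ : ℂ ≃+* ℂ, σ z = z' ∧ ∀ x ∈ M, σ x = x := by
  let N := IntermediateField.adjoin M {z}
  have hN : Algebra.IsAlgebraic M N := by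
    have := IntermediateField.isAlgebraic_adjoin_simple (K := M) hz
    exact this
  let f : N →ₐ[M] ℂ := N.val
  let g : N →ₐ[M] ℂ := (IntermediateField.adjoin.powerBasis hz).lift z' (by
    rw [IntermediateField.adjoin.powerBasis_gen, IntermediateField.minpoly_gen]
    exact hz')
  have hgz : g (IntermediateField.AdjoinSimple.gen M z) = z' := by
    have h1 := (IntermediateField.adjoin.powerBasis hz).lift_gen z' (by
      rw [IntermediateField.adjoin.powerBasis_gen, IntermediateField.minpoly_gen]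
      exact hz')
    exact h1
  have hcard : Cardinal.mk N ≤ Cardinal.aleph0 := by
    have h1 := Algebra.IsAlgebraic.cardinalMk_le_max ℚ M
    have h2 := Algebra.IsAlgebraic.cardinalMk_le_max M N
    have h3 : Cardinal.mk ℚ ≤ Cardinal.aleph0 := by simp
    have h4 : Cardinal.mk M ≤ Cardinal.aleph0 := h1.trans (max_le h3 le_rfl)
    exact h2.trans (max_le h4 le_rfl)
  have hK : Cardinal.aleph0 < Cardinal.mk ℂ := by
    rw [Cardinal.mk_complex]
    exact Cardinal.aleph0_lt_continuum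
  obtain ⟨φ⟩ := @Pool.Agent.Lib.MP_802513_ag.exists_algEquiv_of_equiv N ℂ ℂ _ _ _
    (f : N →+* ℂ).toAlgebra (g : N →+* ℂ).toAlgebra _ _ hcard hK ⟨Equiv.refl _⟩
  have hφ : ∀ e : N, φ (f e) = g e := fun e =>
    @AlgEquiv.commutes N ℂ ℂ _ _ _ (f : N →+* ℂ).toAlgebra (g : N →+* ℂ).toAlgebra φ e
  refine ⟨@AlgEquiv.toRingEquiv N ℂ ℂ _ _ _ (f : N →+* ℂ).toAlgebra (g : N →+* ℂ).toAlgebra φ, ?_, ?_⟩
  · have h1 := hφ (IntermediateField.AdjoinSimple.gen M z)
    rw [hgz] at h1
    exact h1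
  · intro x hx
    have h1 := hφ (algebraMap M N ⟨x, hx⟩)
    rw [AlgHom.commutes, AlgHom.commutes] at h1
    exact h1

open Polynomial in
private theorem B2_mem (M : IntermediateField ℚ ℂ) [Algebra.IsAlgebraic ℚ M] (z : ℂ) (hint : IsIntegral M z)
    (h : ∀ σ : ℂ ≃+* ℂ, (∀ x ∈ M, σ x = x) → σ z = z) : z ∈ M := by
  by_contra hz
  have hsep : (minpoly M z).Separable := (minpoly.irreducible hint).separable
  have hex : ∃ z' : ℂ, z' ≠ z ∧ aeval z' (minpoly M z) = 0 := by
    by_contra hcon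
    push Not at hcon
    have h1 : ∀ w : ℂ, aeval w (minpoly M z) = 0 → w = z := by
      intro w hw
      by_contra hne
      exact hcon w hne hw
    have h2 : Fintype.card ((minpoly M z).rootSet ℂ) = (minpoly M z).natDegree :=
      card_rootSet_eq_natDegree hsep (IsAlgClosed.splits _)
    have h3 : Fintype.card ((minpoly M z).rootSet ℂ) ≤ 1 := by
      refine Fintype.card_le_one_iff.2 fun x y => Subtype.ext ?_
      rw [h1 x.1 ((mem_rootSet.1 x.2).2), h1 y.1 ((mem_rootSet.1 y.2).2)]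
    have h4 : (minpoly M z).natDegree = 1 := le_antisymm (h2 ▸ h3) (minpoly.natDegree_pos hint)
    obtain ⟨x, hx⟩ := (minpoly.natDegree_eq_one_iff).1 h4
    exact hz (by rw [← hx]; exact x.2)
  obtain ⟨z', hz', hz0⟩ := hex
  obtain ⟨σ, hσ, hfix⟩ := B2_root M z z' hint hz0
  exact hz' (by rw [← hσ]; exact h σ hfix)

theorem fixed_mem {F : Type} [Field F] [NumberField F] (ψ : F →+* ℂ) (z : ℂ) (hz : IsIntegral ℚ z)
    (h : ∀ g : ℂ ≃+* ℂ, (g : ℂ →+* ℂ).comp ψ = ψ → g z = z) : ∃ β : F, ψ β = z := by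
  let M : IntermediateField ℚ ℂ := ψ.toRatAlgHom.fieldRange
  have hM : Algebra.IsAlgebraic ℚ M :=
    (AlgEquiv.ofInjectiveField ψ.toRatAlgHom).isAlgebraic
  have h1 : z ∈ M := B2_mem M z hz.tower_top fun σ hσ => by
    refine h σ (RingHom.ext fun x => ?_)
    exact hσ (ψ x) ⟨x, rfl⟩
  obtain ⟨β, hβ⟩ := h1
  exact ⟨β, hβ⟩

end TSP
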