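import Pool.Agent.Lib.MP_021685_agSP.SPCB2
import Pool.Agent.Lib.MP_021685_agSP.SPCB4

/-! The converse, file B3: the number `β`. -/

set_option autoImplicit false

namespace TSP

theorem exists_beta {E F : Type} [Field E] [NumberField E] [NumberField.IsCMField E] [Field F] [NumberField F]
    (φ₀ : E →+* ℂ) (ψ₀ : F →+* ℂ) (α : E) (hα : ∀ φ : E →+* ℂ, φ α * starRingEnd ℂ (φ α) = 1) (S : Finset (E →+* ℂ))
    (hS : ∀ φ, φ ∈ S ↔ Orb φ₀ ψ₀ φ) :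
    ∃ β : F, ψ₀ β = ∏ φ ∈ S, (φ α) ^ 2 ∧ ∀ ψ : F →+* ℂ, ψ β * starRingEnd ℂ (ψ β) = 1 := by
  obtain ⟨z, hzdef⟩ : ∃ z : ℂ, z = ∏ φ ∈ S, (φ α) ^ 2 := ⟨_, rfl⟩
  have hint : IsIntegral ℚ z := by
    rw [hzdef]
    refine IsIntegral.prod _ fun φ _ => IsIntegral.pow ?_ 2
    have h1 : IsIntegral ℚ α := Algebra.IsIntegral.isIntegral α
    exact h1.map (φ.toRatAlgHom)
  have hfix : ∀ g : ℂ ≃+* ℂ, (g : ℂ →+* ℂ).comp ψ₀ = ψ₀ → g z = z := by
    intro g hg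
    rw [hzdef, map_prod]
    refine Finset.prod_bij (fun φ _ => (g : ℂ →+* ℂ).comp φ) ?_ ?_ ?_ ?_
    · intro φ hφ
      rw [hS, orb_comp g hg]
      exact (hS φ).1 hφ
    · intro φ _ φ' _ h
      refine RingHom.ext fun x => ?_
      have h2 := RingHom.congr_fun h x
      exact g.injective h2
    · intro φ hφ
      refine ⟨((g.symm : ℂ ≃+* ℂ) : ℂ →+* ℂ).comp φ, ?_, ?_⟩
      · rw [hS, ← orb_comp g hg]
        have h2 : (g : ℂ →+* ℂ).comp (((g.symm : ℂ ≃+* ℂ) : ℂ →+* ℂ).comp φ) = φ :=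
          RingHom.ext fun x => g.apply_symm_apply _
        rw [h2]
        exact (hS φ).1 hφ
      · exact RingHom.ext fun x => g.apply_symm_apply _
    · intro φ _
      rw [map_pow]
      rfl
  obtain ⟨β, hβ⟩ := fixed_mem ψ₀ z hint hfix
  refine ⟨β, hβ.trans hzdef, fun ψ => ?_⟩
  obtain ⟨g, hg⟩ := Pool.Agent.Lib.MP_802513_ag.exists_aut₀ ψ₀ ψ
  have h1 : ψ β = ∏ φ ∈ S, ((g : ℂ →+* ℂ).comp φ α) ^ 2 := by
    rw [← hg, hβ, hzdef, map_prod]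
    exact Finset.prod_congr rfl fun φ _ => map_pow g _ _
  rw [h1, map_prod, ← Finset.prod_mul_distrib]
  refine Finset.prod_eq_one fun φ _ => ?_
  rw [map_pow, ← mul_pow, hα, one_pow]

end TSP
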