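import Mathlib

/-! The converse, file B5: a common denominator, a prime power. -/

set_option autoImplicit false

namespace TSP

/-- The images under a field embedding of integers are integers, and conversely. -/
private theorem B5_emb {F : Type} [Field F] (ψ : F →+* ℂ) {x : F} : IsIntegral ℤ (ψ x) ↔ IsIntegral ℤ x :=
  isIntegral_algHom_iff ψ.toIntAlgHom ψ.injective

set_option linter.unusedVariables false in
/-- A common denominator which is a prime power. -/
theorem exists_denom {E F : Type} [Field E] [NumberField E] [Field F] [NumberField F] (φ₀ : E →+* ℂ) (ψ₀ : F →+* ℂ)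
    (S : Finset (E →+* ℂ)) {p m : ℕ} (hp : p.Prime) (hm : 0 < m) {α : E} {β : F}
    (hα : IsIntegral ℤ ((p : E) ^ m * α)) (hβ : ψ₀ β = ∏ φ ∈ S, (φ α) ^ 2) :
    ∃ N : ℕ, IsPrimePow N ∧ IsIntegral ℤ ((N : E) * α) ∧ IsIntegral ℤ ((N : F) * β) := by
  refine ⟨p ^ (m * (2 * S.card + 1)), ?_, ?_, ?_⟩
  · exact hp.isPrimePow.pow (Nat.mul_ne_zero hm.ne' (Nat.succ_ne_zero _))
  · have h1 : ((p ^ (m * (2 * S.card + 1)) : ℕ) : E) * α = ((p : E) ^ (m * (2 * S.card))) * ((p : E) ^ m * α) := by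
      push_cast
      ring
    rw [h1]
    have hpE : IsIntegral ℤ (p : E) := by
      have h2 : (p : E) = algebraMap ℤ E (p : ℤ) := by rw [eq_intCast, Int.cast_natCast]
      rw [h2]
      exact isIntegral_algebraMap
    exact (hpE.pow _).mul hα
  · rw [← B5_emb ψ₀, map_mul, hβ, map_natCast]
    have h1 : ((p ^ (m * (2 * S.card + 1)) : ℕ) : ℂ) * ∏ φ ∈ S, (φ α) ^ 2 =
        ((p : ℂ) ^ m) * ∏ φ ∈ S, (φ ((p : E) ^ m * α)) ^ 2 := by
      have h2 : ∏ φ ∈ S, (φ ((p : E) ^ m * α)) ^ 2 = ((p : ℂ) ^ (m * 2)) ^ S.card * ∏ φ ∈ S, (φ α) ^ 2 := by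
        rw [← Finset.prod_const, ← Finset.prod_mul_distrib]
        refine Finset.prod_congr rfl fun φ _ => ?_
        rw [map_mul, map_pow, map_natCast, mul_pow, ← pow_mul]
      rw [h2, ← mul_assoc, ← pow_mul, ← pow_add]
      push_cast
      congr 2
      ring
    rw [h1]
    have hpC : IsIntegral ℤ (p : ℂ) := by
      have h2 : (p : ℂ) = algebraMap ℤ ℂ (p : ℤ) := by rw [eq_intCast, Int.cast_natCast]
      rw [h2]
      exact isIntegral_algebraMap
    refine (hpC.pow _).mul (IsIntegral.prod _ fun φ _ => ?_)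
    exact ((B5_emb φ).2 hα).pow 2

end TSP
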