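import Pool.Agent.Lib.MP_021685_agSP.SPCB1
import Pool.Agent.Lib.MP_021685_agSP.SPCB3
import Pool.Agent.Lib.MP_021685_agSP.SPCB5

/-! The converse, file C: the Weil numbers `a` and `b`. -/

set_option autoImplicit false

namespace TSP

/-- The Weil numbers `a` in `E` and `b` in `F` for `N ^ 2`, and the finite set `S` of embeddings of `E`. -/
structure Bad {E F : Type} [Field E] [NumberField E] [Field F] [NumberField F] (φ₀ : E →+* ℂ) (ψ₀ : F →+* ℂ)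
    (N : ℕ) (a : E) (b : F) (S : Finset (E →+* ℂ)) : Prop where
  hN : 0 < N
  pp : IsPrimePow N
  ha : IsIntegral ℤ a
  hb : IsIntegral ℤ b
  wa : ∀ φ : E →+* ℂ, φ a * starRingEnd ℂ (φ a) = ((N ^ 2 : ℕ) : ℂ)
  wb : ∀ ψ : F →+* ℂ, ψ b * starRingEnd ℂ (ψ b) = ((N ^ 2 : ℕ) : ℂ)
  mem : φ₀ ∈ S
  conj : ∀ φ ∈ S, (starRingEnd ℂ).comp φ ∉ S
  rel : ψ₀ b / (N : ℂ) = ∏ φ ∈ S, (φ a / (N : ℂ)) ^ 2
  ind : ∀ c : (E →+* ℂ) → ℤ, ∏ φ, (φ a / (N : ℂ)) ^ c φ = 1 → ∀ φ, c φ = c ((starRingEnd ℂ).comp φ)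

theorem exists_bad {E F : Type} [Field E] [NumberField E] [NumberField.IsCMField E] [Field F] [NumberField F]
    (φ₀ : E →+* ℂ) (ψ₀ : F →+* ℂ)
    (h : ¬ ∃ τ : ℂ ≃+* ℂ, (τ : ℂ →+* ℂ).comp φ₀ = (starRingEnd ℂ).comp φ₀ ∧ (τ : ℂ →+* ℂ).comp ψ₀ = ψ₀) :
    ∃ (N : ℕ) (a : E) (b : F) (S : Finset (E →+* ℂ)), Bad φ₀ ψ₀ N a b S := by
  classical
  obtain ⟨p, m, α, hp, hm, hαi, hα, hind⟩ := exists_alpha E
  have hS : ∀ φ, φ ∈ Finset.univ.filter (fun φ : E →+* ℂ => Orb φ₀ ψ₀ φ) ↔ Orb φ₀ ψ₀ φ := fun φ => by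
    rw [Finset.mem_filter]
    exact ⟨fun h1 => h1.2, fun h1 => ⟨Finset.mem_univ φ, h1⟩⟩
  obtain ⟨β, hβ, hβ1⟩ := exists_beta φ₀ ψ₀ α hα _ hS
  obtain ⟨N, hpp, ha, hb⟩ := exists_denom φ₀ ψ₀ _ hp hm hαi hβ
  have hN : 0 < N := hpp.pos
  have hN0 : (N : ℂ) ≠ 0 := Nat.cast_ne_zero.2 hN.ne'
  have ea : ∀ φ : E →+* ℂ, φ ((N : E) * α) / (N : ℂ) = φ α := fun φ => by
    rw [map_mul, map_natCast, mul_div_cancel_left₀ _ hN0]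
  have eb : ∀ ψ : F →+* ℂ, ψ ((N : F) * β) / (N : ℂ) = ψ β := fun ψ => by
    rw [map_mul, map_natCast, mul_div_cancel_left₀ _ hN0]
  refine ⟨N, (N : E) * α, (N : F) * β, _, hN, hpp, ha, hb, fun φ => ?_, fun ψ => ?_, (hS φ₀).2 (orb_self φ₀ ψ₀),
    fun φ hφ hφ' => ?_, ?_, fun c hc => ?_⟩
  · rw [map_mul, map_mul, map_natCast, map_natCast, Nat.cast_pow]
    linear_combination ((N : ℂ) ^ 2) * hα φ
  · rw [map_mul, map_mul, map_natCast, map_natCast, Nat.cast_pow]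
    linear_combination ((N : ℂ) ^ 2) * hβ1 ψ
  · refine orb_conj (fun h1 => h ?_) ((hS φ).1 hφ) ((hS _).1 hφ')
    obtain ⟨g, hg1, hg2⟩ := h1
    exact ⟨g, hg1, hg2⟩
  · rw [eb, hβ]
    exact Finset.prod_congr rfl fun φ _ => by rw [ea]
  · refine hind c ?_
    rw [← hc]
    exact Finset.prod_congr rfl fun φ _ => by rw [ea]

end TSP
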