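import Pool.Agent.Lib.MP_021685_agTI.TD

/-! Definition used in the statement of `MP_021685_ag`: Tate classes of even weight. -/

set_option autoImplicit false

namespace TSP

open Polynomial

/-- `TI.Full` for the Tate forms in an even number `2 n` of arguments: for every semisimple operator `F` with characteristic
polynomial `P` and for every extension degree `d > 0`, all Tate forms in `2 n` arguments (on the powers of the abelian variety,
the Tate classes of degree `2 n`) are linear combinations of products of Tate pairings. -/
def EvenFull (q : ℕ) (P : ℤ[X]) : Prop :=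
  ∀ (V : Type) [AddCommGroup V] [Module ℂ V] [FiniteDimensional ℂ V] (F : V →ₗ[ℂ] V),
    Module.End.IsSemisimple F → F.charpoly = P.map (Int.castRingHom ℂ) →
      ∀ d n : ℕ, 0 < d → ∀ T : MultilinearMap ℂ (fun _ : Fin (2 * n) => V) ℂ, TI.IsTate q d (2 * n) F T →
        T ∈ Submodule.span ℂ {T' : MultilinearMap ℂ (fun _ : Fin (2 * n) => V) ℂ | TI.IsProduct q d (2 * n) F T'}

theorem evenFull_of_full {q : ℕ} {P : ℤ[X]} (h : TI.Full q P) : EvenFull q P :=
  fun V _ _ _ F hs hc d n hd T hT => h V F hs hc d (2 * n) hd T hT

end TSP
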