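import Pool.Agent.Lib.MP_021685_agSP.SPCI

/-! The converse, file F: the families of Weil numbers. -/

set_option autoImplicit false

namespace TSP

open Polynomial

/-- The complex roots of the minimal polynomial of an integral element. -/
private theorem F_root {E : Type} [Field E] [NumberField E] {a : E} (ha : IsIntegral ℤ a) (z : ℂ) :
    aeval z (minpoly ℤ a) = 0 ↔ ∃ φ : E →+* ℂ, φ a = z := by
  have h2 : aeval z (minpoly ℤ a) = aeval z (minpoly ℚ a) := by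
    rw [minpoly.isIntegrallyClosed_eq_field_fractions' ℚ ha]
    exact (aeval_map_algebraMap ℚ z (minpoly ℤ a)).symm
  have h3 : aeval z (minpoly ℚ a) = 0 ↔ z ∈ (minpoly ℚ a).rootSet ℂ := by
    rw [mem_rootSet]
    exact ⟨fun h => ⟨minpoly.ne_zero_of_finite ℚ a, h⟩, fun h => h.2⟩
  rw [h2, h3, ← NumberField.Embeddings.range_eval_eq_rootSet_minpoly E ℂ a]
  exact Set.mem_range

/-- The product over the proofs of a proposition. -/
private theorem F_prod {M : Type*} [CommMonoid M] {P : Prop} [Decidable P] (g : PLift P → M) :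
    ∏ k, g k = if h : P then g ⟨h⟩ else 1 := by
  by_cases h : P
  · rw [dif_pos h]
    refine Finset.prod_eq_single_of_mem (⟨h⟩ : PLift P) (Finset.mem_univ _) fun k _ hk => ?_
    exact absurd rfl hk
  · rw [dif_neg h]
    refine Finset.prod_eq_one fun k _ => ?_
    exact absurd k.down h

/-- The members of the family. -/
private def F_fam {r : ℕ} {E : Fin r → Type} {i j : Fin r} (a : E i) (b : E j) (l : Fin r) :
    PLift (l = i) ⊕ PLift (l = j) → E l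
  | Sum.inl h => h.down.symm ▸ a
  | Sum.inr h => h.down.symm ▸ b

/-- A monic integral polynomial whose complex roots are the conjugates of the numbers `a i k`. -/
theorem exists_poly_fam {r : ℕ} {E : Fin r → Type} [∀ i, Field (E i)] [∀ i, NumberField (E i)] {J : Fin r → Type}
    [∀ i, Fintype (J i)] (a : ∀ i, J i → E i) (ha : ∀ i k, IsIntegral ℤ (a i k)) :
    ∃ R : ℤ[X], R.Monic ∧ ∀ z : ℂ, aeval z R = 0 ↔ ∃ (i : Fin r) (k : J i) (φ : E i →+* ℂ), φ (a i k) = z := by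
  refine ⟨∏ i, ∏ k, minpoly ℤ (a i k),
    monic_prod_of_monic _ _ fun i _ => monic_prod_of_monic _ _ fun k _ => minpoly.monic (ha i k), fun z => ?_⟩
  rw [map_prod, Finset.prod_eq_zero_iff]
  constructor
  · rintro ⟨i, -, hi⟩
    rw [map_prod, Finset.prod_eq_zero_iff] at hi
    obtain ⟨k, -, hk⟩ := hi
    obtain ⟨φ, hφ⟩ := (F_root (ha i k) z).1 hk
    exact ⟨i, k, φ, hφ⟩
  · rintro ⟨i, k, φ, hφ⟩
    refine ⟨i, Finset.mem_univ _, ?_⟩
    rw [map_prod, Finset.prod_eq_zero_iff]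
    exact ⟨k, Finset.mem_univ _, (F_root (ha i k) z).2 ⟨φ, hφ⟩⟩

/-- The family with the two members `a` (in `E i`) and `b` (in `E j`). -/
theorem exists_fam {r : ℕ} {E : Fin r → Type} [∀ i, Field (E i)] [∀ i, NumberField (E i)] {i j : Fin r}
    {φ₀ : E i →+* ℂ} {ψ₀ : E j →+* ℂ} {N : ℕ} {a : E i} {b : E j} {S : Finset (E i →+* ℂ)} (h : Bad φ₀ ψ₀ N a b S)
    (h1 : (⟨j, ψ₀⟩ : Σ i, E i →+* ℂ) ≠ ⟨i, φ₀⟩) (h2 : (⟨j, ψ₀⟩ : Σ i, E i →+* ℂ) ≠ ⟨i, (starRingEnd ℂ).comp φ₀⟩) :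
    ∃ (J : Fin r → Type) (_ : ∀ l, Fintype (J l)) (f : ∀ l, J l → E l) (k₀ : J i) (l₀ : J j),
      f i k₀ = a ∧ f j l₀ = b ∧ (∀ l k, IsIntegral ℤ (f l k)) ∧
      (∀ (l : Fin r) (k : J l) (φ : E l →+* ℂ), φ (f l k) * starRingEnd ℂ (φ (f l k)) = ((N ^ 2 : ℕ) : ℂ)) ∧
      ∀ (l : Fin r) (m : J l → ℤ), ∏ k, (f l k ^ 2 / ((N ^ 2 : ℕ) : E l)) ^ m k = 1 → ∀ k, m k = 0 := by
  refine ⟨fun l => PLift (l = i) ⊕ PLift (l = j), fun l => inferInstance, F_fam a b, Sum.inl ⟨rfl⟩, Sum.inr ⟨rfl⟩,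
    rfl, rfl, ?_, ?_, ?_⟩
  · rintro l (⟨⟨h3⟩⟩ | ⟨⟨h3⟩⟩)
    · subst h3
      exact h.ha
    · subst h3
      exact h.hb
  · rintro l (⟨⟨h3⟩⟩ | ⟨⟨h3⟩⟩) φ
    · subst h3
      exact h.wa φ
    · subst h3
      exact h.wb φ
  · intro l m hm
    rw [Fintype.prod_sum_type, F_prod, F_prod] at hm
    by_cases hi : l = i
    · by_cases hj : l = j
      · subst hi
        subst hj
        rw [dif_pos rfl, dif_pos rfl] at hm
        have h3 : ψ₀ ≠ φ₀ := fun h3 => h1 (by rw [h3])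
        have h4 : ψ₀ ≠ (starRingEnd ℂ).comp φ₀ := fun h4 => h2 (by rw [h4])
        obtain ⟨h5, h6⟩ := h.ind_ab h3 h4 _ _ hm
        rintro (⟨⟨_⟩⟩ | ⟨⟨_⟩⟩)
        · exact h5
        · exact h6
      · subst hi
        rw [dif_pos rfl, dif_neg hj, mul_one] at hm
        have h5 := h.ind_a _ hm
        rintro (⟨⟨_⟩⟩ | ⟨⟨h6⟩⟩)
        · exact h5
        · exact absurd h6 hj
    · by_cases hj : l = j
      · subst hj
        rw [dif_neg hi, dif_pos rfl, one_mul] at hm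
        have h5 := h.ind_b _ hm
        rintro (⟨⟨h6⟩⟩ | ⟨⟨_⟩⟩)
        · exact absurd h6 hi
        · exact h5
      · rintro (⟨⟨h6⟩⟩ | ⟨⟨h6⟩⟩)
        · exact absurd h6 hi
        · exact absurd h6 hj

end TSP
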