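import Pool.Agent.Lib.MP_021685_agSP.SPCC

/-! The converse, file I: the Weil numbers are independent, and there is an exotic relation. -/

set_option autoImplicit false

namespace TSP

section

variable {E F : Type} [Field E] [NumberField E] [Field F] [NumberField F] {φ₀ : E →+* ℂ} {ψ₀ : F →+* ℂ}
  {N : ℕ} {a : E} {b : F} {S : Finset (E →+* ℂ)}

private theorem I_N (h : Bad φ₀ ψ₀ N a b S) : (N : ℂ) ≠ 0 := Nat.cast_ne_zero.2 h.hN.ne'

private theorem I_a0 (h : Bad φ₀ ψ₀ N a b S) (φ : E →+* ℂ) : φ a / (N : ℂ) ≠ 0 := by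
  intro h0
  have h1 := h.wa φ
  have h2 : φ a = 0 := (div_eq_zero_iff.1 h0).resolve_right (I_N h)
  rw [h2, zero_mul] at h1
  exact Nat.cast_ne_zero.2 (pow_ne_zero 2 h.hN.ne') h1.symm

private theorem I_c0 (h : Bad φ₀ ψ₀ N a b S) : (starRingEnd ℂ).comp φ₀ ≠ φ₀ := by
  intro h0
  have h1 := h.conj φ₀ h.mem
  rw [h0] at h1
  exact h1 h.mem

private theorem I_map {E : Type} [Field E] (φ : E →+* ℂ) (a : E) (N : ℕ) (m : ℤ) :
    φ ((a ^ 2 / ((N ^ 2 : ℕ) : E)) ^ m) = (φ a / (N : ℂ)) ^ (2 * m) := by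
  rw [map_zpow₀, map_div₀, map_pow, map_natCast, zpow_mul, zpow_ofNat, div_pow, Nat.cast_pow]

open Classical in
private theorem I_single (x : (E →+* ℂ) → ℂ) (φ' : E →+* ℂ) (k : ℤ) :
    ∏ φ, (x φ) ^ (if φ = φ' then k else 0) = x φ' ^ k := by
  rw [Finset.prod_eq_single φ' (fun φ _ hφ => by rw [if_neg hφ, zpow_zero]) fun h => absurd (Finset.mem_univ _) h,
    if_pos rfl]

open Classical in
private theorem I_set (x : (E →+* ℂ) → ℂ) (S : Finset (E →+* ℂ)) (k : ℤ) :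
    ∏ φ, (x φ) ^ (if φ ∈ S then k else 0) = ∏ φ ∈ S, x φ ^ k := by
  rw [← Finset.prod_subset (Finset.subset_univ S) fun φ _ hφ => by rw [if_neg hφ, zpow_zero]]
  exact Finset.prod_congr rfl fun φ hφ => by rw [if_pos hφ]

end

section

variable {E F : Type} [Field E] [NumberField E] [Field F] [NumberField F] {φ₀ : E →+* ℂ} {ψ₀ : F →+* ℂ}
  {N : ℕ} {a : E} {b : F} {S : Finset (E →+* ℂ)}

theorem Bad.ind_a (h : Bad φ₀ ψ₀ N a b S) (m : ℤ) (hm : (a ^ 2 / ((N ^ 2 : ℕ) : E)) ^ m = 1) : m = 0 := by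
  classical
  have h1 := congrArg φ₀ hm
  rw [I_map, map_one] at h1
  have h2 := h.ind (fun φ => if φ = φ₀ then 2 * m else 0) ((I_single (fun φ => φ a / (N : ℂ)) φ₀ (2 * m)).trans h1) φ₀
  beta_reduce at h2
  rw [if_pos rfl, if_neg (I_c0 h)] at h2
  omega

theorem Bad.ind_b (h : Bad φ₀ ψ₀ N a b S) (m : ℤ) (hm : (b ^ 2 / ((N ^ 2 : ℕ) : F)) ^ m = 1) : m = 0 := by
  classical
  have h1 := congrArg ψ₀ hm
  rw [I_map, map_one, h.rel, ← Finset.prod_zpow] at h1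
  have h2 := h.ind (fun φ => if φ ∈ S then 4 * m else 0) (by
    refine (I_set (fun φ => φ a / (N : ℂ)) S (4 * m)).trans (Eq.trans ?_ h1)
    refine Finset.prod_congr rfl fun φ _ => ?_
    rw [← zpow_natCast, ← zpow_mul]
    congr 1
    push_cast
    ring) φ₀
  beta_reduce at h2
  rw [if_pos h.mem, if_neg (h.conj φ₀ h.mem)] at h2
  omega

theorem Bad.ne (h : Bad φ₀ ψ₀ N a b S) {φ : E →+* ℂ} (hφ : φ ∈ S) : φ a * φ₀ a ≠ ((N ^ 2 : ℕ) : ℂ) := by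
  classical
  intro h0
  have h1 : φ a / (N : ℂ) * (φ₀ a / (N : ℂ)) = 1 := by
    rw [div_mul_div_comm, h0, Nat.cast_pow, sq, div_self (mul_ne_zero (I_N h) (I_N h))]
  have h2 := h.ind (fun ψ => (if ψ = φ then 1 else 0) + if ψ = φ₀ then 1 else 0) (by
    rw [Finset.prod_congr rfl fun ψ _ => zpow_add₀ (I_a0 h ψ) _ _, Finset.prod_mul_distrib,
      I_single (fun φ => φ a / (N : ℂ)) φ 1, I_single (fun φ => φ a / (N : ℂ)) φ₀ 1, zpow_one, zpow_one]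
    exact h1) φ₀
  beta_reduce at h2
  have h3 : (starRingEnd ℂ).comp φ₀ ≠ φ := by
    intro h4
    have h5 := h.conj φ₀ h.mem
    rw [h4] at h5
    exact h5 hφ
  rw [if_pos rfl, if_neg h3, if_neg (I_c0 h)] at h2
  split_ifs at h2 <;> omega

theorem Bad.prod (h : Bad φ₀ ψ₀ N a b S) :
    (starRingEnd ℂ).comp ψ₀ b * ∏ φ ∈ S, (φ a) ^ 2 = (N : ℂ) ^ (1 + 2 * S.card) := by
  have hN := I_N h
  have h1 := h.rel
  rw [div_eq_iff hN] at h1
  have h2 := h.wb ψ₀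
  have h3 : ∏ φ ∈ S, (φ a / (N : ℂ)) ^ 2 = (∏ φ ∈ S, (φ a) ^ 2) / (N : ℂ) ^ (2 * S.card) := by
    rw [pow_mul, ← Finset.prod_const, ← Finset.prod_div_distrib]
    exact Finset.prod_congr rfl fun φ _ => div_pow _ _ _
  have hN2 : (N : ℂ) ^ (2 * S.card) ≠ 0 := pow_ne_zero _ hN
  rw [h3, div_mul_eq_mul_div, eq_div_iff hN2] at h1
  show starRingEnd ℂ (ψ₀ b) * ∏ φ ∈ S, (φ a) ^ 2 = (N : ℂ) ^ (1 + 2 * S.card)
  refine mul_right_cancel₀ hN ?_
  rw [mul_assoc, ← h1, ← mul_assoc, mul_comm (starRingEnd ℂ (ψ₀ b)), h2, Nat.cast_pow]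
  ring

end

/-- The case of one field. -/
theorem Bad.ind_ab {E : Type} [Field E] [NumberField E] {φ₀ ψ₀ : E →+* ℂ} {N : ℕ} {a b : E} {S : Finset (E →+* ℂ)}
    (h : Bad φ₀ ψ₀ N a b S) (h1 : ψ₀ ≠ φ₀) (h2 : ψ₀ ≠ (starRingEnd ℂ).comp φ₀) (m n : ℤ)
    (hm : (a ^ 2 / ((N ^ 2 : ℕ) : E)) ^ m * (b ^ 2 / ((N ^ 2 : ℕ) : E)) ^ n = 1) : m = 0 ∧ n = 0 := by
  classical
  have h3 := congrArg ψ₀ hm
  rw [map_mul, I_map, I_map, map_one, h.rel, ← Finset.prod_zpow] at h3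
  have h4 := h.ind (fun φ => (if φ = ψ₀ then 2 * m else 0) + if φ ∈ S then 4 * n else 0) (by
    rw [Finset.prod_congr rfl fun ψ _ => zpow_add₀ (I_a0 h ψ) _ _, Finset.prod_mul_distrib,
      I_single (fun φ => φ a / (N : ℂ)) ψ₀ (2 * m), I_set (fun φ => φ a / (N : ℂ)) S (4 * n)]
    refine Eq.trans ?_ h3
    congr 1
    refine Finset.prod_congr rfl fun φ _ => ?_
    rw [← zpow_natCast, ← zpow_mul]
    congr 1
    push_cast
    ring)
  have h5 := h4 φ₀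
  beta_reduce at h5
  rw [if_neg h1.symm, if_neg h2.symm, if_pos h.mem, if_neg (h.conj φ₀ h.mem)] at h5
  have hn : n = 0 := by omega
  subst hn
  refine ⟨?_, rfl⟩
  have h6 := h4 ψ₀
  beta_reduce at h6
  have h7 : (starRingEnd ℂ).comp ψ₀ ≠ ψ₀ := by
    intro h8
    have h9 := h.wa ψ₀
    have h10 : starRingEnd ℂ (ψ₀ a) = ψ₀ a := congrArg (fun f : E →+* ℂ => f a) h8
    rw [h10] at h9
    have h11 : a ^ 2 = ((N ^ 2 : ℕ) : E) := by
      apply ψ₀.injective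
      rw [map_pow, map_natCast, sq, h9]
    have hNE : ((N ^ 2 : ℕ) : E) ≠ 0 := Nat.cast_ne_zero.2 (pow_ne_zero 2 h.hN.ne')
    have h12 := h.ind_a 1 (by rw [h11, div_self hNE, one_zpow])
    exact one_ne_zero h12
  rw [if_pos rfl, if_neg h7, mul_zero, ite_self, ite_self] at h6
  omega

end TSP
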