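import Mathlib

/-! The converse, file M: no matching. -/

set_option autoImplicit false

namespace TSP

/-- The factors of the exotic relation, twice. -/
def zz {S : Type} (u : ℂ) (v : S → ℂ) : Option (S × Bool) × Bool → ℂ
  | (none, _) => u
  | (some (s, _), _) => v s

theorem prod_zz {S : Type} [Fintype S] (u : ℂ) (v : S → ℂ) : ∏ t, zz u v t = (u * ∏ s, (v s) ^ 2) ^ 2 := by
  have h1 : ∀ x : Option (S × Bool), ∏ y : Bool, zz u v (x, y) = (zz u v (x, true)) ^ 2 := by
    intro x
    rw [Fintype.prod_bool, pow_two]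
    rcases x with _ | ⟨s, b⟩ <;> rfl
  rw [Fintype.prod_prod_type, Finset.prod_congr rfl fun x _ => h1 x, Finset.prod_pow, Fintype.prod_option,
    Fintype.prod_prod_type]
  have h2 : ∀ s : S, ∏ b : Bool, zz u v (some (s, b), true) = (v s) ^ 2 := by
    intro s
    rw [Fintype.prod_bool, pow_two]
    rfl
  rw [Finset.prod_congr rfl fun s _ => h2 s]
  rfl

theorem no_match {S : Type} {u : ℂ} {v : S → ℂ} {Q : ℂ} (s₀ : S) (h : ∀ s, v s * v s₀ ≠ Q) {m : ℕ}
    (e : Fin m ⊕ Fin m ≃ Option (S × Bool) × Bool)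
    (he : ∀ x, zz u v (e (Sum.inl x)) * zz u v (e (Sum.inr x)) = Q) : False := by
  obtain ⟨P, hP⟩ : ∃ P : Option (S × Bool) × Bool → Option (S × Bool) × Bool, P = fun t => e ((e.symm t).swap) := ⟨_, rfl⟩
  have hinj : Function.Injective P := by
    intro t t' h1
    rw [hP] at h1
    have h2 : (e.symm t).swap = (e.symm t').swap := e.injective h1
    have h3 : e.symm t = e.symm t' := by
      rw [← Sum.swap_swap (e.symm t), h2, Sum.swap_swap]
    exact e.symm.injective h3
  have hQ : ∀ t, zz u v t * zz u v (P t) = Q := by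
    intro t
    rw [hP]
    obtain ⟨x, rfl⟩ := e.surjective t
    show zz u v (e x) * zz u v (e ((e.symm (e x)).swap)) = Q
    rw [Equiv.symm_apply_apply]
    rcases x with x | x
    · exact he x
    · rw [mul_comm]
      exact he x
  have hn : ∀ p : Bool × Bool, ∃ y, P (some (s₀, p.1), p.2) = (none, y) := by
    intro p
    have h1 := hQ (some (s₀, p.1), p.2)
    obtain ⟨t, ht⟩ : ∃ t, t = P (some (s₀, p.1), p.2) := ⟨_, rfl⟩
    rw [← ht] at h1 ⊢
    rcases t with ⟨_ | ⟨s, b⟩, y⟩
    · exact ⟨y, rfl⟩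
    · exfalso
      apply h s
      rw [mul_comm]
      exact h1
  choose f hf using hn
  have hfi : Function.Injective f := by
    intro p q hpq
    have h1 : P (some (s₀, p.1), p.2) = P (some (s₀, q.1), q.2) := by
      rw [hf, hf, hpq]
    have h2 := hinj h1
    have h3 := congrArg Prod.snd h2
    have h4 := Option.some.inj (congrArg Prod.fst h2)
    exact Prod.ext (congrArg Prod.snd h4) h3
  have h5 := Fintype.card_le_of_injective f hfi
  rw [Fintype.card_prod, Fintype.card_bool] at h5
  omega

end TSP
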