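import Pool.Agent.Lib.MP_021685_agSP.D0
import Pool.Agent.Lib.MP_021685_agSP.SPCF
import Pool.Agent.Lib.MP_021685_agSP.SPCM
import Pool.Agent.Lib.MP_021685_agSP.SPCW

/-! The converse: a family of CM fields which is not separated has exotic Tate classes. -/

set_option autoImplicit false

namespace TSP

open Polynomial

/-- `TSP.sep_of_some`, with the independence written out. -/
theorem sep_of_some' {r : ℕ} {E : Fin r → Type} [∀ i, Field (E i)] [∀ i, NumberField (E i)]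
    [∀ i, NumberField.IsCMField (E i)]
    (h : ∀ (Q : ℕ) (J : Fin r → Type) [∀ i, Fintype (J i)] (a : ∀ i, J i → E i), IsPrimePow Q →
      (∀ i k, IsIntegral ℤ (a i k)) →
      (∀ (i : Fin r) (k : J i) (φ : E i →+* ℂ), φ (a i k) * starRingEnd ℂ (φ (a i k)) = (Q : ℂ)) →
      (∀ (i : Fin r) (m : J i → ℤ), ∏ k, (a i k ^ 2 / (Q : E i)) ^ m k = 1 → ∀ k, m k = 0) →
      ∃ R : ℤ[X], R.Monic ∧ (∀ z : ℂ, aeval z R = 0 ↔ ∃ (i : Fin r) (k : J i) (φ : E i →+* ℂ), φ (a i k) = z) ∧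
        EvenFull Q R) : Sep E := by
  classical
  rintro ⟨i, φ₀⟩ ⟨j, ψ₀⟩ h1 h2
  by_contra hno
  obtain ⟨N, a, b, S, hb⟩ := exists_bad (E := E i) (F := E j) φ₀ ψ₀ hno
  obtain ⟨J, hJ, f, k₀, l₀, hfa, hfb, hint, hW, hind⟩ := exists_fam hb h1 h2
  obtain ⟨R, hR, hroot, hfull⟩ := h (N ^ 2) J f (hb.pp.pow two_ne_zero) hint hW hind
  have hu : aeval ((starRingEnd ℂ).comp ψ₀ b) R = 0 := (hroot _).2 ⟨j, l₀, (starRingEnd ℂ).comp ψ₀, by rw [hfb]⟩
  have hv : ∀ φ : E i →+* ℂ, aeval (φ a) R = 0 := fun φ => (hroot _).2 ⟨i, k₀, φ, by rw [hfa]⟩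
  obtain ⟨m, e, he⟩ := match_of_evenFull hfull hR (T := Option (S × Bool) × Bool)
    (zz ((starRingEnd ℂ).comp ψ₀ b) fun s : S => (s : E i →+* ℂ) a) (fun t => by
      rcases t with ⟨_ | ⟨s, _⟩, _⟩
      · exact hu
      · exact hv s) (n := 1 + 2 * S.card) (by
      rw [Fintype.card_prod, Fintype.card_option, Fintype.card_prod, Fintype.card_bool, Fintype.card_coe]
      ring) (by
      rw [prod_zz, Finset.prod_coe_sort S fun φ => φ a ^ 2, hb.prod, Nat.cast_pow, ← pow_mul, ← pow_mul]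
      congr 1
      ring)
  exact no_match (v := fun s : S => (s : E i →+* ℂ) a) ⟨φ₀, hb.mem⟩ (fun s => hb.ne s.2) e he

/-- `TSP.sep_of_evenFull`, with the independence written out. -/
theorem sep_of_evenFull' {r : ℕ} {E : Fin r → Type} [∀ i, Field (E i)] [∀ i, NumberField (E i)]
    [∀ i, NumberField.IsCMField (E i)]
    (h : ∀ (Q : ℕ) (J : Fin r → Type) [∀ i, Fintype (J i)] (a : ∀ i, J i → E i) (R : ℤ[X]), IsPrimePow Q → R.Monic →
      (∀ (i : Fin r) (k : J i) (φ : E i →+* ℂ), φ (a i k) * starRingEnd ℂ (φ (a i k)) = (Q : ℂ)) →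
      (∀ z : ℂ, aeval z R = 0 ↔ ∃ (i : Fin r) (k : J i) (φ : E i →+* ℂ), φ (a i k) = z) →
      (∀ (i : Fin r) (m : J i → ℤ), ∏ k, (a i k ^ 2 / (Q : E i)) ^ m k = 1 → ∀ k, m k = 0) → EvenFull Q R) : Sep E :=
  sep_of_some' fun Q J _ a hQ hint hW hi => by
    obtain ⟨R, hR, hr⟩ := exists_poly_fam a hint
    exact ⟨R, hR, hr, h Q J a R hQ hR hW hr hi⟩

end TSP
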