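import Pool.Agent.Lib.MP_021685_agSP.SPP4

/-! Separated fields, file SPP5: CM fields of degree `2 p`. -/

set_option autoImplicit false

namespace TSP

attribute [local instance] actE

/-- **A CM field of degree `2 p`, for an odd prime number `p`, which contains no imaginary quadratic field, is separated.** -/
theorem sep1_of_prime {E : Type} [Field E] [NumberField E] [NumberField.IsCMField E] {p : ℕ} (hp : p.Prime) (hp2 : p ≠ 2)
    (hd : Module.finrank ℚ E = 2 * p) (hk : ∀ (a : E) (d : ℤ), a ^ 2 = (d : E) → 0 ≤ d) : Sep1 E := by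
  intro φ ψ h1 h2
  by_contra h0
  have hX : Fintype.card (E →+* ℂ) = 2 * p := by rw [NumberField.Embeddings.card, hd]
  obtain ⟨u, hu, huc, hug⟩ := exists_block (G := ℂ ≃+* ℂ) (X := E →+* ℂ) cc (cc_comm E) (cc_cc E) (cc_ne E) (trans_emb E) hp
    hp2 hX φ ψ h1 h2 h0
  obtain ⟨a, d, ha, hd0⟩ := quadratic_of_block u φ hu huc hug
  exact absurd (hk a d ha) (not_le.2 hd0)

/-- If an automorphism which fixes all the embeddings of `E` fixes those of `F`, the closure of `F` is contained in the one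
of `E` (`S E` is the set of all conjugates of the elements of `E`). -/
theorem adjoin_le_of_fix {E F : Type} [Field E] [NumberField E] [Field F] [NumberField F]
    (h : ∀ g : ℂ ≃+* ℂ, (∀ φ : E →+* ℂ, g • φ = φ) → ∀ ψ : F →+* ℂ, g • ψ = ψ) :
    IntermediateField.adjoin ℚ {z : ℂ | ∃ (ψ : F →+* ℂ) (a : F), ψ a = z} ≤
      IntermediateField.adjoin ℚ {z : ℂ | ∃ (φ : E →+* ℂ) (a : E), φ a = z} := by
  rw [IntermediateField.adjoin_le_iff]
  rintro z ⟨ψ, a, rfl⟩
  have halg : Algebra.IsAlgebraic ℚ (IntermediateField.adjoin ℚ {z : ℂ | ∃ (φ : E →+* ℂ) (a : E), φ a = z}) := by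
    refine IntermediateField.isAlgebraic_adjoin ?_
    rintro x ⟨φ, b, rfl⟩
    exact isInt_emb φ b
  refine mem_of_fixed _ (ψ a) (isInt_emb ψ a) fun σ hσ => ?_
  have h1 := h σ (fun φ => RingHom.ext fun x => hσ (φ x) (IntermediateField.subset_adjoin ℚ _ ⟨φ, x, rfl⟩)) ψ
  exact RingHom.congr_fun h1 a

/-- **Two separated CM fields with an inseparable pair of embeddings have the same Galois closure.** -/
theorem adjoin_eq_of_not {E F : Type} [Field E] [NumberField E] [NumberField.IsCMField E] [Field F] [NumberField F]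
    [NumberField.IsCMField F] (hE : Sep1 E) (hF : Sep1 F) (φ : E →+* ℂ) (ψ : F →+* ℂ)
    (h0 : ¬ ∃ τ : ℂ ≃+* ℂ, (τ : ℂ →+* ℂ).comp φ = (starRingEnd ℂ).comp φ ∧ (τ : ℂ →+* ℂ).comp ψ = ψ) :
    IntermediateField.adjoin ℚ {z : ℂ | ∃ (φ : E →+* ℂ) (a : E), φ a = z} =
      IntermediateField.adjoin ℚ {z : ℂ | ∃ (ψ : F →+* ℂ) (a : F), ψ a = z} := by
  refine le_antisymm (adjoin_le_of_fix fun n hn x => ?_) (adjoin_le_of_fix fun n hn y => ?_)
  · refine fix_of_rel (X := F →+* ℂ) (Y := E →+* ℂ) cc ψ φ (cc_comm F) (cc_cc F) (cc_cc E) (trans_emb E) hE ?_ n hn x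
    rintro ⟨g, h1, h2⟩
    refine h0 ⟨cc * g, ?_, ?_⟩
    · change (cc * g) • φ = cc • φ
      rw [mul_smul, h2]
    · change (cc * g) • ψ = ψ
      rw [mul_smul, h1, cc_cc]
  · exact fix_of_rel (X := E →+* ℂ) (Y := F →+* ℂ) cc φ ψ (cc_comm E) (cc_cc E) (cc_cc F) (trans_emb F) hF h0 n hn y

end TSP
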