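import Pool.Agent.Lib.MP_021685_agTAL.AD
import Pool.Agent.Lib.MP_021685_agSP.SPP5

/-! Separated fields, file SPP: separated fields with different Galois closures. -/

set_option autoImplicit false

namespace TSP

/-- **Two separated CM fields with different Galois closures can be separated.** -/
theorem cross_of_closure {E F : Type} [Field E] [NumberField E] [NumberField.IsCMField E] [Field F] [NumberField F]
    [NumberField.IsCMField F] (hE : Sep1 E) (hF : Sep1 F) (h : TAL.galClosure E ≠ TAL.galClosure F) (φ : E →+* ℂ)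
    (ψ : F →+* ℂ) :
    ∃ τ : ℂ ≃+* ℂ, (τ : ℂ →+* ℂ).comp φ = (starRingEnd ℂ).comp φ ∧ (τ : ℂ →+* ℂ).comp ψ = ψ := by
  by_contra h0
  exact h (adjoin_eq_of_not hE hF φ ψ h0)

end TSP
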