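import Mathlib

/-! Separated fields, file SPP1: the relation between two embeddings which cannot be separated, for a group `G` which acts on
two sets `X` and `Y`, and an element `c` of `G` (the complex conjugation) which commutes with all of `G` on `X` and `Y`. -/

set_option autoImplicit false

namespace TSP

section

variable {G X Y : Type*} [Group G] [MulAction G X] [MulAction G Y]

open scoped Classical in
/-- The indicator of a proposition. -/
noncomputable def ind (P : Prop) : ℚ := if P then 1 else 0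

theorem ind_pos {P : Prop} (h : P) : ind P = 1 := if_pos h

theorem ind_neg {P : Prop} (h : ¬ P) : ind P = 0 := if_neg h

/-- The relation: `1` on the pairs conjugate to `(x0, y0)`, `-1` on the pairs `(x, y)` with `(c x, y)` conjugate to
`(x0, y0)`. -/
noncomputable def rel (c : G) (x0 : X) (y0 : Y) (x : X) (y : Y) : ℚ :=
  ind (∃ g : G, g • x0 = x ∧ g • y0 = y) - ind (∃ g : G, g • x0 = c • x ∧ g • y0 = y)

variable (c : G) (x0 : X) (y0 : Y)

theorem rel_smul (hcX : ∀ (g : G) (x : X), g • c • x = c • g • x) (g : G) (x : X) (y : Y) :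
    rel c x0 y0 (g • x) (g • y) = rel c x0 y0 x y := by
  have h1 : (∃ k : G, k • x0 = g • x ∧ k • y0 = g • y) ↔ (∃ k : G, k • x0 = x ∧ k • y0 = y) := by
    constructor
    · rintro ⟨k, h1, h2⟩
      exact ⟨g⁻¹ * k, by rw [mul_smul, h1, inv_smul_smul], by rw [mul_smul, h2, inv_smul_smul]⟩
    · rintro ⟨k, h1, h2⟩
      exact ⟨g * k, by rw [mul_smul, h1], by rw [mul_smul, h2]⟩
  have h2 : (∃ k : G, k • x0 = c • g • x ∧ k • y0 = g • y) ↔ (∃ k : G, k • x0 = c • x ∧ k • y0 = y) := by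
    constructor
    · rintro ⟨k, h1, h2⟩
      exact ⟨g⁻¹ * k, by rw [mul_smul, h1, ← hcX, inv_smul_smul], by rw [mul_smul, h2, inv_smul_smul]⟩
    · rintro ⟨k, h1, h2⟩
      exact ⟨g * k, by rw [mul_smul, h1, hcX], by rw [mul_smul, h2]⟩
  unfold rel
  rw [propext h1, propext h2]

theorem rel_left (hc2X : ∀ x : X, c • c • x = x) (x : X) (y : Y) :
    rel c x0 y0 (c • x) y = - rel c x0 y0 x y := by
  unfold rel
  rw [hc2X]
  ring

theorem rel_right (hc2X : ∀ x : X, c • c • x = x) (hc2Y : ∀ y : Y, c • c • y = y) (x : X) (y : Y) :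
    rel c x0 y0 x (c • y) = - rel c x0 y0 x y := by
  have h1 : (∃ k : G, k • x0 = x ∧ k • y0 = c • y) ↔ (∃ k : G, k • x0 = c • x ∧ k • y0 = y) := by
    constructor
    · rintro ⟨k, h1, h2⟩
      exact ⟨c * k, by rw [mul_smul, h1], by rw [mul_smul, h2, hc2Y]⟩
    · rintro ⟨k, h1, h2⟩
      exact ⟨c * k, by rw [mul_smul, h1, hc2X], by rw [mul_smul, h2]⟩
  have h2 : (∃ k : G, k • x0 = c • x ∧ k • y0 = c • y) ↔ (∃ k : G, k • x0 = x ∧ k • y0 = y) := by
    constructor
    · rintro ⟨k, h1, h2⟩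
      exact ⟨c * k, by rw [mul_smul, h1, hc2X], by rw [mul_smul, h2, hc2Y]⟩
    · rintro ⟨k, h1, h2⟩
      exact ⟨c * k, by rw [mul_smul, h1], by rw [mul_smul, h2]⟩
  unfold rel
  rw [propext h1, propext h2]
  ring

theorem rel_self (h0 : ¬ ∃ g : G, g • x0 = c • x0 ∧ g • y0 = y0) : rel c x0 y0 x0 y0 = 1 := by
  unfold rel
  rw [ind_neg h0, ind_pos ⟨1, one_smul _ _, one_smul _ _⟩]
  ring

theorem rel_diag (hcX : ∀ (g : G) (x : X), g • c • x = c • g • x) (hc2X : ∀ x : X, c • c • x = x) (x0 y0 : X)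
    (h1 : y0 ≠ x0) (h2 : y0 ≠ c • x0) (x : X) : rel c x0 y0 x x = 0 := by
  have h3 : ¬ ∃ k : G, k • x0 = x ∧ k • y0 = x := by
    rintro ⟨k, h3, h4⟩
    exact h1 (smul_left_cancel k (h4.trans h3.symm))
  have h4 : ¬ ∃ k : G, k • x0 = c • x ∧ k • y0 = x := by
    rintro ⟨k, h3, h4⟩
    refine h2 (smul_left_cancel k ?_)
    rw [h4, hcX, h3, hc2X]
  unfold rel
  rw [ind_neg h3, ind_neg h4]
  ring

/-- If `(x0, y0)` is not separated, and the points of `Y` are, an element of `G` which fixes all the points of `X` fixes all the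
points of `Y`. -/
theorem fix_of_rel (hcX : ∀ (g : G) (x : X), g • c • x = c • g • x)
    (hc2X : ∀ x : X, c • c • x = x) (hc2Y : ∀ y : Y, c • c • y = y)
    (htY : ∀ y y' : Y, ∃ g : G, g • y = y')
    (hY : ∀ y y' : Y, y' ≠ y → y' ≠ c • y → ∃ g : G, g • y = c • y ∧ g • y' = y')
    (h0 : ¬ ∃ g : G, g • x0 = c • x0 ∧ g • y0 = y0) (n : G) (hn : ∀ x : X, n • x = x) (y : Y) : n • y = y := by
  -- no function `rel (·) y` is zero
  have hnz : ∃ x : X, rel c x0 y0 x y ≠ 0 := by
    obtain ⟨g, rfl⟩ := htY y0 y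
    refine ⟨g • x0, ?_⟩
    rw [rel_smul c x0 y0 hcX, rel_self c x0 y0 h0]
    exact one_ne_zero
  obtain ⟨x, hx⟩ := hnz
  -- `rel (·) (n y) = rel (·) y`
  have hinv : ∀ x : X, rel c x0 y0 x (n • y) = rel c x0 y0 x y := fun x => by
    conv_lhs => rw [← hn x]
    exact rel_smul c x0 y0 hcX n x y
  by_contra hne
  by_cases hcy : n • y = c • y
  · have h1 := hinv x
    rw [hcy, rel_right c x0 y0 hc2X hc2Y] at h1
    exact hx (by linarith)
  · obtain ⟨g, hg1, hg2⟩ := hY y (n • y) hne hcy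
    have h1 : rel c x0 y0 (g • x) (c • y) = rel c x0 y0 x y := by
      rw [← hg1]
      exact rel_smul c x0 y0 hcX g x y
    have h2 : rel c x0 y0 (g • x) (n • y) = rel c x0 y0 x (n • y) := by
      conv_lhs => rw [← hg2]
      exact rel_smul c x0 y0 hcX g x (n • y)
    rw [rel_right c x0 y0 hc2X hc2Y] at h1
    rw [hinv, hinv] at h2
    exact hx (by linarith)

end

end TSP
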