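import Pool.Agent.Lib.MP_021685_agSP.D0

/-! A separated CM field of degree more than `2` contains no imaginary quadratic field. -/

set_option autoImplicit false

namespace TSP

/-- **A separated field of degree more than `2` contains no square root of a negative integer.** -/
theorem Sep1.nonneg {E : Type} [Field E] [NumberField E] (h : Sep1 E) (hd : 2 < Module.finrank ℚ E) (a : E) (d : ℤ)
    (had : a ^ 2 = (d : E)) : 0 ≤ d := by
  by_contra hneg
  push Not at hneg
  have hcard : Fintype.card (E →+* ℂ) = Module.finrank ℚ E := NumberField.Embeddings.card E ℂ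
  have hne : Nonempty (E →+* ℂ) := by
    apply Fintype.card_pos_iff.1
    omega
  obtain ⟨x⟩ := hne
  classical
  have hy : ∃ y : E →+* ℂ, y ∉ ({x, (starRingEnd ℂ).comp x} : Finset (E →+* ℂ)) := by
    by_contra hy
    push Not at hy
    have h1 : Fintype.card (E →+* ℂ) ≤ ({x, (starRingEnd ℂ).comp x} : Finset (E →+* ℂ)).card := by
      rw [← Finset.card_univ]
      exact Finset.card_le_card fun y _ => hy y
    have h2 : ({x, (starRingEnd ℂ).comp x} : Finset (E →+* ℂ)).card ≤ 2 := Finset.card_le_two
    omega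
  obtain ⟨y, hy⟩ := hy
  rw [Finset.mem_insert, Finset.mem_singleton, not_or] at hy
  obtain ⟨τ, h1, h2⟩ := h x y hy.1 hy.2
  have h3 : τ (x a) = (starRingEnd ℂ) (x a) := RingHom.congr_fun h1 a
  have h4 : τ (y a) = y a := RingHom.congr_fun h2 a
  have h5 : x a ^ 2 = (d : ℂ) := by rw [← map_pow, had, map_intCast]
  have h6 : y a ^ 2 = (d : ℂ) := by rw [← map_pow, had, map_intCast]
  have h7 : τ (x a) = x a := by
    rcases sq_eq_sq_iff_eq_or_eq_neg.1 (h6.trans h5.symm) with h8 | h8
    · rw [h8] at h4
      exact h4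
    · rw [h8, map_neg] at h4
      exact neg_injective h4
  obtain ⟨s, hs⟩ := Complex.conj_eq_iff_real.1 (h3.symm.trans h7)
  rw [hs] at h5
  have h8 : s ^ 2 = (d : ℝ) := by exact_mod_cast h5
  have h9 : (d : ℝ) < 0 := by exact_mod_cast hneg
  nlinarith [sq_nonneg s]

end TSP
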