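import Pool.Agent.Lib.MP_802513_agHI.H2

/-! An automorphism which changes one embedding of a field to its conjugate and fixes an embedding of another field: square criterion. -/

set_option autoImplicit false

namespace TSP

open NumberField

private theorem T1_im {w : ℂ} {r : ℝ} (hr : r < 0) (hw : w ^ 2 = (r : ℂ)) : w.re = 0 := by
  have h1 := congrArg Complex.re hw
  have h2 := congrArg Complex.im hw
  simp only [pow_two, Complex.mul_re, Complex.mul_im, Complex.ofReal_re, Complex.ofReal_im] at h1 h2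
  have h3 : w.re * w.im = 0 := by linarith
  rcases mul_eq_zero.1 h3 with h4 | h4
  · exact h4
  · exfalso
    rw [h4] at h1
    nlinarith [mul_self_nonneg w.re]

private theorem T1_conj {w : ℂ} {r : ℝ} (hr : r < 0) (hw : w ^ 2 = (r : ℂ)) : (starRingEnd ℂ) w = - w := by
  have h1 := T1_im hr hw
  apply Complex.ext
  · rw [Complex.conj_re, Complex.neg_re, h1, neg_zero]
  · rw [Complex.conj_im, Complex.neg_im]

private theorem T1_form {F F' E' : Type} [Field F] [Field F'] [Field E'] {ι' : F' →+* E'} {a' : F'} {x' : E'}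
    (hx' : x' ^ 2 = ι' a') (hs' : ∀ y : E', ∃ u v : F', y = ι' u + ι' v * x') {ψ : E' →+* ℂ} {s : F →+* ℝ}
    {t : F' →+* ℝ} (h' : ∀ u, ψ (ι' u) = (t u : ℂ)) (ha' : t a' < 0) (w : ℂ)
    (hw : w ∈ IntermediateField.adjoin ℚ (Set.range (fun u : F => ((s u : ℝ) : ℂ)) ∪ Set.range ψ)) :
    ∃ u ∈ Subfield.closure (Set.range s ∪ Set.range t), ∃ v ∈ Subfield.closure (Set.range s ∪ Set.range t),
      w = (u : ℂ) + (v : ℂ) * ψ x' := by
  have hsq : ψ x' * ψ x' = ((t a' : ℝ) : ℂ) := by
    rw [← pow_two, ← map_pow, hx', h']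
  have hta : t a' ∈ Subfield.closure (Set.range s ∪ Set.range t) :=
    Subfield.subset_closure (Or.inr ⟨a', rfl⟩)
  induction hw using IntermediateField.adjoin_induction with
  | mem w hw =>
    rcases hw with ⟨u, rfl⟩ | ⟨y, rfl⟩
    · refine ⟨s u, Subfield.subset_closure (Or.inl ⟨u, rfl⟩), 0, Subfield.zero_mem _, ?_⟩
      simp
    · obtain ⟨u, v, hy⟩ := hs' y
      refine ⟨t u, Subfield.subset_closure (Or.inr ⟨u, rfl⟩), t v, Subfield.subset_closure (Or.inr ⟨v, rfl⟩), ?_⟩
      rw [hy, map_add, map_mul, h', h']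
  | algebraMap c =>
    refine ⟨(c : ℝ), ?_, 0, Subfield.zero_mem _, ?_⟩
    · exact SubfieldClass.ratCast_mem _ c
    · simp
  | add w1 w2 _ _ h1 h2 =>
    obtain ⟨u1, hu1, v1, hv1, e1⟩ := h1
    obtain ⟨u2, hu2, v2, hv2, e2⟩ := h2
    refine ⟨u1 + u2, Subfield.add_mem _ hu1 hu2, v1 + v2, Subfield.add_mem _ hv1 hv2, ?_⟩
    rw [e1, e2]
    push_cast
    ring
  | inv w _ h1 =>
    obtain ⟨u, hu, v, hv, e1⟩ := h1
    have hD : u * u - v * v * t a' ∈ Subfield.closure (Set.range s ∪ Set.range t) :=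
      Subfield.sub_mem _ (Subfield.mul_mem _ hu hu) (Subfield.mul_mem _ (Subfield.mul_mem _ hv hv) hta)
    refine ⟨u / (u * u - v * v * t a'), Subfield.div_mem _ hu hD, - v / (u * u - v * v * t a'),
      Subfield.div_mem _ (Subfield.neg_mem _ hv) hD, ?_⟩
    by_cases h0 : u * u - v * v * t a' = 0
    · have hu0 : u = 0 := by
        by_contra hne
        have := mul_self_pos.2 hne
        nlinarith [mul_nonneg (mul_self_nonneg v) (neg_nonneg.2 ha'.le)]
      have hv0 : v = 0 := by
        by_contra hne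
        have := mul_self_pos.2 hne
        nlinarith [mul_pos this (neg_pos.2 ha'), mul_self_nonneg u]
      rw [e1, hu0, hv0]
      simp
    · have h0C : ((u : ℂ) * u - v * v * ((t a' : ℝ) : ℂ)) ≠ 0 := by
        intro h1
        apply h0
        have h2 : (((u * u - v * v * t a' : ℝ)) : ℂ) = 0 := by
          push_cast
          exact h1
        exact_mod_cast h2
      have h3 : w * ((u : ℂ) - v * ψ x') = (u : ℂ) * u - v * v * ((t a' : ℝ) : ℂ) := by
        rw [e1, ← hsq]
        ring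
      have hw0 : w ≠ 0 := by
        intro h4
        rw [h4, zero_mul] at h3
        exact h0C h3.symm
      have h5 : w⁻¹ = ((u : ℂ) - v * ψ x') / ((u : ℂ) * u - v * v * ((t a' : ℝ) : ℂ)) := by
        rw [eq_div_iff h0C, ← h3]
        field_simp
      rw [h5]
      push_cast
      ring
  | mul w1 w2 _ _ h1 h2 =>
    obtain ⟨u1, hu1, v1, hv1, e1⟩ := h1
    obtain ⟨u2, hu2, v2, hv2, e2⟩ := h2
    refine ⟨u1 * u2 + v1 * v2 * t a',
      Subfield.add_mem _ (Subfield.mul_mem _ hu1 hu2) (Subfield.mul_mem _ (Subfield.mul_mem _ hv1 hv2) hta),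
      u1 * v2 + v1 * u2, Subfield.add_mem _ (Subfield.mul_mem _ hu1 hv2) (Subfield.mul_mem _ hv1 hu2), ?_⟩
    rw [e1, e2]
    push_cast
    rw [← hsq]
    ring

theorem swap_iff_sq {F F' E E' : Type} [Field F] [NumberField F] [Field F'] [NumberField F'] [Field E] [NumberField E]
    [Field E'] [NumberField E'] {ι : F →+* E} {ι' : F' →+* E'} {a : F} {a' : F'} {x : E} {x' : E'} (hx : x ^ 2 = ι a)
    (hx' : x' ^ 2 = ι' a') (hs : ∀ y : E, ∃ u v : F, y = ι u + ι v * x) (hs' : ∀ y : E', ∃ u v : F', y = ι' u + ι' v * x')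
    {φ : E →+* ℂ} {ψ : E' →+* ℂ} {s : F →+* ℝ} {t : F' →+* ℝ} (h : ∀ u, φ (ι u) = (s u : ℂ)) (h' : ∀ u, ψ (ι' u) = (t u : ℂ))
    (ha : s a < 0) (ha' : t a' < 0) :
    (∃ τ : ℂ ≃+* ℂ, (τ : ℂ →+* ℂ).comp φ = (starRingEnd ℂ).comp φ ∧ (τ : ℂ →+* ℂ).comp ψ = ψ) ↔
      ∀ z ∈ Subfield.closure (Set.range s ∪ Set.range t), z ^ 2 ≠ s a * t a' := by
  have hφx : φ x ^ 2 = ((s a : ℝ) : ℂ) := by rw [← map_pow, hx, h]
  have hψx : ψ x' ^ 2 = ((t a' : ℝ) : ℂ) := by rw [← map_pow, hx', h']
  have hcφ := T1_conj ha hφx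
  constructor
  · rintro ⟨τ, h1, h2⟩ z hz hzz
    have hfix : ∀ z ∈ Subfield.closure (Set.range s ∪ Set.range t), τ (z : ℂ) = (z : ℂ) := by
      intro z hz
      induction hz using Subfield.closure_induction with
      | mem w hw =>
        rcases hw with ⟨u, rfl⟩ | ⟨u, rfl⟩
        · have h3 := RingHom.congr_fun h1 (ι u)
          have h4 : τ (φ (ι u)) = (starRingEnd ℂ) (φ (ι u)) := h3
          rw [h, Complex.conj_ofReal] at h4
          exact h4
        · have h3 := RingHom.congr_fun h2 (ι' u)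
          have h4 : τ (ψ (ι' u)) = ψ (ι' u) := h3
          rw [h'] at h4
          exact h4
      | one => simp
      | add a b _ _ h3 h4 => push_cast; rw [map_add, h3, h4]
      | neg a _ h3 => push_cast; rw [map_neg, h3]
      | inv a _ h3 => push_cast; rw [map_inv₀, h3]
      | mul a b _ _ h3 h4 => push_cast; rw [map_mul, h3, h4]
    have hτφ : τ (φ x) = - φ x := by
      have h3 : τ (φ x) = (starRingEnd ℂ) (φ x) := RingHom.congr_fun h1 x
      rw [h3, hcφ]
    have hτψ : τ (ψ x') = ψ x' := RingHom.congr_fun h2 x'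
    have h5 : ((z : ℂ) - φ x * ψ x') * ((z : ℂ) + φ x * ψ x') = 0 := by
      have h6 : ((z : ℂ)) ^ 2 = ((s a : ℝ) : ℂ) * ((t a' : ℝ) : ℂ) := by
        rw [← Complex.ofReal_pow, hzz, Complex.ofReal_mul]
      have h7 : ((z : ℂ) - φ x * ψ x') * ((z : ℂ) + φ x * ψ x') = (z : ℂ) ^ 2 - φ x ^ 2 * ψ x' ^ 2 := by ring
      rw [h7, h6, hφx, hψx, sub_self]
    have h8 : (z : ℂ) = - (z : ℂ) := by
      rcases mul_eq_zero.1 h5 with h6 | h6
      · have h7 : (z : ℂ) = φ x * ψ x' := sub_eq_zero.1 h6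
        have h9 := hfix z hz
        rw [h7, map_mul, hτφ, hτψ] at h9
        rw [h7]
        linear_combination (-1 : ℂ) * h9
      · have h7 : (z : ℂ) = - (φ x * ψ x') := eq_neg_of_add_eq_zero_left h6
        have h9 := hfix z hz
        rw [h7, map_neg, map_mul, hτφ, hτψ] at h9
        rw [h7]
        linear_combination (-1 : ℂ) * h9
    have h9 : (z : ℂ) = 0 := by
      have : (2 : ℂ) * z = 0 := by linear_combination h8
      rcases mul_eq_zero.1 this with h10 | h10
      · exact absurd h10 two_ne_zero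
      · exact h10
    have h10 : z = 0 := by exact_mod_cast h9
    rw [h10] at hzz
    have h11 := mul_pos_of_neg_of_neg ha ha'
    rw [← hzz] at h11
    simp at h11
  · intro hN
    set M := IntermediateField.adjoin ℚ (Set.range (fun u : F => ((s u : ℝ) : ℂ)) ∪ Set.range ψ) with hM
    have hMalg : Algebra.IsAlgebraic ℚ M := by
      refine IntermediateField.isAlgebraic_adjoin fun y hy => ?_
      rcases hy with ⟨u, rfl⟩ | ⟨y, rfl⟩
      · have h1 := (Algebra.IsIntegral.isIntegral (R := ℚ) (ι u)).map (RingHom.toRatAlgHom φ)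
        have h2 : (RingHom.toRatAlgHom φ) (ι u) = ((s u : ℝ) : ℂ) := h u
        rw [h2] at h1
        exact h1
      · exact (Algebra.IsIntegral.isIntegral (R := ℚ) y).map (RingHom.toRatAlgHom ψ)
    have hsM : ∀ u : F, ((s u : ℝ) : ℂ) ∈ M := fun u => IntermediateField.subset_adjoin ℚ _ (Or.inl ⟨u, rfl⟩)
    have hψM : ∀ y : E', ψ y ∈ M := fun y => IntermediateField.subset_adjoin ℚ _ (Or.inr ⟨y, rfl⟩)
    have hnot : φ x ∉ M := by
      intro hmem
      obtain ⟨u, hu, v, hv, e⟩ := T1_form hx' hs' h' ha' (φ x) hmem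
      have hre := congrArg Complex.re e
      have hu0 : u = 0 := by
        have h1 := T1_im ha hφx
        have h2 := T1_im ha' hψx
        rw [h1] at hre
        simp [h2] at hre
        exact hre.symm
      rw [hu0, Complex.ofReal_zero, zero_add] at e
      have hta : t a' ∈ Subfield.closure (Set.range s ∪ Set.range t) :=
        Subfield.subset_closure (Or.inr ⟨a', rfl⟩)
      refine hN (v * t a') (Subfield.mul_mem _ hv hta) ?_
      have h3 : ((s a : ℝ) : ℂ) = (v : ℂ) ^ 2 * ((t a' : ℝ) : ℂ) := by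
        rw [← hφx, e, mul_pow, hψx]
      have h4 : s a = v ^ 2 * t a' := by exact_mod_cast h3
      rw [h4]
      ring
    let c : M := ⟨((s a : ℝ) : ℂ), hsM a⟩
    let P : Polynomial M := Polynomial.X ^ 2 - Polynomial.C c
    have hPd : P.natDegree = 2 := Polynomial.natDegree_X_pow_sub_C
    have hPm : P.Monic := Polynomial.monic_X_pow_sub_C c two_ne_zero
    have haP : ∀ z : ℂ, Polynomial.aeval z P = z ^ 2 - ((s a : ℝ) : ℂ) := by
      intro z
      simp only [P, map_sub, map_pow, Polynomial.aeval_X, Polynomial.aeval_C]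
      rfl
    have hzP : Polynomial.aeval (φ x) P = 0 := by rw [haP, hφx, sub_self]
    have hint : IsIntegral M (φ x) := ⟨P, hPm, by rw [← Polynomial.aeval_def]; exact hzP⟩
    have hmin : minpoly M (φ x) = P := by
      refine (Polynomial.eq_of_monic_of_dvd_of_natDegree_le (minpoly.monic hint) hPm
        (minpoly.dvd M (φ x) hzP) ?_).symm
      rw [hPd]
      by_contra hlt
      have h1 : (minpoly M (φ x)).natDegree = 1 := by
        have := minpoly.natDegree_pos hint
        omega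
      have h2 := minpoly.mem_range_of_degree_eq_one M (φ x) (by
        rw [Polynomial.degree_eq_natDegree (minpoly.ne_zero hint), h1]; rfl)
      obtain ⟨y, hy⟩ := h2
      apply hnot
      rw [← hy]
      exact y.2
    obtain ⟨τ, h1, h2⟩ := HI.exists_aut_of_root M (φ x) (- φ x) hint (by
      rw [hmin, haP, neg_sq, hφx, sub_self])
    refine ⟨τ, ?_, ?_⟩
    · refine RingHom.ext fun y => ?_
      obtain ⟨u, v, hy⟩ := hs y
      show τ (φ y) = (starRingEnd ℂ) (φ y)
      rw [hy]
      simp only [map_add, map_mul, h, Complex.conj_ofReal]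
      rw [h2 _ (hsM u), h2 _ (hsM v), h1, hcφ]
    · refine RingHom.ext fun y => ?_
      exact h2 _ (hψM y)

end TSP
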