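import Pool.Agent.Lib.MP_021685_agSP.D0
import Pool.Agent.Lib.MP_021685_agSP.T1

/-! The fields `F i (√(a i))`: the families of fields with the property `Sep`. -/

set_option autoImplicit false

namespace TSP

open NumberField Module

section

variable {F E : Type} [Field F] [Field E]

private theorem T4_real [IsTotallyReal F] (ι : F →+* E) (φ : E →+* ℂ) : ∃ s : F →+* ℝ, ∀ u, φ (ι u) = (s u : ℂ) := by
  have h : ComplexEmbedding.IsReal (φ.comp ι) := IsTotallyReal.complexEmbedding_isReal _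
  exact ⟨h.embedding, fun u => (h.coe_embedding_apply u).symm⟩

private theorem T4_ext [NumberField F] [NumberField E] (ι : F →+* E) (s : F →+* ℝ) : ∃ φ : E →+* ℂ, ∀ u, φ (ι u) = (s u : ℂ) := by
  let _ : Algebra F E := ι.toAlgebra
  let _ : Algebra F ℂ := (Complex.ofRealHom.comp s).toAlgebra
  have h1 : Algebra.IsAlgebraic F E := by
    have h2 : IsScalarTower ℚ F E := IsScalarTower.of_algebraMap_eq fun q => by
      rw [eq_ratCast, eq_ratCast, map_ratCast]
    exact Algebra.IsAlgebraic.tower_top (K := ℚ) F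
  let f : E →ₐ[F] ℂ := IsAlgClosed.lift
  exact ⟨f.toRingHom, fun u => f.commutes u⟩

private theorem T4_two {ι : F →+* E} {a : F} {x : E} (hx : x ^ 2 = ι a) (hs : ∀ y : E, ∃ u v : F, y = ι u + ι v * x)
    {φ ψ : E →+* ℂ} {s : F →+* ℝ} (h : ∀ u, φ (ι u) = (s u : ℂ)) (h' : ∀ u, ψ (ι u) = (s u : ℂ)) (ha : s a < 0) :
    ψ = φ ∨ ψ = (starRingEnd ℂ).comp φ := by
  have h1 : φ x ^ 2 = (s a : ℂ) := by rw [← map_pow, hx, h]
  have h2 : ψ x ^ 2 = (s a : ℂ) := by rw [← map_pow, hx, h']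
  have h3 : (starRingEnd ℂ) (φ x) = - φ x := by
    have h4 : (starRingEnd ℂ) (φ x) ^ 2 = (s a : ℂ) := by rw [← map_pow, h1, Complex.conj_ofReal]
    rcases sq_eq_sq_iff_eq_or_eq_neg.1 (h4.trans h1.symm) with h5 | h5
    · exfalso
      obtain ⟨r, hr⟩ := Complex.conj_eq_iff_real.1 h5
      rw [hr] at h1
      have h6 : r ^ 2 = s a := by exact_mod_cast h1
      have := sq_nonneg r
      linarith
    · exact h5
  rcases sq_eq_sq_iff_eq_or_eq_neg.1 (h2.trans h1.symm) with h4 | h4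
  · left
    ext y
    obtain ⟨u, v, rfl⟩ := hs y
    rw [map_add, map_mul, map_add, map_mul, h, h, h', h', h4]
  · right
    ext y
    obtain ⟨u, v, rfl⟩ := hs y
    show ψ (ι u + ι v * x) = (starRingEnd ℂ) (φ (ι u + ι v * x))
    rw [map_add, map_mul, map_add, map_mul, h, h, h', h', h4, map_add, map_mul, Complex.conj_ofReal, Complex.conj_ofReal, h3]

end

/-- **The fields `F i (√(a i))`**, `F i` totally real, `a i` totally negative: they have the property `Sep` if and only if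
for any two different embeddings `s`, `t` in `ℝ` of the fields `F i` (of the same field or of two of them) the product of the
values of the `a i` is not a square in the compositum of the images. -/
theorem sep_iff_sq {r : ℕ} (F E : Fin r → Type) [∀ i, Field (F i)] [∀ i, NumberField (F i)] [∀ i, IsTotallyReal (F i)]
    [∀ i, Field (E i)] [∀ i, NumberField (E i)] (a : ∀ i, F i) (ι : ∀ i, F i →+* E i) (x : ∀ i, E i)
    (hx : ∀ i, x i ^ 2 = ι i (a i)) (hs : ∀ i (y : E i), ∃ u v : F i, y = ι i u + ι i v * x i)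
    (ha : ∀ i (s : F i →+* ℝ), s (a i) < 0) :
    Sep E ↔ ∀ s t : (Σ i, F i →+* ℝ), s ≠ t → ∀ z ∈ Subfield.closure (Set.range s.2 ∪ Set.range t.2),
      z ^ 2 ≠ s.2 (a s.1) * t.2 (a t.1) := by
  constructor
  · rintro h ⟨i, s⟩ ⟨j, t⟩ hst
    obtain ⟨φ, hφ⟩ := T4_ext (ι i) s
    obtain ⟨ψ, hψ⟩ := T4_ext (ι j) t
    refine (swap_iff_sq (hx i) (hx j) (hs i) (hs j) hφ hψ (ha i s) (ha j t)).1
      (h ⟨i, φ⟩ ⟨j, ψ⟩ (fun h1 => hst ?_) (fun h1 => hst ?_))
    · obtain ⟨rfl, h2⟩ := Sigma.mk.inj h1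
      have h3 := eq_of_heq h2
      refine Sigma.ext rfl (heq_of_eq (RingHom.ext fun u => ?_))
      have h4 : (s u : ℂ) = (t u : ℂ) := by rw [← hφ, ← hψ, h3]
      exact_mod_cast h4
    · obtain ⟨rfl, h2⟩ := Sigma.mk.inj h1
      have h3 := eq_of_heq h2
      refine Sigma.ext rfl (heq_of_eq (RingHom.ext fun u => ?_))
      have h4 : (s u : ℂ) = (t u : ℂ) := by
        rw [← hψ, h3]
        show (s u : ℂ) = (starRingEnd ℂ) (φ (ι j u))
        rw [hφ, Complex.conj_ofReal]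
      exact_mod_cast h4
  · rintro h ⟨i, φ⟩ ⟨j, ψ⟩ h1 h2
    obtain ⟨s, hφ⟩ := T4_real (ι i) φ
    obtain ⟨t, hψ⟩ := T4_real (ι j) ψ
    refine (swap_iff_sq (hx i) (hx j) (hs i) (hs j) hφ hψ (ha i s) (ha j t)).2 (h ⟨i, s⟩ ⟨j, t⟩ fun h3 => ?_)
    obtain ⟨rfl, h4⟩ := Sigma.mk.inj h3
    obtain rfl := eq_of_heq h4
    rcases T4_two (hx i) (hs i) hφ hψ (ha i s) with h5 | h5
    · exact h1 (by rw [h5])
    · exact h2 (by rw [h5])

end TSP
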