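import Mathlib
import Pool.Agent.Lib.MP_802513_agHI.H2

/-! An automorphism which changes some and not all of the embeddings of a CM field, and fixes the maximal real subfields. -/

set_option autoImplicit false

namespace TSP

open NumberField Module

private theorem T3_mk {E : Type} [Field E] [NumberField E] [IsCMField E] (χ χ' : E →+* ℂ)
    (h : ∀ a : maximalRealSubfield E, χ' (algebraMap (maximalRealSubfield E) E a) = χ (algebraMap (maximalRealSubfield E) E a)) :
    χ' = χ ∨ χ' = (starRingEnd ℂ).comp χ := by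
  have h1 : InfinitePlace.mk χ = InfinitePlace.mk χ' := by
    apply (IsCMField.equivInfinitePlace E).injective
    rw [IsCMField.equivInfinitePlace_apply, IsCMField.equivInfinitePlace_apply, InfinitePlace.comap_mk,
      InfinitePlace.comap_mk]
    have h2 : χ.comp (algebraMap (maximalRealSubfield E) E) = χ'.comp (algebraMap (maximalRealSubfield E) E) :=
      RingHom.ext fun a => (h a).symm
    rw [h2]
  rcases InfinitePlace.mk_eq_iff.1 h1 with h2 | h2
  · exact Or.inl h2.symm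
  · refine Or.inr ?_
    rw [← h2]
    exact RingHom.ext fun a => ComplexEmbedding.conjugate_coe_eq χ a

private theorem T3_ext (f g : ℂ →+* ℂ) {S : Set ℂ} (h : ∀ z ∈ S, f z = g z) {x : ℂ}
    (hx : x ∈ IntermediateField.adjoin ℚ S) : f x = g x := by
  refine IntermediateField.adjoin_induction ℚ (p := fun x _ => f x = g x) (fun z hz => h z hz) (fun r => ?_)
    (fun a b _ _ ha hb => ?_) (fun a _ ha => ?_) (fun a b _ _ ha hb => ?_) hx
  · rw [eq_ratCast (algebraMap ℚ ℂ) r, map_ratCast, map_ratCast]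
  · rw [map_add, map_add, ha, hb]
  · rw [map_inv₀, map_inv₀, ha]
  · rw [map_mul, map_mul, ha, hb]

/-- an automorphism over `M` which is neither the identity nor the conjugation at some element of `L` -/
private theorem T3_aut {M L : IntermediateField ℚ ℂ} (hML : M ≤ L) (hV : 2 * finrank ℚ M < finrank ℚ L) :
    ∃ (v : ℂ ≃+* ℂ) (θ : ℂ), θ ∈ L ∧ (∀ x ∈ M, v x = x) ∧ v θ ≠ θ ∧ v θ ≠ starRingEnd ℂ θ := by
  classical
  have hfL : FiniteDimensional ℚ L := Module.finite_of_finrank_pos (by omega)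
  have hfM : FiniteDimensional ℚ M :=
    FiniteDimensional.of_injective (IntermediateField.inclusion hML).toLinearMap
      (IntermediateField.inclusion hML).injective
  have hr : finrank ℚ M * finrank M (IntermediateField.extendScalars hML) = finrank ℚ L := by
    rw [← IntermediateField.relfinrank_eq_finrank_of_le hML]
    exact IntermediateField.finrank_bot_mul_relfinrank hML
  have h2 : 2 < finrank M (IntermediateField.extendScalars hML) := by
    by_contra hcon
    have h3 : finrank M (IntermediateField.extendScalars hML) ≤ 2 := not_lt.1 hcon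
    have h4 := Nat.mul_le_mul_left (finrank ℚ M) h3
    omega
  have hf : FiniteDimensional M (IntermediateField.extendScalars hML) := Module.finite_of_finrank_pos (by omega)
  obtain ⟨α, hα⟩ := Field.exists_primitive_element M (IntermediateField.extendScalars hML)
  have hdeg := (Field.primitive_element_iff_minpoly_natDegree_eq M α).1 hα
  have hmin : minpoly M ((algebraMap (IntermediateField.extendScalars hML) ℂ) α) = minpoly M α :=
    minpoly.algebraMap_eq (algebraMap (IntermediateField.extendScalars hML) ℂ).injective α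
  obtain ⟨θ, hθ⟩ : ∃ θ : ℂ, θ = (algebraMap (IntermediateField.extendScalars hML) ℂ) α := ⟨_, rfl⟩
  rw [← hθ] at hmin
  have hint : IsIntegral M θ := by
    rw [hθ]
    exact (IsIntegral.of_finite M α).algebraMap
  have hθL : θ ∈ L := by
    rw [hθ]
    exact (IntermediateField.mem_extendScalars hML).1 α.2
  have hcard : Fintype.card ((minpoly M θ).rootSet ℂ) = (minpoly M θ).natDegree :=
    Polynomial.card_rootSet_eq_natDegree (minpoly.irreducible hint).separable (IsAlgClosed.splits _)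
  obtain ⟨z, hz, hz1, hz2⟩ : ∃ z ∈ (minpoly M θ).rootSet ℂ, z ≠ θ ∧ z ≠ starRingEnd ℂ θ := by
    by_contra hcon
    have h3 : (minpoly M θ).rootSet ℂ ⊆ (({θ, starRingEnd ℂ θ} : Finset ℂ) : Set ℂ) := by
      intro z hz
      by_contra hz'
      refine hcon ⟨z, hz, fun h => hz' ?_, fun h => hz' ?_⟩
      · rw [h]
        simp
      · rw [h]
        simp
    have h4 : ((minpoly M θ).rootSet ℂ).ncard ≤ 2 :=
      (Set.ncard_le_ncard h3 (Finset.finite_toSet _)).trans ((Set.ncard_coe_finset _).le.trans Finset.card_le_two)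
    rw [← Nat.card_coe_set_eq, Nat.card_eq_fintype_card, hcard, hmin, hdeg] at h4
    omega
  have hz' : Polynomial.aeval z (minpoly M θ) = 0 := (Polynomial.mem_rootSet.1 hz).2
  obtain ⟨v, hv1, hv2⟩ := HI.exists_aut_of_root M θ z hint hz'
  exact ⟨v, θ, hθL, hv2, by rw [hv1]; exact hz1, by rw [hv1]; exact hz2⟩

theorem exists_mixed {E : Type} [Field E] [NumberField E] [IsCMField E]
    (hV : 2 * finrank ℚ (IntermediateField.adjoin ℚ {z : ℂ | ∃ (φ : maximalRealSubfield E →+* ℂ) (a : maximalRealSubfield E), φ a = z}) <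
      finrank ℚ (IntermediateField.adjoin ℚ {z : ℂ | ∃ (φ : E →+* ℂ) (a : E), φ a = z})) :
    ∃ (v₀ : ℂ ≃+* ℂ) (φ₀ ψ₀ : E →+* ℂ), (∀ χ : E →+* ℂ, (v₀ : ℂ →+* ℂ).comp χ = χ ∨
      (v₀ : ℂ →+* ℂ).comp χ = (starRingEnd ℂ).comp χ) ∧ (v₀ : ℂ →+* ℂ).comp φ₀ = φ₀ ∧
        (v₀ : ℂ →+* ℂ).comp ψ₀ = (starRingEnd ℂ).comp ψ₀ := by
  classical
  obtain ⟨L, hL⟩ : ∃ L : IntermediateField ℚ ℂ,
    L = IntermediateField.adjoin ℚ {z : ℂ | ∃ (φ : E →+* ℂ) (a : E), φ a = z} := ⟨_, rfl⟩
  obtain ⟨M, hM⟩ : ∃ M : IntermediateField ℚ ℂ,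
    M = IntermediateField.adjoin ℚ {z : ℂ | ∃ (φ : maximalRealSubfield E →+* ℂ) (a : maximalRealSubfield E), φ a = z} :=
      ⟨_, rfl⟩
  rw [← hL, ← hM] at hV
  have hML : M ≤ L := by
    rw [hM, IntermediateField.adjoin_le_iff]
    rintro z ⟨φ, a, rfl⟩
    have h1 : ComplexEmbedding.lift E φ (algebraMap (maximalRealSubfield E) E a) = φ a :=
      ComplexEmbedding.lift_algebraMap_apply E φ a
    rw [← h1, hL]
    exact IntermediateField.subset_adjoin ℚ _ ⟨_, _, rfl⟩
  obtain ⟨v, θ, hθ, hv, hv1, hv2⟩ := T3_aut hML hV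
  have hmix : ∀ χ : E →+* ℂ, (v : ℂ →+* ℂ).comp χ = χ ∨ (v : ℂ →+* ℂ).comp χ = (starRingEnd ℂ).comp χ := by
    intro χ
    refine T3_mk χ _ fun a => ?_
    show v (χ (algebraMap (maximalRealSubfield E) E a)) = χ (algebraMap (maximalRealSubfield E) E a)
    refine hv _ ?_
    rw [hM]
    exact IntermediateField.subset_adjoin ℚ _ ⟨χ.comp (algebraMap (maximalRealSubfield E) E), a, rfl⟩
  rw [hL] at hθ
  have h1 : ∃ φ₀ : E →+* ℂ, (v : ℂ →+* ℂ).comp φ₀ = φ₀ := by
    by_contra hcon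
    refine hv2 (T3_ext (v : ℂ →+* ℂ) (starRingEnd ℂ) ?_ hθ)
    rintro z ⟨χ, a, rfl⟩
    rcases hmix χ with h | h
    · exact absurd ⟨χ, h⟩ hcon
    · exact RingHom.congr_fun h a
  have h2 : ∃ ψ₀ : E →+* ℂ, (v : ℂ →+* ℂ).comp ψ₀ = (starRingEnd ℂ).comp ψ₀ := by
    by_contra hcon
    refine hv1 (T3_ext (v : ℂ →+* ℂ) (RingHom.id ℂ) ?_ hθ)
    rintro z ⟨χ, a, rfl⟩
    rcases hmix χ with h | h
    · exact RingHom.congr_fun h a
    · exact absurd ⟨χ, h⟩ hcon
  obtain ⟨φ₀, hφ₀⟩ := h1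
  obtain ⟨ψ₀, hψ₀⟩ := h2
  exact ⟨v, φ₀, ψ₀, hmix, hφ₀, hψ₀⟩

end TSP
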