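import Pool.Agent.Lib.MP_021685_agSP.T2
import Pool.Agent.Lib.MP_021685_agSP.T3

/-! CM fields whose maximal real subfield has no proper subfields: the Galois closures. -/

set_option autoImplicit false

namespace TSP

open NumberField Module

/-- Every CM field `E` whose maximal real subfield `F` has no subfields but `ℚ` and `F`, and whose Galois closure has degree
more than `2` over the Galois closure of `F`, has the property `Sep1`. -/
theorem sep1_of_primitive {E : Type} [Field E] [NumberField E] [IsCMField E]
    (hF : ∀ K : IntermediateField ℚ (maximalRealSubfield E), K = ⊥ ∨ K = ⊤)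
    (hV : 2 * finrank ℚ (IntermediateField.adjoin ℚ
        {z : ℂ | ∃ (φ : maximalRealSubfield E →+* ℂ) (a : maximalRealSubfield E), φ a = z}) <
      finrank ℚ (IntermediateField.adjoin ℚ {z : ℂ | ∃ (φ : E →+* ℂ) (a : E), φ a = z})) : Sep1 E :=
  sep1_of_prim hF (exists_mixed hV)

end TSP
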