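import Pool.Agent.Lib.MP_021685_agSP.DX
import Pool.Agent.Lib.MP_021685_agSP.SPT
import Pool.Agent.Lib.MP_021685_agSP.SPP
import Pool.Agent.Lib.MP_021685_agSP.SPQ
import Pool.Agent.Lib.MP_021685_agSP.T4
import Pool.Agent.Lib.MP_021685_agSP.T5

/-! The separated families of CM fields, explicitly. -/

set_option autoImplicit false

namespace TSP

open NumberField Polynomial

theorem explicit : Explicit :=
  fun _ F E _ _ _ _ _ a ι x hx hs ha => sep_iff_sq F E a ι x hx hs ha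

theorem examples : Examples :=
  ⟨fun _ _ _ _ _ h1 h2 => sep_of h1 fun i j hij φ ψ => cross_of_closure (h1 i) (h1 j) (h2 i j hij) φ ψ,
    fun _ _ _ _ _ hp hp2 hd => ⟨fun h => h.nonneg (by rw [hd]; have := hp.two_le; omega), sep1_of_prime hp hp2 hd⟩,
    fun _ _ _ _ hE hS hA => sep_of_signs (fun i => ⟨hE i, hS i⟩) hA⟩

theorem primitive : Primitive := fun _ _ _ _ hF hV => sep1_of_primitive hF hV

/-- The equivalence, with `EvenFull`. -/
theorem sep_iff_evenFull {r : ℕ} {g : Fin r → ℕ} {E : Fin r → Type} [∀ i, Field (E i)] [∀ i, NumberField (E i)]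
    (hE : ∀ i, IsCMField (E i) ∧ Module.finrank ℚ (E i) = 2 * g i) :
    Sep E ↔ ∀ (Q : ℕ) (J : Fin r → Type) [∀ i, Fintype (J i)] (a : ∀ i, J i → E i) (R : ℤ[X]), IsPrimePow Q → R.Monic →
      (∀ (i : Fin r) (k : J i) (φ : E i →+* ℂ), φ (a i k) * starRingEnd ℂ (φ (a i k)) = (Q : ℂ)) →
      (∀ z : ℂ, aeval z R = 0 ↔ ∃ (i : Fin r) (k : J i) (φ : E i →+* ℂ), φ (a i k) = z) →
      (∀ i, TWF.IsIndep Q (a i)) → EvenFull Q R := by
  have hcm : ∀ i, IsCMField (E i) := fun i => (hE i).1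
  refine ⟨fun h Q J _ a R hQ hR hW hr hi => ?_, fun h => sep_of_evenFull h⟩
  exact evenFull_of_full (evenFull_of_tateFields (tateFields hE h) Q J a R hQ.pos hR hW hr hi)

end TSP
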